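import Mathlib

/-!
# Abstract comparison lemma for two optimal periodic efforts
-/

open Set Filter Topology

namespace Pool.PeriodicEffort

/-- The optimality system of one minimiser. -/
structure Sys (C W L R B Q : ℝ → ℝ) (lam : ℝ) : Prop where
  contC : Continuous C
  contW : Continuous W
  monoC : Monotone C
  monoW : Monotone W
  unbl : ∀ x, ∃ a < x, C a < C x ∨ W a < W x
  unbr : ∀ x, ∃ a > x, C x < C a ∨ W x < W a
  LR : ∀ t, L t ≤ R t
  RL : ∀ s t, s < t → R s ≤ L t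
  tl : ∀ x, Tendsto R (𝓝[<] x) (𝓝 (L x))
  tr : ∀ x, Tendsto L (𝓝[>] x) (𝓝 (R x))
  Bcont : Continuous B
  Qcont : Continuous Q
  Bpos : ∀ t, 0 < B t
  Qpos : ∀ t, 0 < Q t
  lampos : 0 < lam
  le : ∀ t, B t * Q t ≤ lam
  B1 : ∀ a x, a < x → Real.exp (R a) * (C x - C a) ≤ B x - B a
  B2 : ∀ a x, a < x → B x - B a ≤ Real.exp (L x) * (C x - C a)
  Q1 : ∀ a x, a < x → Real.exp (-L x) * (W x - W a) ≤ Q a - Q x
  Q2 : ∀ a x, a < x → Q a - Q x ≤ Real.exp (-R a) * (W x - W a)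
  kkt : ∀ a x, a ≤ x → (∀ z ∈ Icc a x, B z * Q z < lam) → R x ≤ L a
  null : ∀ a x, a < x → C a = C x → W a = W x → R x ≤ L a
  Kl : ∀ x, ∃ a < x, B a * Q a = lam
  Kr : ∀ x, ∃ a > x, B a * Q a = lam

namespace Sys

variable {C W L R B Q : ℝ → ℝ} {lam : ℝ}

/-- Time reversal. -/
theorem mirror (S : Sys C W L R B Q lam) :
    Sys (fun t => -W (-t)) (fun t => -C (-t)) (fun t => -R (-t)) (fun t => -L (-t))
      (fun t => Q (-t)) (fun t => B (-t)) lam where
  contC := (S.contW.comp continuous_neg).neg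
  contW := (S.contC.comp continuous_neg).neg
  monoC := fun a b h => neg_le_neg (S.monoW (neg_le_neg h))
  monoW := fun a b h => neg_le_neg (S.monoC (neg_le_neg h))
  unbl := by
    intro x
    obtain ⟨a, ha, h⟩ := S.unbr (-x)
    refine ⟨-a, by linarith, ?_⟩
    simp only [neg_neg]
    rcases h with h | h
    · right; linarith
    · left; linarith
  unbr := by
    intro x
    obtain ⟨a, ha, h⟩ := S.unbl (-x)
    refine ⟨-a, by linarith, ?_⟩
    simp only [neg_neg]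
    rcases h with h | h
    · right; linarith
    · left; linarith
  LR := fun t => neg_le_neg (S.LR (-t))
  RL := fun s t h => neg_le_neg (S.RL (-t) (-s) (neg_lt_neg h))
  tl := by
    intro x
    have h := (S.tr (-x)).comp (tendsto_neg_nhdsLT (a := x))
    exact h.neg
  tr := by
    intro x
    have h := (S.tl (-x)).comp (tendsto_neg_nhdsGT (a := x))
    exact h.neg
  Bcont := S.Qcont.comp continuous_neg
  Qcont := S.Bcont.comp continuous_neg
  Bpos := fun t => S.Qpos (-t)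
  Qpos := fun t => S.Bpos (-t)
  lampos := S.lampos
  le := fun t => by rw [mul_comm]; exact S.le (-t)
  B1 := by
    intro a x h
    have := S.Q1 (-x) (-a) (neg_lt_neg h)
    calc Real.exp (-L (-a)) * (-W (-x) - -W (-a)) = Real.exp (-L (-a)) * (W (-a) - W (-x)) := by ring
      _ ≤ _ := this
  B2 := by
    intro a x h
    have := S.Q2 (-x) (-a) (neg_lt_neg h)
    calc Q (-x) - Q (-a) ≤ _ := this
      _ = _ := by ring
  Q1 := by
    intro a x h
    have := S.B1 (-x) (-a) (neg_lt_neg h)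
    simp only [neg_neg]
    calc Real.exp (R (-x)) * (-C (-x) - -C (-a)) = Real.exp (R (-x)) * (C (-a) - C (-x)) := by ring
      _ ≤ _ := this
  Q2 := by
    intro a x h
    have := S.B2 (-x) (-a) (neg_lt_neg h)
    simp only [neg_neg]
    calc B (-a) - B (-x) ≤ _ := this
      _ = _ := by ring
  kkt := by
    intro a x h hz
    have := S.kkt (-x) (-a) (neg_le_neg h) (fun z hz' => by
      have := hz (-z) ⟨by linarith [hz'.2], by linarith [hz'.1]⟩
      simpa [mul_comm] using this)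
    exact neg_le_neg this
  null := by
    intro a x h hC hW
    have := S.null (-x) (-a) (neg_lt_neg h) (by simpa using hW.symm) (by simpa using hC.symm)
    exact neg_le_neg this
  Kl := by
    intro x
    obtain ⟨a, ha, h⟩ := S.Kr (-x)
    exact ⟨-a, by linarith, by simpa [mul_comm] using h⟩
  Kr := by
    intro x
    obtain ⟨a, ha, h⟩ := S.Kl (-x)
    exact ⟨-a, by linarith, by simpa [mul_comm] using h⟩

/-- K-point at the right end. -/
theorem pia (S : Sys C W L R B Q lam) {a x : ℝ} (h : a < x) (hx : B x * Q x = lam) :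
    B a * B x * (Real.exp (-L x)) ^ 2 * (W x - W a) ≤ lam * (C x - C a) := by
  have h1 := S.Q1 a x h
  have h2 := S.B2 a x h
  have h3 := S.le a
  have ha := S.Bpos a
  have hb := S.Bpos x
  have he : 0 < Real.exp (-L x) := Real.exp_pos _
  have hee : Real.exp (-L x) * Real.exp (L x) = 1 := by rw [← Real.exp_add]; simp
  have h4 : B a * B x * (Q a - Q x) ≤ lam * (B x - B a) := by nlinarith
  calc B a * B x * (Real.exp (-L x)) ^ 2 * (W x - W a)
      = Real.exp (-L x) * (B a * B x) * (Real.exp (-L x) * (W x - W a)) := by ring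
    _ ≤ Real.exp (-L x) * (B a * B x) * (Q a - Q x) := by gcongr
    _ = Real.exp (-L x) * (B a * B x * (Q a - Q x)) := by ring
    _ ≤ Real.exp (-L x) * (lam * (B x - B a)) := by gcongr
    _ = lam * (Real.exp (-L x) * (B x - B a)) := by ring
    _ ≤ lam * (Real.exp (-L x) * (Real.exp (L x) * (C x - C a))) := by
        have := S.lampos
        gcongr
    _ = lam * (C x - C a) := by rw [← mul_assoc (Real.exp (-L x)), hee, one_mul]

/-- K-point at the left end. -/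
theorem pib (S : Sys C W L R B Q lam) {a x : ℝ} (h : a < x) (hx : B a * Q a = lam) :
    lam * (C x - C a) ≤ B a * B x * (Real.exp (-R a)) ^ 2 * (W x - W a) := by
  have h1 := S.Q2 a x h
  have h2 := S.B1 a x h
  have h3 := S.le x
  have ha := S.Bpos a
  have hb := S.Bpos x
  have he : 0 < Real.exp (-R a) := Real.exp_pos _
  have hee : Real.exp (-R a) * Real.exp (R a) = 1 := by rw [← Real.exp_add]; simp
  have h4 : lam * (B x - B a) ≤ B a * B x * (Q a - Q x) := by nlinarith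
  calc lam * (C x - C a) = lam * (Real.exp (-R a) * (Real.exp (R a) * (C x - C a))) := by
        rw [← mul_assoc (Real.exp (-R a)), hee, one_mul]
    _ ≤ lam * (Real.exp (-R a) * (B x - B a)) := by
        have := S.lampos
        gcongr
    _ = Real.exp (-R a) * (lam * (B x - B a)) := by ring
    _ ≤ Real.exp (-R a) * (B a * B x * (Q a - Q x)) := by gcongr
    _ = Real.exp (-R a) * (B a * B x) * (Q a - Q x) := by ring
    _ ≤ Real.exp (-R a) * (B a * B x) * (Real.exp (-R a) * (W x - W a)) := by gcongr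
    _ = _ := by ring

theorem monoL (S : Sys C W L R B Q lam) : Monotone L := by
  intro a b h
  rcases h.eq_or_lt with h | h
  · rw [h]
  · exact (S.LR a).trans (S.RL a b h)

theorem monoR (S : Sys C W L R B Q lam) : Monotone R := by
  intro a b h
  rcases h.eq_or_lt with h | h
  · rw [h]
  · exact (S.RL a b h).trans (S.LR b)

end Sys

section Two

variable {C W L₁ R₁ B₁ Q₁ L₂ R₂ B₂ Q₂ : ℝ → ℝ} {r₁ r₂ : ℝ}

/-- Core contradiction. -/
theorem no_pair (S₁ : Sys C W L₁ R₁ B₁ Q₁ (r₁ ^ 2)) (S₂ : Sys C W L₂ R₂ B₂ Q₂ (r₂ ^ 2))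
    (hr₁ : 0 < r₁) (hr₂ : 0 < r₂) {a x : ℝ} (hax : a < x) (hx : B₁ x * Q₁ x = r₁ ^ 2)
    (ha : B₂ a * Q₂ a = r₂ ^ 2) (hnn : C a < C x ∨ W a < W x)
    (h1 : r₁ * B₂ a * Real.exp (-R₂ a) < r₂ * B₁ a * Real.exp (-L₁ x))
    (h2 : r₁ * B₂ x * Real.exp (-R₂ a) < r₂ * B₁ x * Real.exp (-L₁ x)) : False := by
  have hW : W a < W x := by
    by_contra hW
    have hW' : W x - W a = 0 := by
      have := S₁.monoW hax.le
      linarith
    have h3 := S₂.pib hax ha
    rw [hW', mul_zero] at h3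
    have h4 : C x - C a ≤ 0 := by
      by_contra h5
      have := mul_pos (pow_pos hr₂ 2) (not_le.mp h5)
      linarith
    rcases hnn with h | h <;> linarith
  have h3 := S₁.pia hax hx
  have h4 := S₂.pib hax ha
  have h5 : 0 < W x - W a := by linarith
  have p1 : 0 < r₁ * B₂ a * Real.exp (-R₂ a) :=
    mul_pos (mul_pos hr₁ (S₂.Bpos a)) (Real.exp_pos _)
  have p2 : 0 < r₁ * B₂ x * Real.exp (-R₂ a) :=
    mul_pos (mul_pos hr₁ (S₂.Bpos x)) (Real.exp_pos _)
  have h6 : (r₁ * B₂ a * Real.exp (-R₂ a)) * (r₁ * B₂ x * Real.exp (-R₂ a)) <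
      (r₂ * B₁ a * Real.exp (-L₁ x)) * (r₂ * B₁ x * Real.exp (-L₁ x)) :=
    mul_lt_mul'' h1 h2 p1.le p2.le
  have h7 := mul_lt_mul_of_pos_right h6 h5
  have h8 := mul_le_mul_of_nonneg_left h3 (pow_pos hr₂ 2).le
  have h9 := mul_le_mul_of_nonneg_left h4 (pow_pos hr₁ 2).le
  nlinarith

/-- (II-left), at a point which is not the right end of a null interval. -/
theorem left_aux (S₁ : Sys C W L₁ R₁ B₁ Q₁ (r₁ ^ 2)) (S₂ : Sys C W L₂ R₂ B₂ Q₂ (r₂ ^ 2))
    (hr₂ : 0 < r₂) (hr : r₂ ≤ r₁) {x : ℝ} (hx : B₁ x * Q₁ x = r₁ ^ 2)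
    (hnn : ∀ a < x, C a < C x ∨ W a < W x) :
    r₂ * B₁ x * Real.exp (-L₁ x) ≤ r₁ * B₂ x * Real.exp (-L₂ x) := by
  by_contra hcon
  rw [not_le] at hcon
  have hr₁ : 0 < r₁ := hr₂.trans_le hr
  by_cases hfr : ∃ᶠ a in 𝓝[<] x, B₂ a * Q₂ a = r₂ ^ 2
  · have e1 : Tendsto (fun a => r₁ * B₂ a * Real.exp (-R₂ a)) (𝓝[<] x)
        (𝓝 (r₁ * B₂ x * Real.exp (-L₂ x))) := by
      have hB : Tendsto B₂ (𝓝[<] x) (𝓝 (B₂ x)) :=
        (S₂.Bcont.tendsto x).mono_left nhdsWithin_le_nhds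
      exact (hB.const_mul r₁).mul
        ((Real.continuous_exp.tendsto _).comp (S₂.tl x).neg)
    have e2 : Tendsto (fun a => r₂ * B₁ a * Real.exp (-L₁ x)) (𝓝[<] x)
        (𝓝 (r₂ * B₁ x * Real.exp (-L₁ x))) := by
      have hB : Tendsto B₁ (𝓝[<] x) (𝓝 (B₁ x)) :=
        (S₁.Bcont.tendsto x).mono_left nhdsWithin_le_nhds
      exact (hB.const_mul r₂).mul_const _
    have e3 : Tendsto (fun a => r₁ * B₂ x * Real.exp (-R₂ a)) (𝓝[<] x)
        (𝓝 (r₁ * B₂ x * Real.exp (-L₂ x))) :=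
      ((Real.continuous_exp.tendsto _).comp (S₂.tl x).neg).const_mul _
    have f1 := e1.eventually_lt e2 hcon
    have f3 := e3.eventually_lt (tendsto_const_nhds (x := r₂ * B₁ x * Real.exp (-L₁ x))) hcon
    obtain ⟨a, ha, ha1, ha3, ha4⟩ :=
      (hfr.and_eventually (f1.and (f3.and self_mem_nhdsWithin))).exists
    exact no_pair S₁ S₂ hr₁ hr₂ ha4 hx ha (hnn a ha4) ha1 ha3
  · -- last point of K₂ before x
    rw [not_frequently] at hfr
    obtain ⟨b, hb, hbK⟩ : ∃ b < x, ∀ z ∈ Ioo b x, B₂ z * Q₂ z ≠ r₂ ^ 2 := by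
      rw [eventually_nhdsWithin_iff, Metric.eventually_nhds_iff] at hfr
      obtain ⟨ε, hε, h⟩ := hfr
      refine ⟨x - ε, by linarith, fun z hz => h ?_ hz.2⟩
      rw [Real.dist_eq, abs_lt]
      constructor <;> linarith [hz.1, hz.2]
    obtain ⟨a₀, ha₀, ha₀K⟩ := S₂.Kl x
    set K : Set ℝ := {z | B₂ z * Q₂ z = r₂ ^ 2} ∩ Icc a₀ b with hK
    have hclosed : IsClosed {z : ℝ | B₂ z * Q₂ z = r₂ ^ 2} :=
      isClosed_eq (S₂.Bcont.mul S₂.Qcont) continuous_const
    have hKc : IsCompact K := by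
      rw [hK, inter_comm]
      exact isCompact_Icc.inter_right hclosed
    have ha₀b : a₀ ≤ b := by
      by_contra h
      exact hbK a₀ ⟨not_le.mp h, ha₀⟩ ha₀K
    have hKne : K.Nonempty := ⟨a₀, ha₀K, le_rfl, ha₀b⟩
    have haK := hKc.sSup_mem hKne
    set a := sSup K with ha
    have hax : a < x := haK.2.2.trans_lt hb
    have hno : ∀ z ∈ Ioo a x, B₂ z * Q₂ z ≠ r₂ ^ 2 := by
      intro z hz hzK
      by_cases hzb : z ≤ b
      · have : z ∈ K := ⟨hzK, haK.2.1.trans hz.1.le, hzb⟩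
        have := le_csSup hKc.bddAbove this
        linarith [hz.1]
      · exact hbK z ⟨not_le.mp hzb, hz.2⟩ hzK
    have hRL : R₂ a = L₂ x := by
      apply le_antisymm (S₂.RL a x hax)
      have h1 : ∀ z ∈ Ioo a x, ∀ y ∈ Ioo a x, z ≤ y → R₂ y ≤ L₂ z := by
        intro z hz y hy hzy
        apply S₂.kkt z y hzy
        intro u hu
        exact lt_of_le_of_ne (S₂.le u) (hno u ⟨hz.1.trans_le hu.1, hu.2.trans_lt hy.2⟩)
      have hIr : Ioo a x ∈ 𝓝[<] x := Ioo_mem_nhdsLT hax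
      have hIl : Ioo a x ∈ 𝓝[>] a := Ioo_mem_nhdsGT hax
      -- let y -> x
      have h2 : ∀ z ∈ Ioo a x, L₂ x ≤ L₂ z := by
        intro z hz
        apply le_of_tendsto (S₂.tl x)
        filter_upwards [Ioo_mem_nhdsLT hz.2] with y hy
        exact h1 z hz y ⟨hz.1.trans hy.1, hy.2⟩ hy.1.le
      exact ge_of_tendsto (S₂.tr a) (by filter_upwards [hIl] with z hz using h2 z hz)
    have h2 : r₁ * B₂ x * Real.exp (-R₂ a) < r₂ * B₁ x * Real.exp (-L₁ x) := by
      rw [hRL]; exact hcon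
    have h1 : r₁ * B₂ a * Real.exp (-R₂ a) < r₂ * B₁ a * Real.exp (-L₁ x) := by
      have g1 := S₁.B2 a x hax
      have g2 := S₂.B1 a x hax
      have hCC : 0 ≤ C x - C a := by linarith [S₁.monoC hax.le]
      have k1 : Real.exp (-L₁ x) * (B₁ x - B₁ a) ≤ C x - C a := by
        have := mul_le_mul_of_nonneg_left g1 (Real.exp_pos (-L₁ x)).le
        rwa [← mul_assoc, ← Real.exp_add, neg_add_cancel, Real.exp_zero, one_mul] at this
      have k2 : C x - C a ≤ Real.exp (-R₂ a) * (B₂ x - B₂ a) := by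
        have := mul_le_mul_of_nonneg_left g2 (Real.exp_pos (-R₂ a)).le
        rwa [← mul_assoc, ← Real.exp_add, neg_add_cancel, Real.exp_zero, one_mul] at this
      have k3 := mul_le_mul_of_nonneg_left k1 hr₂.le
      have k4 := mul_le_mul_of_nonneg_left k2 hr₁.le
      have k5 : r₂ * (C x - C a) ≤ r₁ * (C x - C a) := mul_le_mul_of_nonneg_right hr hCC
      nlinarith
    exact no_pair S₁ S₂ hr₁ hr₂ hax hx haK.1 (hnn a hax) h1 h2

/-- (II-left) -/
theorem left_main (S₁ : Sys C W L₁ R₁ B₁ Q₁ (r₁ ^ 2)) (S₂ : Sys C W L₂ R₂ B₂ Q₂ (r₂ ^ 2))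
    (hr₂ : 0 < r₂) (hr : r₂ ≤ r₁) {x : ℝ} (hx : B₁ x * Q₁ x = r₁ ^ 2) :
    r₂ * B₁ x * Real.exp (-L₁ x) ≤ r₁ * B₂ x * Real.exp (-L₂ x) := by
  set N : Set ℝ := {z | z ≤ x ∧ C z = C x ∧ W z = W x} with hN
  have hNc : IsClosed N := by
    apply (isClosed_Iic).inter
    exact (isClosed_eq S₁.contC continuous_const).inter (isClosed_eq S₁.contW continuous_const)
  have hNne : N.Nonempty := ⟨x, le_rfl, rfl, rfl⟩
  have hNb : BddBelow N := by
    obtain ⟨a, ha, h⟩ := S₁.unbl x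
    refine ⟨a, fun z hz => ?_⟩
    by_contra hza
    rw [not_le] at hza
    have h1 := S₁.monoC hza.le
    have h2 := S₁.monoW hza.le
    rw [hz.2.1] at h1
    rw [hz.2.2] at h2
    rcases h with h | h <;> linarith
  have hlN := hNc.csInf_mem hNne hNb
  set l := sInf N with hl
  have hnn : ∀ a < l, C a < C l ∨ W a < W l := by
    intro a ha
    by_contra hcon
    rw [not_or, not_lt, not_lt] at hcon
    have h1 : C a = C l := le_antisymm (S₁.monoC ha.le) hcon.1
    have h2 : W a = W l := le_antisymm (S₁.monoW ha.le) hcon.2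
    have : a ∈ N := ⟨ha.le.trans hlN.1, h1.trans hlN.2.1, h2.trans hlN.2.2⟩
    have := csInf_le hNb this
    linarith
  rcases hlN.1.eq_or_lt with hlx | hlx
  · rw [hlx] at hnn
    exact left_aux S₁ S₂ hr₂ hr hx hnn
  · have hCz : C x - C l = 0 := by rw [hlN.2.1, sub_self]
    have hWz : W x - W l = 0 := by rw [hlN.2.2, sub_self]
    have key : ∀ {L R B Q : ℝ → ℝ} {lam : ℝ}, Sys C W L R B Q lam →
        B l = B x ∧ Q l = Q x ∧ L l = L x := by
      intro L R B Q lam S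
      have b1 := S.B1 l x hlx
      have b2 := S.B2 l x hlx
      have q1 := S.Q1 l x hlx
      have q2 := S.Q2 l x hlx
      rw [hCz, mul_zero] at b1 b2
      rw [hWz, mul_zero] at q1 q2
      refine ⟨by linarith, by linarith, ?_⟩
      have n := S.null l x hlx hlN.2.1 hlN.2.2
      have m := S.monoL hlx.le
      have := S.LR x
      linarith
    obtain ⟨e1, e2, e3⟩ := key S₁
    obtain ⟨f1, f2, f3⟩ := key S₂
    have := left_aux S₁ S₂ hr₂ hr (x := l) (by rw [e1, e2]; exact hx) hnn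
    rwa [e1, e3, f1, f3] at this

/-- (II-right) -/
theorem right_main (S₁ : Sys C W L₁ R₁ B₁ Q₁ (r₁ ^ 2)) (S₂ : Sys C W L₂ R₂ B₂ Q₂ (r₂ ^ 2))
    (hr₂ : 0 < r₂) (hr : r₂ ≤ r₁) {y : ℝ} (hy : B₁ y * Q₁ y = r₁ ^ 2) :
    r₁ * B₂ y * Real.exp (-R₂ y) ≤ r₂ * B₁ y * Real.exp (-R₁ y) := by
  have h := left_main S₁.mirror S₂.mirror hr₂ hr (x := -y) (by simpa [mul_comm] using hy)
  simp only [neg_neg] at h
  -- h : r₂ * Q₁ y * exp (R₁ y) ≤ r₁ * Q₂ y * exp (R₂ y)
  have hr₁ : 0 < r₁ := hr₂.trans_le hr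
  have b1 := S₁.Bpos y
  have b2 := S₂.Bpos y
  have q := S₂.le y
  have E1 := Real.exp_pos (R₁ y)
  have E2 := Real.exp_pos (R₂ y)
  have h2 : r₂ * (B₁ y * Q₁ y) * Real.exp (R₁ y) * B₂ y ≤
      r₁ * (B₂ y * Q₂ y) * Real.exp (R₂ y) * B₁ y := by
    have := mul_le_mul_of_nonneg_left h (mul_pos b1 b2).le
    nlinarith
  rw [hy] at h2
  have h3 : r₂ * r₁ ^ 2 * Real.exp (R₁ y) * B₂ y ≤ r₁ * r₂ ^ 2 * Real.exp (R₂ y) * B₁ y := by
    refine h2.trans ?_
    gcongr
  have h4 : r₁ * B₂ y * Real.exp (R₁ y) ≤ r₂ * B₁ y * Real.exp (R₂ y) := by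
    have h5 : (r₁ * r₂) * (r₁ * B₂ y * Real.exp (R₁ y)) ≤
        (r₁ * r₂) * (r₂ * B₁ y * Real.exp (R₂ y)) := by nlinarith
    exact le_of_mul_le_mul_left h5 (mul_pos hr₁ hr₂)
  have e1 : Real.exp (-R₁ y) * Real.exp (R₁ y) = 1 := by rw [← Real.exp_add]; simp
  have e2 : Real.exp (-R₂ y) * Real.exp (R₂ y) = 1 := by rw [← Real.exp_add]; simp
  have h6 := mul_le_mul_of_nonneg_left h4
    (mul_pos (Real.exp_pos (-R₁ y)) (Real.exp_pos (-R₂ y))).le
  calc r₁ * B₂ y * Real.exp (-R₂ y)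
      = r₁ * B₂ y * Real.exp (-R₂ y) * (Real.exp (-R₁ y) * Real.exp (R₁ y)) := by
        rw [e1, mul_one]
    _ = Real.exp (-R₁ y) * Real.exp (-R₂ y) * (r₁ * B₂ y * Real.exp (R₁ y)) := by ring
    _ ≤ Real.exp (-R₁ y) * Real.exp (-R₂ y) * (r₂ * B₁ y * Real.exp (R₂ y)) := h6
    _ = r₂ * B₁ y * Real.exp (-R₁ y) * (Real.exp (-R₂ y) * Real.exp (R₂ y)) := by ring
    _ = _ := by rw [e2, mul_one]

/-- `S₂ ≤ S₁` everywhere. -/
theorem state_le (S₁ : Sys C W L₁ R₁ B₁ Q₁ (r₁ ^ 2)) (S₂ : Sys C W L₂ R₂ B₂ Q₂ (r₂ ^ 2))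
    (hr₂ : 0 < r₂) (hr : r₂ ≤ r₁) (r : ℝ) :
    B₂ r * Real.exp (-R₂ r) ≤ B₁ r * Real.exp (-R₁ r) := by
  have hr₁ : 0 < r₁ := hr₂.trans_le hr
  have atK : ∀ y, B₁ y * Q₁ y = r₁ ^ 2 →
      B₂ y * Real.exp (-R₂ y) ≤ B₁ y * Real.exp (-R₁ y) := by
    intro y hy
    have h := right_main S₁ S₂ hr₂ hr hy
    have p : 0 < B₁ y * Real.exp (-R₁ y) := mul_pos (S₁.Bpos y) (Real.exp_pos _)
    have h' : r₁ * (B₂ y * Real.exp (-R₂ y)) ≤ r₁ * (B₁ y * Real.exp (-R₁ y)) := by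
      calc r₁ * (B₂ y * Real.exp (-R₂ y)) = r₁ * B₂ y * Real.exp (-R₂ y) := by ring
        _ ≤ _ := h
        _ = r₂ * (B₁ y * Real.exp (-R₁ y)) := by ring
        _ ≤ _ := mul_le_mul_of_nonneg_right hr p.le
    exact le_of_mul_le_mul_left h' hr₁
  obtain ⟨a₀, ha₀, ha₀K⟩ := S₁.Kl r
  set K : Set ℝ := {z | B₁ z * Q₁ z = r₁ ^ 2} ∩ Icc a₀ r with hK
  have hclosed : IsClosed {z : ℝ | B₁ z * Q₁ z = r₁ ^ 2} :=
    isClosed_eq (S₁.Bcont.mul S₁.Qcont) continuous_const
  have hKc : IsCompact K := by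
    rw [hK, inter_comm]
    exact isCompact_Icc.inter_right hclosed
  have hKne : K.Nonempty := ⟨a₀, ha₀K, le_rfl, ha₀.le⟩
  have hyK := hKc.sSup_mem hKne
  set y := sSup K with hy
  have hno : ∀ z ∈ Ioc y r, B₁ z * Q₁ z ≠ r₁ ^ 2 := by
    intro z hz hzK
    have : z ∈ K := ⟨hzK, hyK.2.1.trans hz.1.le, hz.2⟩
    have := le_csSup hKc.bddAbove this
    linarith [hz.1]
  rcases hyK.2.2.eq_or_lt with hyr | hyr
  · rw [← hyr]; exact atK y hyK.1
  · have hR : R₁ r = R₁ y := by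
      apply le_antisymm _ (S₁.monoR hyr.le)
      apply ge_of_tendsto (S₁.tr y)
      filter_upwards [Ioo_mem_nhdsGT hyr] with z hz
      apply S₁.kkt z r hz.2.le
      intro u hu
      exact lt_of_le_of_ne (S₁.le u) (hno u ⟨hz.1.trans_le hu.1, hu.2⟩)
    have h1 := S₁.B1 y r hyr
    have h2 := S₂.B2 y r hyr
    have h0 := atK y hyK.1
    have hCC : 0 ≤ C r - C y := by linarith [S₁.monoC hyr.le]
    have g1 : C r - C y ≤ Real.exp (-R₁ y) * (B₁ r - B₁ y) := by
      have := mul_le_mul_of_nonneg_left h1 (Real.exp_pos (-R₁ y)).le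
      rwa [← mul_assoc, ← Real.exp_add, neg_add_cancel, Real.exp_zero, one_mul] at this
    have g2 : Real.exp (-R₂ r) * (B₂ r - B₂ y) ≤ C r - C y := by
      have := mul_le_mul_of_nonneg_left h2 (Real.exp_pos (-R₂ r)).le
      rw [← mul_assoc, ← Real.exp_add] at this
      refine this.trans ?_
      have h5 : Real.exp (-R₂ r + L₂ r) ≤ 1 := by
        rw [← Real.exp_zero]
        exact Real.exp_le_exp.mpr (by linarith [S₂.LR r])
      calc Real.exp (-R₂ r + L₂ r) * (C r - C y) ≤ 1 * (C r - C y) := by gcongr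
        _ = _ := one_mul _
    have g3 : B₂ y * Real.exp (-R₂ r) ≤ B₂ y * Real.exp (-R₂ y) := by
      have := S₂.Bpos y
      have h6 := S₂.monoR hyr.le
      gcongr
    rw [hR]
    nlinarith

/-- `B₂ / B₁` is nondecreasing. -/
theorem ratio (S₁ : Sys C W L₁ R₁ B₁ Q₁ (r₁ ^ 2)) (S₂ : Sys C W L₂ R₂ B₂ Q₂ (r₂ ^ 2))
    (hst : ∀ r, B₂ r * Real.exp (-R₂ r) ≤ B₁ r * Real.exp (-R₁ r)) {x y : ℝ} (hxy : x ≤ y) :
    B₂ x * B₁ y ≤ B₂ y * B₁ x := by
  have main : ∀ ε : ℝ, 0 < ε → Real.log (B₁ y) - Real.log (B₁ x) ≤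
      (1 + ε) * (Real.log (B₂ y) - Real.log (B₂ x)) := by
    intro ε hε
    set s : Set ℝ := {z | Real.log (B₁ z) - Real.log (B₁ x) ≤
      (1 + ε) * (Real.log (B₂ z) - Real.log (B₂ x))} with hs
    have hl1 : Continuous fun z => Real.log (B₁ z) :=
      S₁.Bcont.log fun z => (S₁.Bpos z).ne'
    have hl2 : Continuous fun z => Real.log (B₂ z) :=
      S₂.Bcont.log fun z => (S₂.Bpos z).ne'
    have hsc : IsClosed s :=
      isClosed_le (hl1.sub continuous_const) (continuous_const.mul (hl2.sub continuous_const))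
    have hsub : Icc x y ⊆ s := by
      apply IsClosed.Icc_subset_of_forall_exists_gt (hsc.inter isClosed_Icc)
      · simp [hs]
      · intro z hz u hu
        -- eventually inequality
        have t1 : Tendsto (fun z' => Real.exp (L₁ z') * B₂ z') (𝓝[>] z)
            (𝓝 (Real.exp (R₁ z) * B₂ z)) :=
          ((Real.continuous_exp.tendsto _).comp (S₁.tr z)).mul
            ((S₂.Bcont.tendsto z).mono_left nhdsWithin_le_nhds)
        have hlt : Real.exp (R₁ z) * B₂ z < (1 + ε) * (Real.exp (R₂ z) * B₁ z) := by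
          have h := hst z
          have E1 := Real.exp_pos (R₁ z)
          have E2 := Real.exp_pos (R₂ z)
          have h2 := mul_le_mul_of_nonneg_left h (mul_pos E1 E2).le
          have e1 : Real.exp (-R₁ z) * Real.exp (R₁ z) = 1 := by rw [← Real.exp_add]; simp
          have e2 : Real.exp (-R₂ z) * Real.exp (R₂ z) = 1 := by rw [← Real.exp_add]; simp
          have h3 : Real.exp (R₁ z) * B₂ z ≤ Real.exp (R₂ z) * B₁ z := by
            calc Real.exp (R₁ z) * B₂ z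
                = Real.exp (R₁ z) * B₂ z * (Real.exp (-R₂ z) * Real.exp (R₂ z)) := by
                  rw [e2, mul_one]
              _ = Real.exp (R₁ z) * Real.exp (R₂ z) * (B₂ z * Real.exp (-R₂ z)) := by ring
              _ ≤ _ := h2
              _ = Real.exp (R₂ z) * B₁ z * (Real.exp (-R₁ z) * Real.exp (R₁ z)) := by ring
              _ = _ := by rw [e1, mul_one]
          have h4 : 0 < Real.exp (R₂ z) * B₁ z := mul_pos E2 (S₁.Bpos z)
          nlinarith
        have ev := t1.eventually_lt_const hlt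
        have ev2 : ∀ᶠ z' in 𝓝[>] z, z' ∈ Ioc z u := Ioc_mem_nhdsGT hu
        obtain ⟨z', hz1, hz2⟩ := (ev.and ev2).exists
        refine ⟨z', ?_, hz2⟩
        have hzs : Real.log (B₁ z) - Real.log (B₁ x) ≤
          (1 + ε) * (Real.log (B₂ z) - Real.log (B₂ x)) := hz.1
        have hb1 := S₁.Bpos z
        have hb1' := S₁.Bpos z'
        have hb2 := S₂.Bpos z
        have hb2' := S₂.Bpos z'
        have hCC : 0 ≤ C z' - C z := by linarith [S₁.monoC hz2.1.le]
        have i1 : Real.log (B₁ z') - Real.log (B₁ z) ≤ (B₁ z' - B₁ z) / B₁ z := by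
          rw [← Real.log_div hb1'.ne' hb1.ne']
          refine (Real.log_le_sub_one_of_pos (div_pos hb1' hb1)).trans (le_of_eq ?_)
          field_simp
        have i2 : (B₂ z' - B₂ z) / B₂ z' ≤ Real.log (B₂ z') - Real.log (B₂ z) := by
          have := Real.log_le_sub_one_of_pos (div_pos hb2 hb2')
          rw [Real.log_div hb2.ne' hb2'.ne'] at this
          have e : (B₂ z' - B₂ z) / B₂ z' = 1 - B₂ z / B₂ z' := by field_simp
          rw [e]; linarith
        have i3 : (B₁ z' - B₁ z) / B₁ z ≤ (1 + ε) * ((B₂ z' - B₂ z) / B₂ z') := by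
          have j1 := S₁.B2 z z' hz2.1
          have j2 := S₂.B1 z z' hz2.1
          rw [div_le_iff₀ hb1]
          have j3 : (B₁ z' - B₁ z) * B₂ z' ≤ (1 + ε) * (B₂ z' - B₂ z) * B₁ z := by
            calc (B₁ z' - B₁ z) * B₂ z' ≤ (Real.exp (L₁ z') * (C z' - C z)) * B₂ z' := by gcongr
              _ = (Real.exp (L₁ z') * B₂ z') * (C z' - C z) := by ring
              _ ≤ ((1 + ε) * (Real.exp (R₂ z) * B₁ z)) * (C z' - C z) := by gcongr
              _ = (1 + ε) * (Real.exp (R₂ z) * (C z' - C z)) * B₁ z := by ring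
              _ ≤ (1 + ε) * (B₂ z' - B₂ z) * B₁ z := by gcongr
          have : (1 + ε) * ((B₂ z' - B₂ z) / B₂ z') * B₁ z
              = ((1 + ε) * (B₂ z' - B₂ z) * B₁ z) / B₂ z' := by field_simp
          rw [this, le_div_iff₀ hb2']
          exact j3
        have i4 : (1 + ε) * ((B₂ z' - B₂ z) / B₂ z') ≤
            (1 + ε) * (Real.log (B₂ z') - Real.log (B₂ z)) :=
          mul_le_mul_of_nonneg_left i2 (by linarith)
        show Real.log (B₁ z') - Real.log (B₁ x) ≤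
          (1 + ε) * (Real.log (B₂ z') - Real.log (B₂ x))
        nlinarith
    exact hsub ⟨hxy, le_rfl⟩
  have hlog : Real.log (B₁ y) - Real.log (B₁ x) ≤ Real.log (B₂ y) - Real.log (B₂ x) := by
    have t : Tendsto (fun ε : ℝ => (1 + ε) * (Real.log (B₂ y) - Real.log (B₂ x))) (𝓝[>] 0)
        (𝓝 ((1 + 0) * (Real.log (B₂ y) - Real.log (B₂ x)))) := by
      apply Tendsto.mono_left _ nhdsWithin_le_nhds
      exact (Continuous.tendsto (by fun_prop) 0)
    rw [add_zero, one_mul] at t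
    exact ge_of_tendsto t (by filter_upwards [self_mem_nhdsWithin] with ε hε using main ε hε)
  have h1 := S₁.Bpos x
  have h2 := S₁.Bpos y
  have h3 := S₂.Bpos x
  have h4 := S₂.Bpos y
  have : Real.log (B₂ x * B₁ y) ≤ Real.log (B₂ y * B₁ x) := by
    rw [Real.log_mul h3.ne' h2.ne', Real.log_mul h4.ne' h1.ne']
    linarith
  exact (Real.log_le_log_iff (mul_pos h3 h2) (mul_pos h4 h1)).mp this

/-- **Comparison**: the effort measure of system 1 is dominated by that of system 2. -/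
theorem compare (S₁ : Sys C W L₁ R₁ B₁ Q₁ (r₁ ^ 2)) (S₂ : Sys C W L₂ R₂ B₂ Q₂ (r₂ ^ 2))
    (hr₂ : 0 < r₂) (hr : r₂ ≤ r₁) {t s : ℝ} (hts : t ≤ s) :
    R₁ s - L₁ t ≤ R₂ s - L₂ t := by
  have hr₁ : 0 < r₁ := hr₂.trans_le hr
  by_cases hE : ∀ z ∈ Icc t s, B₁ z * Q₁ z ≠ r₁ ^ 2
  · have h := S₁.kkt t s hts fun z hz => lt_of_le_of_ne (S₁.le z) (hE z hz)
    have h2 : L₂ t ≤ R₂ s := (S₂.monoL hts).trans (S₂.LR s)
    linarith
  · push Not at hE
    obtain ⟨z₀, hz₀, hz₀K⟩ := hE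
    set K : Set ℝ := {z | B₁ z * Q₁ z = r₁ ^ 2} ∩ Icc t s with hK
    have hclosed : IsClosed {z : ℝ | B₁ z * Q₁ z = r₁ ^ 2} :=
      isClosed_eq (S₁.Bcont.mul S₁.Qcont) continuous_const
    have hKc : IsCompact K := by
      rw [hK, inter_comm]
      exact isCompact_Icc.inter_right hclosed
    have hKne : K.Nonempty := ⟨z₀, hz₀K, hz₀⟩
    have hyK := hKc.sSup_mem hKne
    have hxK := hKc.sInf_mem hKne
    set y := sSup K with hy
    set x := sInf K with hx
    have hxy : x ≤ y := (csInf_le hKc.bddBelow hyK)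
    have hRy : R₁ s ≤ R₁ y := by
      rcases hyK.2.2.eq_or_lt with h | h
      · rw [h]
      · apply ge_of_tendsto (S₁.tr y)
        filter_upwards [Ioo_mem_nhdsGT h] with z hz
        apply S₁.kkt z s hz.2.le
        intro u hu
        refine lt_of_le_of_ne (S₁.le u) fun hu' => ?_
        have : u ∈ K := ⟨hu', hyK.2.1.trans (hz.1.le.trans hu.1), hu.2⟩
        have := le_csSup hKc.bddAbove this
        linarith [hu.1, hz.1]
    have hLx : L₁ x ≤ L₁ t := by
      rcases hxK.2.1.eq_or_lt with h | h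
      · rw [← h]
      · apply le_of_tendsto (S₁.tl x)
        filter_upwards [Ioo_mem_nhdsLT h] with z hz
        apply S₁.kkt t z hz.1.le
        intro u hu
        refine lt_of_le_of_ne (S₁.le u) fun hu' => ?_
        have : u ∈ K := ⟨hu', hu.1, (hu.2.trans hz.2.le).trans hxK.2.2⟩
        have := csInf_le hKc.bddBelow this
        linarith [hu.2, hz.2]
    have h1 := left_main S₁ S₂ hr₂ hr hxK.1
    have h2 := right_main S₁ S₂ hr₂ hr hyK.1
    have h3 := ratio S₁ S₂ (state_le S₁ S₂ hr₂ hr) hxy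
    have hb1 := S₁.Bpos x
    have hb2 := S₁.Bpos y
    have hb3 := S₂.Bpos x
    have hb4 := S₂.Bpos y
    have m := mul_le_mul h1 h2 (by positivity) (by positivity)
    -- (r₂ B₁x e^{-L₁x})(r₁ B₂y e^{-R₂y}) ≤ (r₁ B₂x e^{-L₂x})(r₂ B₁y e^{-R₁y})
    have m2 : (B₂ y * B₁ x) * Real.exp (-L₁ x - R₂ y) ≤ (B₂ y * B₁ x) * Real.exp (-L₂ x - R₁ y) := by
      have m3 : (r₁ * r₂) * ((B₂ y * B₁ x) * Real.exp (-L₁ x - R₂ y)) ≤
          (r₁ * r₂) * ((B₂ x * B₁ y) * Real.exp (-L₂ x - R₁ y)) := by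
        have a1 : Real.exp (-L₁ x - R₂ y) = Real.exp (-L₁ x) * Real.exp (-R₂ y) := by
          rw [← Real.exp_add]; rfl
        have a2 : Real.exp (-L₂ x - R₁ y) = Real.exp (-L₂ x) * Real.exp (-R₁ y) := by
          rw [← Real.exp_add]; rfl
        rw [a1, a2]
        nlinarith
      have m4 := le_of_mul_le_mul_left m3 (mul_pos hr₁ hr₂)
      exact m4.trans (mul_le_mul_of_nonneg_right h3 (Real.exp_pos _).le)
    have m5 := le_of_mul_le_mul_left m2 (mul_pos hb4 hb1)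
    have m6 := Real.exp_le_exp.mp m5
    have m7 : R₂ y ≤ R₂ s := S₂.monoR hyK.2.2
    have m8 : L₂ t ≤ L₂ x := S₂.monoL hxK.2.1
    linarith

end Two

end Pool.PeriodicEffort
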