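import Mathlib

/-!
# Optimal periodic effort: the objects of the problem

The class `M(T)` of (distribution functions of) periodic efforts, the periodic state, the cost,
minimisers for a given budget, and admissible data.
-/

open MeasureTheory Set

namespace Pool.PeriodicEffort

/-- The class `M(T)`: monotone non-decreasing `α : ℝ → ℝ`, one-sided continuous, with `α 0 = 0`
and `α (t + T) = α t + α T`.  The parameter `side` is the normalisation at the jumps:
`side = Set.Ici` gives right-continuous functions and `side = Set.Iic` left-continuous ones. -/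
structure IsEffort (side : ℝ → Set ℝ) (T : ℝ) (α : ℝ → ℝ) : Prop where
  mono : Monotone α
  cont : ∀ t, ContinuousWithinAt α (side t) t
  zero : α 0 = 0
  quasi : ∀ t, α (t + T) = α t + α T

/-- The `T`-periodic state `S_α`, by the formula of the problem on `[0, T)`. -/
noncomputable def state (T δ : ℝ) (c α : ℝ → ℝ) (t : ℝ) : ℝ :=
  Real.exp (-α t - δ * t) / (1 - Real.exp (-α T - δ * T)) *
    ((∫ r in (0 : ℝ)..t, c r * Real.exp (α r + δ * r)) +
      Real.exp (-α T - δ * T) * ∫ r in t..T, c r * Real.exp (α r + δ * r))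

/-- The cost `(1/T) ∫₀ᵀ w(t) S_α(t) dt`. -/
noncomputable def cost (T δ : ℝ) (c w α : ℝ → ℝ) : ℝ :=
  (1 / T) * ∫ t in (0 : ℝ)..T, w t * state T δ c α t

/-- `α` minimises the cost over `M(T)` among the efforts of budget `α(T)/T = η`. -/
structure IsMinimiser (side : ℝ → Set ℝ) (T δ : ℝ) (c w : ℝ → ℝ) (η : ℝ) (α : ℝ → ℝ) :
    Prop where
  effort : IsEffort side T α
  budget : α T / T = η
  min : ∀ β, IsEffort side T β → β T / T = η → cost T δ c w α ≤ cost T δ c w β

/-- Admissible data: `T, δ > 0`, `c, w ≥ 0` are `T`-periodic, `c` is integrable on a period, and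
for every budget `η > 0` there is exactly one minimiser. -/
structure Admissible (side : ℝ → Set ℝ) (T δ : ℝ) (c w : ℝ → ℝ) : Prop where
  T_pos : 0 < T
  δ_pos : 0 < δ
  c_nonneg : ∀ t, 0 ≤ c t
  c_periodic : Function.Periodic c T
  c_integrable : IntervalIntegrable c volume 0 T
  w_nonneg : ∀ t, 0 ≤ w t
  w_periodic : Function.Periodic w T
  unique_minimiser : ∀ η : ℝ, 0 < η → ∃! α : ℝ → ℝ, IsMinimiser side T δ c w η α

end Pool.PeriodicEffort
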