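import Mathlib
import Pool.Agent.Helper20.PeriodicEffortDefs

/-!
# First-order condition
-/

open MeasureTheory Set Filter Topology

namespace Pool.PeriodicEffort

/-- Locally bounded measurable functions. -/
def LB (φ : ℝ → ℝ) : Prop := Measurable φ ∧ ∀ r : ℝ, ∃ M : ℝ, ∀ t, |t| ≤ r → |φ t| ≤ M

/-- Locally interval integrable. -/
def LI (F : ℝ → ℝ) : Prop := ∀ a b, IntervalIntegrable F volume a b

theorem LB.add {φ ψ : ℝ → ℝ} (h1 : LB φ) (h2 : LB ψ) : LB fun t => φ t + ψ t := by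
  refine ⟨h1.1.add h2.1, fun r => ?_⟩
  obtain ⟨M, hM⟩ := h1.2 r
  obtain ⟨N, hN⟩ := h2.2 r
  exact ⟨M + N, fun t ht => (abs_add_le _ _).trans (add_le_add (hM t ht) (hN t ht))⟩

theorem LB.neg {φ : ℝ → ℝ} (h1 : LB φ) : LB fun t => -φ t := by
  refine ⟨h1.1.neg, fun r => ?_⟩
  obtain ⟨M, hM⟩ := h1.2 r
  exact ⟨M, fun t ht => by rw [abs_neg]; exact hM t ht⟩

theorem LB.sub {φ ψ : ℝ → ℝ} (h1 : LB φ) (h2 : LB ψ) : LB fun t => φ t - ψ t := by
  simpa [sub_eq_add_neg] using h1.add h2.neg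

theorem LB.mul {φ ψ : ℝ → ℝ} (h1 : LB φ) (h2 : LB ψ) : LB fun t => φ t * ψ t := by
  refine ⟨h1.1.mul h2.1, fun r => ?_⟩
  obtain ⟨M, hM⟩ := h1.2 r
  obtain ⟨N, hN⟩ := h2.2 r
  refine ⟨M * N, fun t ht => ?_⟩
  rw [abs_mul]
  exact mul_le_mul (hM t ht) (hN t ht) (abs_nonneg _) ((abs_nonneg _).trans (hM t ht))

theorem LB.const (k : ℝ) : LB fun _ => k := ⟨measurable_const, fun _ => ⟨|k|, fun _ _ => le_rfl⟩⟩

theorem LB.exp {φ : ℝ → ℝ} (h1 : LB φ) : LB fun t => Real.exp (φ t) := by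
  refine ⟨h1.1.exp, fun r => ?_⟩
  obtain ⟨M, hM⟩ := h1.2 r
  refine ⟨Real.exp M, fun t ht => ?_⟩
  rw [abs_of_pos (Real.exp_pos _)]
  exact Real.exp_le_exp.mpr ((le_abs_self _).trans (hM t ht))

theorem LB.of_continuous {φ : ℝ → ℝ} (h : Continuous φ) : LB φ := by
  refine ⟨h.measurable, fun r => ?_⟩
  obtain ⟨M, hM⟩ := (isCompact_Icc (a := -r) (b := r)).exists_bound_of_continuousOn h.continuousOn
  exact ⟨M, fun t ht => hM t (abs_le.mp ht)⟩

theorem LB.of_monotone {φ : ℝ → ℝ} (h : Monotone φ) : LB φ := by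
  refine ⟨h.measurable, fun r => ⟨max |φ (-r)| |φ r|, fun t ht => ?_⟩⟩
  rw [abs_le] at ht
  exact abs_le_max_abs_abs (h ht.1) (h ht.2)

theorem LI.mul {F φ : ℝ → ℝ} (hF : LI F) (hφ : LB φ) : LI fun t => F t * φ t := by
  intro a b
  obtain ⟨M, hM⟩ := hφ.2 (max |a| |b|)
  have h := hF a b
  rw [intervalIntegrable_iff] at h ⊢
  refine Integrable.mul_bdd (c := M) h hφ.1.aestronglyMeasurable ?_
  rw [ae_restrict_iff' measurableSet_uIoc]
  refine Eventually.of_forall fun t ht => ?_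
  rw [Real.norm_eq_abs]
  apply hM
  have := uIoc_subset_uIcc ht
  rw [mem_uIcc] at this
  rcases this with h | h
  · exact abs_le_max_abs_abs h.1 h.2
  · rw [max_comm]; exact abs_le_max_abs_abs h.1 h.2

theorem LI.add {F G : ℝ → ℝ} (hF : LI F) (hG : LI G) : LI fun t => F t + G t :=
  fun a b => (hF a b).add (hG a b)

theorem LI.sub {F G : ℝ → ℝ} (hF : LI F) (hG : LI G) : LI fun t => F t - G t :=
  fun a b => (hF a b).sub (hG a b)

theorem LI.const_mul {F : ℝ → ℝ} (hF : LI F) (k : ℝ) : LI fun t => k * F t :=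
  fun a b => (hF a b).const_mul k

theorem LI.neg {F : ℝ → ℝ} (hF : LI F) : LI fun t => -F t :=
  fun a b => (hF a b).neg

theorem LI.cont {F : ℝ → ℝ} (hF : LI F) (k a : ℝ) : Continuous fun t => k + ∫ r in a..t, F r :=
  continuous_const.add (intervalIntegral.continuous_primitive hF a)

/-- Product rule for primitives. -/
theorem product_rule {F G : ℝ → ℝ} (hF : LI F) (hG : LI G) (u₀ v₀ a b : ℝ) :
    ∫ t in a..b, (F t * (v₀ + ∫ r in (0 : ℝ)..t, G r) + (u₀ + ∫ r in (0 : ℝ)..t, F r) * G t)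
      = (u₀ + ∫ r in (0 : ℝ)..b, F r) * (v₀ + ∫ r in (0 : ℝ)..b, G r)
        - (u₀ + ∫ r in (0 : ℝ)..a, F r) * (v₀ + ∫ r in (0 : ℝ)..a, G r) := by
  have key : ∀ {H : ℝ → ℝ}, LI H → ∀ k : ℝ,
      AbsolutelyContinuousOnInterval (fun t => k + ∫ r in (0 : ℝ)..t, H r) a b ∧
      ∀ᵐ t, HasDerivAt (fun t => k + ∫ r in (0 : ℝ)..t, H r) (H t) t := by
    intro H hH k
    constructor
    · have e : (fun t => k + ∫ r in (0 : ℝ)..t, H r) =
          fun t => (k + ∫ r in (0 : ℝ)..a, H r) + ∫ r in a..t, H r := by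
        funext t
        rw [add_assoc, intervalIntegral.integral_add_adjacent_intervals (hH 0 a) (hH a t)]
      rw [e]
      have hconst : AbsolutelyContinuousOnInterval
          (fun _ : ℝ => k + ∫ r in (0 : ℝ)..a, H r) a b :=
        (LipschitzWith.const (α := ℝ) (β := ℝ) (k + ∫ r in (0 : ℝ)..a, H r)).lipschitzOnWith
          |>.absolutelyContinuousOnInterval
      exact hconst.add
        ((hH a b).absolutelyContinuousOnInterval_intervalIntegral left_mem_uIcc)
    · have hl : LocallyIntegrable H volume := by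
        rw [locallyIntegrable_iff]
        intro K hK
        obtain ⟨r, hr⟩ := hK.isBounded.subset_closedBall 0
        rw [Real.closedBall_eq_Icc] at hr
        have h1 := (intervalIntegrable_iff_integrableOn_Icc_of_le (f := H) (μ := volume)
          (a := min (0 - r) (0 + r)) (b := max (0 - r) (0 + r)) (min_le_max)).mp (hH _ _)
        exact h1.mono_set (hr.trans (Icc_subset_Icc (min_le_left _ _) (le_max_right _ _)))
      filter_upwards [LocallyIntegrable.ae_hasDerivAt_integral hl] with t ht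
      exact (ht 0).const_add k
  obtain ⟨a1, d1⟩ := key hF u₀
  obtain ⟨a2, d2⟩ := key hG v₀
  rw [← AbsolutelyContinuousOnInterval.integral_deriv_mul_eq_sub a1 a2]
  apply intervalIntegral.integral_congr_ae
  filter_upwards [d1, d2] with t h1 h2 _
  rw [h1.deriv, h2.deriv]

/-- `∫₀ᵗ G + κ ∫₀ᵀ G`. -/
noncomputable def bf (T κ : ℝ) (G : ℝ → ℝ) (t : ℝ) : ℝ :=
  κ * (∫ r in (0 : ℝ)..T, G r) + ∫ r in (0 : ℝ)..t, G r

/-- `(1+κ) ∫₀ᵀ F - ∫₀ᵗ F`. -/
noncomputable def qf (T κ : ℝ) (F : ℝ → ℝ) (t : ℝ) : ℝ :=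
  (1 + κ) * (∫ r in (0 : ℝ)..T, F r) + ∫ r in (0 : ℝ)..t, -F r

/-- The bilinear form. -/
noncomputable def phi (T κ : ℝ) (F G : ℝ → ℝ) : ℝ := ∫ t in (0 : ℝ)..T, F t * bf T κ G t

theorem LI.bf_cont {G : ℝ → ℝ} (hG : LI G) (T κ : ℝ) : Continuous (bf T κ G) := hG.cont _ _

theorem LI.qf_cont {F : ℝ → ℝ} (hF : LI F) (T κ : ℝ) : Continuous (qf T κ F) := hF.neg.cont _ _

theorem phi_swap {F G : ℝ → ℝ} (hF : LI F) (hG : LI G) (T κ : ℝ) :
    phi T κ F G = ∫ t in (0 : ℝ)..T, G t * qf T κ F t := by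
  have h := product_rule hG hF.neg (κ * (∫ r in (0 : ℝ)..T, G r))
    ((1 + κ) * (∫ r in (0 : ℝ)..T, F r)) 0 T
  have i1 : IntervalIntegrable (fun t => G t * qf T κ F t) volume 0 T :=
    hG.mul (LB.of_continuous (hF.qf_cont T κ)) 0 T
  have i2 : IntervalIntegrable (fun t => F t * bf T κ G t) volume 0 T :=
    hF.mul (LB.of_continuous (hG.bf_cont T κ)) 0 T
  have h2 : ∫ t in (0 : ℝ)..T, (G t * qf T κ F t - F t * bf T κ G t) =
      ∫ t in (0 : ℝ)..T, (G t * ((1 + κ) * (∫ r in (0 : ℝ)..T, F r) + ∫ r in (0 : ℝ)..t, -F r) +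
        (κ * (∫ r in (0 : ℝ)..T, G r) + ∫ r in (0 : ℝ)..t, G r) * -F t) := by
    apply intervalIntegral.integral_congr
    intro t _
    simp only [qf, bf]
    ring
  rw [h, intervalIntegral.integral_sub i1 i2] at h2
  simp only [intervalIntegral.integral_neg, intervalIntegral.integral_same] at h2
  unfold phi
  have h3 : (κ * (∫ r in (0 : ℝ)..T, G r) + ∫ r in (0 : ℝ)..T, G r) *
      ((1 + κ) * (∫ r in (0 : ℝ)..T, F r) + -∫ r in (0 : ℝ)..T, F r) -
      (κ * (∫ r in (0 : ℝ)..T, G r) + 0) * ((1 + κ) * (∫ r in (0 : ℝ)..T, F r) + -0) = 0 := by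
    ring
  linarith

theorem bf_add {G H : ℝ → ℝ} (hG : LI G) (hH : LI H) (T κ t : ℝ) :
    bf T κ (fun r => G r + H r) t = bf T κ G t + bf T κ H t := by
  simp only [bf]
  rw [intervalIntegral.integral_add (hG 0 T) (hH 0 T),
    intervalIntegral.integral_add (hG 0 t) (hH 0 t)]
  ring

theorem bf_mul (k : ℝ) (G : ℝ → ℝ) (T κ t : ℝ) :
    bf T κ (fun r => k * G r) t = k * bf T κ G t := by
  simp only [bf]
  rw [intervalIntegral.integral_const_mul, intervalIntegral.integral_const_mul]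
  ring

theorem phi_int {F G : ℝ → ℝ} (hF : LI F) (hG : LI G) (T κ : ℝ) :
    IntervalIntegrable (fun t => F t * bf T κ G t) volume 0 T :=
  hF.mul (LB.of_continuous (hG.bf_cont T κ)) 0 T

theorem phi_add_left {F F' G : ℝ → ℝ} (hF : LI F) (hF' : LI F') (hG : LI G) (T κ : ℝ) :
    phi T κ (fun r => F r + F' r) G = phi T κ F G + phi T κ F' G := by
  simp only [phi]
  rw [← intervalIntegral.integral_add (phi_int hF hG T κ) (phi_int hF' hG T κ)]
  apply intervalIntegral.integral_congr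
  intro t _
  ring

theorem phi_add_right {F G G' : ℝ → ℝ} (hF : LI F) (hG : LI G) (hG' : LI G') (T κ : ℝ) :
    phi T κ F (fun r => G r + G' r) = phi T κ F G + phi T κ F G' := by
  simp only [phi]
  rw [← intervalIntegral.integral_add (phi_int hF hG T κ) (phi_int hF hG' T κ)]
  apply intervalIntegral.integral_congr
  intro t _
  simp only [bf_add hG hG']
  ring

theorem phi_mul_left (k : ℝ) (F G : ℝ → ℝ) (T κ : ℝ) :
    phi T κ (fun r => k * F r) G = k * phi T κ F G := by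
  simp only [phi]
  rw [← intervalIntegral.integral_const_mul]
  apply intervalIntegral.integral_congr
  intro t _
  ring

theorem phi_mul_right (k : ℝ) (F G : ℝ → ℝ) (T κ : ℝ) :
    phi T κ F (fun r => k * G r) = k * phi T κ F G := by
  simp only [phi]
  rw [← intervalIntegral.integral_const_mul]
  apply intervalIntegral.integral_congr
  intro t _
  simp only [bf_mul]
  ring

theorem bf_mono {G H : ℝ → ℝ} (hG : LI G) (hH : LI H) (h : ∀ t, G t ≤ H t) {T κ t : ℝ}
    (hT : 0 ≤ T) (hκ : 0 ≤ κ) (ht : 0 ≤ t) : bf T κ G t ≤ bf T κ H t := by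
  have h1 := intervalIntegral.integral_mono_on hT (hG 0 T) (hH 0 T) (fun x _ => h x)
  have h2 := intervalIntegral.integral_mono_on ht (hG 0 t) (hH 0 t) (fun x _ => h x)
  simp only [bf]
  have := mul_le_mul_of_nonneg_left h1 hκ
  linarith

theorem bf_nonneg {G : ℝ → ℝ} (h : ∀ t, 0 ≤ G t) {T κ t : ℝ}
    (hT : 0 ≤ T) (hκ : 0 ≤ κ) (ht : 0 ≤ t) : 0 ≤ bf T κ G t := by
  have h1 := intervalIntegral.integral_nonneg hT (fun x _ => h x) (μ := volume)
  have h2 := intervalIntegral.integral_nonneg ht (fun x _ => h x) (μ := volume)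
  simp only [bf]
  have := mul_nonneg hκ h1
  linarith

theorem phi_mono {F F' G G' : ℝ → ℝ} (hF : LI F) (hF' : LI F') (hG : LI G) (hG' : LI G')
    (h0 : ∀ t, 0 ≤ F t) (h1 : ∀ t, F t ≤ F' t) (h2 : ∀ t, 0 ≤ G t) (h3 : ∀ t, G t ≤ G' t)
    {T κ : ℝ} (hT : 0 ≤ T) (hκ : 0 ≤ κ) : phi T κ F G ≤ phi T κ F' G' := by
  simp only [phi]
  apply intervalIntegral.integral_mono_on hT (phi_int hF hG T κ) (phi_int hF' hG' T κ)
  intro t ht
  exact mul_le_mul (h1 t) (bf_mono hG hG' h3 hT hκ ht.1) (bf_nonneg h2 hT hκ ht.1)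
    ((h0 t).trans (h1 t))

/-- Generalised efforts of mass `A` (no normalisation at jumps, no value prescribed at `0`). -/
structure GE (T A : ℝ) (α : ℝ → ℝ) : Prop where
  mono : Monotone α
  quasi : ∀ t, α (t + T) = α t + A

/-- `c e^{α+δt}` -/
noncomputable def ct (δ : ℝ) (c α : ℝ → ℝ) (t : ℝ) : ℝ := c t * Real.exp (α t + δ * t)

/-- `w e^{-α-δt}` -/
noncomputable def wt (δ : ℝ) (w α : ℝ → ℝ) (t : ℝ) : ℝ := w t * Real.exp (-(α t + δ * t))

/-- `T · cost`. -/
noncomputable def pen (T δ κ : ℝ) (c w α : ℝ → ℝ) : ℝ := phi T κ (wt δ w α) (ct δ c α)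

theorem lb_lin (δ : ℝ) : LB fun t => δ * t := LB.of_continuous (by fun_prop)

theorem GE.lb {T A : ℝ} {α : ℝ → ℝ} (h : GE T A α) : LB α := LB.of_monotone h.mono

theorem LI.ct {δ : ℝ} {c α : ℝ → ℝ} (hc : LI c) (hα : LB α) : LI (ct δ c α) :=
  hc.mul (hα.add (lb_lin δ)).exp

theorem LI.wt {δ : ℝ} {w α : ℝ → ℝ} (hw : LI w) (hα : LB α) : LI (wt δ w α) :=
  hw.mul (hα.add (lb_lin δ)).neg.exp

/-- Differences of generalised efforts of the same mass are bounded. -/
theorem GE.bdd_sub {T A : ℝ} (hT : 0 < T) {α β : ℝ → ℝ} (hα : GE T A α) (hβ : GE T A β) :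
    ∃ M, 0 ≤ M ∧ ∀ t, |β t - α t| ≤ M := by
  obtain ⟨M, hM⟩ := (hβ.lb.sub hα.lb).2 T
  refine ⟨M, (abs_nonneg _).trans (hM 0 (by simpa using hT.le)), fun t => ?_⟩
  have hper : Function.Periodic (fun t => β t - α t) T := by
    intro t
    simp only [hα.quasi, hβ.quasi]
    ring
  obtain ⟨y, hy, hty⟩ := hper.exists_mem_Ico₀ hT t
  have := hM y (by rw [abs_of_nonneg hy.1]; exact hy.2.le)
  rw [hty]
  exact this

theorem GE.convex {T A : ℝ} {α β : ℝ → ℝ} (hα : GE T A α) (hβ : GE T A β) {ε : ℝ}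
    (h0 : 0 ≤ ε) (h1 : ε ≤ 1) : GE T A (fun t => α t + ε * (β t - α t)) where
  mono := by
    intro s t hst
    have e : ∀ t, α t + ε * (β t - α t) = (1 - ε) * α t + ε * β t := by intro t; ring
    simp only [e]
    have h2 := mul_le_mul_of_nonneg_left (hα.mono hst) (sub_nonneg.mpr h1)
    have h3 := mul_le_mul_of_nonneg_left (hβ.mono hst) h0
    linarith
  quasi := by
    intro t
    simp only [hα.quasi, hβ.quasi]
    ring

theorem exp_le_quad {x : ℝ} (hx : |x| ≤ 1) : Real.exp x ≤ 1 + x + x ^ 2 := by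
  have := Real.abs_exp_sub_one_sub_id_le hx
  have := (abs_le.mp this).2
  linarith

/-- **First-order condition.** -/
theorem first_order {T δ κ A : ℝ} (hT : 0 < T) (hκ : 0 ≤ κ) {c w α β : ℝ → ℝ}
    (hc : LI c) (hw : LI w) (hc0 : ∀ t, 0 ≤ c t) (hw0 : ∀ t, 0 ≤ w t)
    (hα : GE T A α) (hβ : GE T A β)
    (hmin : ∀ γ, GE T A γ → pen T δ κ c w α ≤ pen T δ κ c w γ) :
    0 ≤ ∫ t in (0 : ℝ)..T, (β t - α t) *
      (ct δ c α t * qf T κ (wt δ w α) t - wt δ w α t * bf T κ (ct δ c α) t) := by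
  obtain ⟨M, hM0, hM⟩ := hα.bdd_sub hT hβ
  set h : ℝ → ℝ := fun t => β t - α t with hh
  have hhb : LB h := hβ.lb.sub hα.lb
  set F : ℝ → ℝ := wt δ w α with hF
  set G : ℝ → ℝ := ct δ c α with hG
  have liF : LI F := hw.wt hα.lb
  have liG : LI G := hc.ct hα.lb
  have liFh : LI (fun t => F t * h t) := liF.mul hhb
  have liGh : LI (fun t => G t * h t) := liG.mul hhb
  have F0 : ∀ t, 0 ≤ F t := fun t => mul_nonneg (hw0 t) (Real.exp_pos _).le
  have G0 : ∀ t, 0 ≤ G t := fun t => mul_nonneg (hc0 t) (Real.exp_pos _).le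
  set a := phi T κ F G with ha
  set L := phi T κ F (fun t => G t * h t) - phi T κ (fun t => F t * h t) G with hL
  set b := phi T κ (fun t => F t * h t) (fun t => G t * h t) with hb
  have step : ∀ ε : ℝ, 0 < ε → ε ≤ 1 → ε * M ≤ 1 →
      a ≤ (1 + ε ^ 2 * M ^ 2) ^ 2 * a + (1 + ε ^ 2 * M ^ 2) * ε * L - ε ^ 2 * b := by
    intro ε he he1 heM
    have hm := hmin _ (hα.convex hβ he.le he1)
    have eF : wt δ w (fun t => α t + ε * (β t - α t)) = fun t => F t * Real.exp (-(ε * h t)) := by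
      funext t
      simp only [wt, hF, hh]
      rw [mul_assoc, ← Real.exp_add]
      congr 2
      ring
    have eG : ct δ c (fun t => α t + ε * (β t - α t)) = fun t => G t * Real.exp (ε * h t) := by
      funext t
      simp only [ct, hG, hh]
      rw [mul_assoc, ← Real.exp_add]
      congr 2
      ring
    have hpen : pen T δ κ c w (fun t => α t + ε * (β t - α t)) =
        phi T κ (fun t => F t * Real.exp (-(ε * h t))) (fun t => G t * Real.exp (ε * h t)) := by
      unfold pen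
      rw [eF, eG]
    have hsq : ∀ t, (ε * h t) ^ 2 ≤ ε ^ 2 * M ^ 2 := by
      intro t
      have h1 : |ε * h t| ≤ ε * M := by
        rw [abs_mul, abs_of_pos he]
        exact mul_le_mul_of_nonneg_left (hM t) he.le
      calc (ε * h t) ^ 2 = |ε * h t| ^ 2 := (sq_abs _).symm
        _ ≤ (ε * M) ^ 2 := pow_le_pow_left₀ (abs_nonneg _) h1 2
        _ = _ := by ring
    have hab : ∀ t, |ε * h t| ≤ 1 := by
      intro t
      rw [abs_mul, abs_of_pos he]
      exact (mul_le_mul_of_nonneg_left (hM t) he.le).trans heM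
    have bF : ∀ t, F t * Real.exp (-(ε * h t)) ≤
        (1 + ε ^ 2 * M ^ 2) * F t + (-ε) * (F t * h t) := by
      intro t
      have h1 : Real.exp (-(ε * h t)) ≤ 1 + ε ^ 2 * M ^ 2 - ε * h t := by
        have := exp_le_quad (x := -(ε * h t)) (by rw [abs_neg]; exact hab t)
        have := hsq t
        nlinarith
      have := mul_le_mul_of_nonneg_left h1 (F0 t)
      linarith
    have bG : ∀ t, G t * Real.exp (ε * h t) ≤
        (1 + ε ^ 2 * M ^ 2) * G t + ε * (G t * h t) := by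
      intro t
      have h1 : Real.exp (ε * h t) ≤ 1 + ε ^ 2 * M ^ 2 + ε * h t := by
        have := exp_le_quad (x := ε * h t) (hab t)
        have := hsq t
        nlinarith
      have := mul_le_mul_of_nonneg_left h1 (G0 t)
      linarith
    have hup : phi T κ (fun t => F t * Real.exp (-(ε * h t))) (fun t => G t * Real.exp (ε * h t))
        ≤ phi T κ (fun t => (1 + ε ^ 2 * M ^ 2) * F t + (-ε) * (F t * h t))
          (fun t => (1 + ε ^ 2 * M ^ 2) * G t + ε * (G t * h t)) := by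
      have l1 : LB (fun t => Real.exp (-(ε * h t))) := (((LB.const ε).mul hhb).neg).exp
      have l2 : LB (fun t => Real.exp (ε * h t)) := ((LB.const ε).mul hhb).exp
      apply phi_mono (liF.mul l1) ((liF.const_mul _).add (liFh.const_mul _)) (liG.mul l2)
        ((liG.const_mul _).add (liGh.const_mul _))
      · exact fun t => mul_nonneg (F0 t) (Real.exp_pos _).le
      · exact bF
      · exact fun t => mul_nonneg (G0 t) (Real.exp_pos _).le
      · exact bG
      · exact hT.le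
      · exact hκ
    have hexp : phi T κ (fun t => (1 + ε ^ 2 * M ^ 2) * F t + (-ε) * (F t * h t))
          (fun t => (1 + ε ^ 2 * M ^ 2) * G t + ε * (G t * h t)) =
        (1 + ε ^ 2 * M ^ 2) ^ 2 * a + (1 + ε ^ 2 * M ^ 2) * ε * L - ε ^ 2 * b := by
      rw [phi_add_left (liF.const_mul _) (liFh.const_mul _)
          ((liG.const_mul _).add (liGh.const_mul _)),
        phi_add_right (liF.const_mul _) (liG.const_mul _) (liGh.const_mul _),
        phi_add_right (liFh.const_mul _) (liG.const_mul _) (liGh.const_mul _)]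
      simp only [phi_mul_left, phi_mul_right]
      rw [hL, hb, ha]
      ring
    rw [hpen] at hm
    calc a ≤ _ := hm
      _ ≤ _ := hup
      _ = _ := hexp
  have hLnn : 0 ≤ L := by
    by_contra hneg
    rw [not_le] at hneg
    set K := (2 * M ^ 2 + M ^ 4) * |a| + |b| with hK
    have hK0 : 0 ≤ K := by positivity
    obtain ⟨ε, he, he1, he2, he3⟩ : ∃ ε : ℝ, 0 < ε ∧ ε ≤ 1 ∧ ε * M ≤ 1 ∧ ε * K < -L := by
      refine ⟨min 1 (min (1 / (M + 1)) (-L / (K + 1) / 2)), ?_, min_le_left _ _, ?_, ?_⟩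
      · refine lt_min one_pos (lt_min (by positivity) ?_)
        have : 0 < -L := by linarith
        positivity
      · have h1 : min 1 (min (1 / (M + 1)) (-L / (K + 1) / 2)) ≤ 1 / (M + 1) :=
          (min_le_right _ _).trans (min_le_left _ _)
        calc min 1 (min (1 / (M + 1)) (-L / (K + 1) / 2)) * M ≤ 1 / (M + 1) * M :=
              mul_le_mul_of_nonneg_right h1 hM0
          _ = M / (M + 1) := by ring
          _ ≤ 1 := by rw [div_le_one (by linarith)]; linarith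
      · have h1 : min 1 (min (1 / (M + 1)) (-L / (K + 1) / 2)) ≤ -L / (K + 1) / 2 :=
          (min_le_right _ _).trans (min_le_right _ _)
        calc min 1 (min (1 / (M + 1)) (-L / (K + 1) / 2)) * K ≤ -L / (K + 1) / 2 * K :=
              mul_le_mul_of_nonneg_right h1 hK0
          _ = -L / 2 * (K / (K + 1)) := by ring
          _ ≤ -L / 2 * 1 := by
              apply mul_le_mul_of_nonneg_left _ (by linarith)
              rw [div_le_one (by linarith)]; linarith
          _ < -L := by linarith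
    have hs := step ε he he1 he2
    have s1 : 0 ≤ ε * ((2 * ε * M ^ 2 + ε ^ 3 * M ^ 4) * a + (1 + ε ^ 2 * M ^ 2) * L - ε * b) := by
      have e : ε * ((2 * ε * M ^ 2 + ε ^ 3 * M ^ 4) * a + (1 + ε ^ 2 * M ^ 2) * L - ε * b) =
        ((1 + ε ^ 2 * M ^ 2) ^ 2 * a + (1 + ε ^ 2 * M ^ 2) * ε * L - ε ^ 2 * b) - a := by ring
      rw [e]; linarith
    have s2 : 0 ≤ (2 * ε * M ^ 2 + ε ^ 3 * M ^ 4) * a + (1 + ε ^ 2 * M ^ 2) * L - ε * b :=
      nonneg_of_mul_nonneg_right s1 he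
    have s3 : (2 * ε * M ^ 2 + ε ^ 3 * M ^ 4) * a ≤ ε * ((2 * M ^ 2 + M ^ 4) * |a|) := by
      have h1 : (2 * ε * M ^ 2 + ε ^ 3 * M ^ 4) ≤ ε * (2 * M ^ 2 + M ^ 4) := by
        have : ε ^ 3 ≤ ε := by
          calc ε ^ 3 = ε * (ε * ε) := by ring
            _ ≤ ε * 1 := by
              apply mul_le_mul_of_nonneg_left _ he.le
              nlinarith
            _ = ε := mul_one _
        have : ε ^ 3 * M ^ 4 ≤ ε * M ^ 4 := mul_le_mul_of_nonneg_right this (by positivity)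
        linarith
      calc (2 * ε * M ^ 2 + ε ^ 3 * M ^ 4) * a ≤ (2 * ε * M ^ 2 + ε ^ 3 * M ^ 4) * |a| :=
            mul_le_mul_of_nonneg_left (le_abs_self a) (by positivity)
        _ ≤ (ε * (2 * M ^ 2 + M ^ 4)) * |a| := mul_le_mul_of_nonneg_right h1 (abs_nonneg _)
        _ = _ := by ring
    have s4 : -(ε * b) ≤ ε * |b| := by
      have := neg_le_abs b
      nlinarith
    have s5 : (1 + ε ^ 2 * M ^ 2) * L ≤ L := by
      have : 0 ≤ ε ^ 2 * M ^ 2 := by positivity
      nlinarith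
    have : ε * K = ε * ((2 * M ^ 2 + M ^ 4) * |a|) + ε * |b| := by rw [hK]; ring
    linarith
  -- rewrite L
  have i1 : IntervalIntegrable (fun t => G t * h t * qf T κ F t) volume 0 T :=
    liGh.mul (LB.of_continuous (liF.qf_cont T κ)) 0 T
  have i2 : IntervalIntegrable (fun t => F t * h t * bf T κ G t) volume 0 T :=
    liFh.mul (LB.of_continuous (liG.bf_cont T κ)) 0 T
  have hfin : (∫ t in (0 : ℝ)..T, h t * (G t * qf T κ F t - F t * bf T κ G t)) = L := by
    rw [hL, phi_swap liF liGh, phi, ← intervalIntegral.integral_sub i1 i2]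
    apply intervalIntegral.integral_congr
    intro t _
    ring
  rw [hfin]
  exact hLnn

end Pool.PeriodicEffort
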