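import Mathlib
import Pool.Agent.Helper20.PeriodicEffortFO
import Pool.Agent.Helper20.PeriodicEffortAbstract

/-!
# Optimality system of a minimiser
-/

open MeasureTheory Set Filter Topology

namespace Pool.PeriodicEffort

/-- The constant `q/(1-q)`, `q = e^{-(A+δT)}`. -/
noncomputable def kap (T δ A : ℝ) : ℝ :=
  Real.exp (-(A + δ * T)) / (1 - Real.exp (-(A + δ * T)))

/-- A generalised optimal effort. -/
structure Opt (T δ A : ℝ) (c w α : ℝ → ℝ) : Prop where
  T_pos : 0 < T
  δ_pos : 0 < δ
  A_pos : 0 < A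
  c0 : ∀ t, 0 ≤ c t
  w0 : ∀ t, 0 ≤ w t
  cper : Function.Periodic c T
  wper : Function.Periodic w T
  cI : LI c
  wI : LI w
  ge : GE T A α
  minimal : ∀ γ, GE T A γ → pen T δ (kap T δ A) c w α ≤ pen T δ (kap T δ A) c w γ
  uniq : ∀ γ γ', GE T A γ → GE T A γ' →
    pen T δ (kap T δ A) c w γ = pen T δ (kap T δ A) c w α →
    pen T δ (kap T δ A) c w γ' = pen T δ (kap T δ A) c w α → ∃ k : ℝ, ∀ᵐ t, γ t = γ' t + k
  cpos : 0 < ∫ t in (0 : ℝ)..T, c t
  wpos : 0 < ∫ t in (0 : ℝ)..T, w t

theorem GE.quasi_int {T A : ℝ} {α : ℝ → ℝ} (h : GE T A α) (n : ℤ) (t : ℝ) :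
    α (t + n * T) = α t + n * A := by
  have hnat : ∀ (n : ℕ) (t : ℝ), α (t + n * T) = α t + n * A := by
    intro n
    induction n with
    | zero => intro t; simp
    | succ n ih =>
      intro t
      have e : t + ((n + 1 : ℕ) : ℝ) * T = (t + n * T) + T := by push_cast; ring
      rw [e, h.quasi, ih]
      push_cast
      ring
  obtain ⟨m, rfl | rfl⟩ := n.eq_nat_or_neg
  · simpa using hnat m t
  · have := hnat m (t + ((-(m : ℤ) : ℤ) : ℝ) * T)
    have e : t + ((-(m : ℤ) : ℤ) : ℝ) * T + m * T = t := by push_cast; ring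
    rw [e] at this
    push_cast at this ⊢
    linarith

theorem kap_pos {T δ A : ℝ} (hT : 0 < T) (hδ : 0 < δ) (hA : 0 < A) : 0 < kap T δ A := by
  unfold kap
  have h : Real.exp (-(A + δ * T)) < 1 := by
    rw [Real.exp_lt_one_iff]
    have := mul_pos hδ hT
    linarith
  exact div_pos (Real.exp_pos _) (by linarith)

theorem kap_one {T δ A : ℝ} (hT : 0 < T) (hδ : 0 < δ) (hA : 0 < A) :
    1 + kap T δ A = Real.exp (A + δ * T) * kap T δ A := by
  unfold kap
  have h : Real.exp (-(A + δ * T)) < 1 := by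
    rw [Real.exp_lt_one_iff]
    have := mul_pos hδ hT
    linarith
  have h1 : (1 - Real.exp (-(A + δ * T))) ≠ 0 := by linarith
  have h2 : Real.exp (A + δ * T) * Real.exp (-(A + δ * T)) = 1 := by
    rw [← Real.exp_add]; simp
  rw [← mul_div_assoc, h2]
  field_simp
  ring

namespace Opt

variable {T δ A : ℝ} {c w α : ℝ → ℝ}

/-- `B` -/
noncomputable abbrev Bf (T δ A : ℝ) (c α : ℝ → ℝ) : ℝ → ℝ := bf T (kap T δ A) (ct δ c α)

/-- `Q` -/
noncomputable abbrev Qf (T δ A : ℝ) (w α : ℝ → ℝ) : ℝ → ℝ := qf T (kap T δ A) (wt δ w α)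

/-- density of `BQ`. -/
noncomputable def uf (T δ A : ℝ) (c w α : ℝ → ℝ) (t : ℝ) : ℝ :=
  ct δ c α t * Qf T δ A w α t - wt δ w α t * Bf T δ A c α t

variable (S : Opt T δ A c w α)

include S

theorem kpos : 0 < kap T δ A := kap_pos S.T_pos S.δ_pos S.A_pos

theorem ctI : LI (ct δ c α) := S.cI.ct S.ge.lb

theorem wtI : LI (wt δ w α) := S.wI.wt S.ge.lb

theorem ct0 (t : ℝ) : 0 ≤ ct δ c α t := mul_nonneg (S.c0 t) (Real.exp_pos _).le

theorem wt0 (t : ℝ) : 0 ≤ wt δ w α t := mul_nonneg (S.w0 t) (Real.exp_pos _).le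

theorem ct_shift (t : ℝ) : ct δ c α (t + T) = Real.exp (A + δ * T) * ct δ c α t := by
  unfold ct
  rw [S.cper, S.ge.quasi, show α t + A + δ * (t + T) = (A + δ * T) + (α t + δ * t) by ring,
    Real.exp_add]
  ring

theorem wt_shift (t : ℝ) : wt δ w α (t + T) = Real.exp (-(A + δ * T)) * wt δ w α t := by
  unfold wt
  rw [S.wper, S.ge.quasi, show -(α t + A + δ * (t + T)) = -(A + δ * T) + -(α t + δ * t) by ring,
    Real.exp_add]
  ring

theorem Bcont : Continuous (Bf T δ A c α) := S.ctI.bf_cont _ _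

theorem Qcont : Continuous (Qf T δ A w α) := S.wtI.qf_cont _ _

theorem B_sub (a b : ℝ) : Bf T δ A c α b - Bf T δ A c α a = ∫ r in a..b, ct δ c α r := by
  unfold Bf bf
  rw [← intervalIntegral.integral_interval_sub_left (S.ctI 0 b) (S.ctI 0 a)]
  ring

theorem Q_sub (a b : ℝ) : Qf T δ A w α a - Qf T δ A w α b = ∫ r in a..b, wt δ w α r := by
  unfold Qf qf
  rw [← intervalIntegral.integral_interval_sub_left (S.wtI 0 b) (S.wtI 0 a)]
  simp only [intervalIntegral.integral_neg]
  ring

theorem Bmono : Monotone (Bf T δ A c α) := by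
  intro a b hab
  have h := S.B_sub a b
  have := intervalIntegral.integral_nonneg hab (fun x _ => S.ct0 x) (μ := volume)
  linarith

theorem Qanti : Antitone (Qf T δ A w α) := by
  intro a b hab
  have h := S.Q_sub a b
  have := intervalIntegral.integral_nonneg hab (fun x _ => S.wt0 x) (μ := volume)
  linarith

theorem B_shift (t : ℝ) : Bf T δ A c α (t + T) = Real.exp (A + δ * T) * Bf T δ A c α t := by
  have h1 := S.B_sub T (t + T)
  have h2 : ∫ r in T..(t + T), ct δ c α r = Real.exp (A + δ * T) * ∫ r in (0 : ℝ)..t, ct δ c α r := by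
    have h3 : ∫ r in (0 : ℝ)..t, ct δ c α (r + T) = ∫ r in T..(t + T), ct δ c α r := by
      rw [intervalIntegral.integral_comp_add_right, zero_add]
    rw [← h3, ← intervalIntegral.integral_const_mul]
    apply intervalIntegral.integral_congr
    intro r _
    exact S.ct_shift r
  have h4 : Bf T δ A c α T = Real.exp (A + δ * T) * (kap T δ A * ∫ r in (0 : ℝ)..T, ct δ c α r) := by
    unfold Bf bf
    have := kap_one S.T_pos S.δ_pos S.A_pos
    calc kap T δ A * (∫ r in (0 : ℝ)..T, ct δ c α r) + ∫ r in (0 : ℝ)..T, ct δ c α r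
        = (1 + kap T δ A) * ∫ r in (0 : ℝ)..T, ct δ c α r := by ring
      _ = _ := by rw [this]; ring
  have h5 : Bf T δ A c α t = kap T δ A * (∫ r in (0 : ℝ)..T, ct δ c α r) +
      ∫ r in (0 : ℝ)..t, ct δ c α r := rfl
  rw [h2, h4] at h1
  rw [h5]
  linarith

theorem Q_shift (t : ℝ) : Qf T δ A w α (t + T) = Real.exp (-(A + δ * T)) * Qf T δ A w α t := by
  have h1 := S.Q_sub T (t + T)
  have h2 : ∫ r in T..(t + T), wt δ w α r =
      Real.exp (-(A + δ * T)) * ∫ r in (0 : ℝ)..t, wt δ w α r := by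
    have h3 : ∫ r in (0 : ℝ)..t, wt δ w α (r + T) = ∫ r in T..(t + T), wt δ w α r := by
      rw [intervalIntegral.integral_comp_add_right, zero_add]
    rw [← h3, ← intervalIntegral.integral_const_mul]
    apply intervalIntegral.integral_congr
    intro r _
    exact S.wt_shift r
  have h4 : Qf T δ A w α T =
      Real.exp (-(A + δ * T)) * ((1 + kap T δ A) * ∫ r in (0 : ℝ)..T, wt δ w α r) := by
    unfold Qf qf
    have := kap_one S.T_pos S.δ_pos S.A_pos
    have h6 : Real.exp (-(A + δ * T)) * Real.exp (A + δ * T) = 1 := by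
      rw [← Real.exp_add]; simp
    rw [intervalIntegral.integral_neg]
    calc (1 + kap T δ A) * (∫ r in (0 : ℝ)..T, wt δ w α r) + -∫ r in (0 : ℝ)..T, wt δ w α r
        = kap T δ A * ∫ r in (0 : ℝ)..T, wt δ w α r := by ring
      _ = (Real.exp (-(A + δ * T)) * Real.exp (A + δ * T)) * kap T δ A *
            ∫ r in (0 : ℝ)..T, wt δ w α r := by rw [h6]; ring
      _ = _ := by rw [this]; ring
  have h5 : Qf T δ A w α t = (1 + kap T δ A) * (∫ r in (0 : ℝ)..T, wt δ w α r) +
      ∫ r in (0 : ℝ)..t, -wt δ w α r := rfl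
  rw [intervalIntegral.integral_neg] at h5
  rw [h2, h4] at h1
  rw [h5]
  linarith

theorem ct_pos : 0 < ∫ r in (0 : ℝ)..T, ct δ c α r := by
  have h1 : Real.exp (α 0) * ∫ t in (0 : ℝ)..T, c t ≤ ∫ r in (0 : ℝ)..T, ct δ c α r := by
    rw [← intervalIntegral.integral_const_mul]
    apply intervalIntegral.integral_mono_on S.T_pos.le ((S.cI 0 T).const_mul _) (S.ctI 0 T)
    intro x hx
    unfold ct
    rw [mul_comm]
    apply mul_le_mul_of_nonneg_left _ (S.c0 x)
    apply Real.exp_le_exp.mpr
    have := S.ge.mono hx.1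
    have := mul_nonneg S.δ_pos.le hx.1
    linarith
  exact (mul_pos (Real.exp_pos _) S.cpos).trans_le h1

theorem wt_pos : 0 < ∫ r in (0 : ℝ)..T, wt δ w α r := by
  have h1 : Real.exp (-(α T + δ * T)) * ∫ t in (0 : ℝ)..T, w t ≤
      ∫ r in (0 : ℝ)..T, wt δ w α r := by
    rw [← intervalIntegral.integral_const_mul]
    apply intervalIntegral.integral_mono_on S.T_pos.le ((S.wI 0 T).const_mul _) (S.wtI 0 T)
    intro x hx
    unfold wt
    rw [mul_comm]
    apply mul_le_mul_of_nonneg_left _ (S.w0 x)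
    apply Real.exp_le_exp.mpr
    have := S.ge.mono hx.2
    have := mul_le_mul_of_nonneg_left hx.2 S.δ_pos.le
    linarith
  exact (mul_pos (Real.exp_pos _) S.wpos).trans_le h1

omit S in
theorem shift_nat {f : ℝ → ℝ} {T E : ℝ} (h : ∀ t, f (t + T) = E * f t) (n : ℕ) (t : ℝ) :
    f (t + n * T) = E ^ n * f t := by
  induction n with
  | zero => simp
  | succ n ih =>
    have e : t + ((n + 1 : ℕ) : ℝ) * T = (t + n * T) + T := by push_cast; ring
    rw [e, h, ih, pow_succ]
    ring

theorem Bpos (t : ℝ) : 0 < Bf T δ A c α t := by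
  obtain ⟨n, hn⟩ := exists_nat_ge (-t / T)
  have h1 : 0 ≤ t + n * T := by
    rw [div_le_iff₀ S.T_pos] at hn
    linarith
  have h0 : 0 < Bf T δ A c α 0 := by
    unfold Bf bf
    simpa using mul_pos S.kpos S.ct_pos
  have h2 := S.Bmono h1
  rw [shift_nat S.B_shift] at h2
  have h3 : 0 < Real.exp (A + δ * T) ^ n * Bf T δ A c α t := h0.trans_le h2
  exact pos_of_mul_pos_right h3 (pow_pos (Real.exp_pos _) n).le

theorem Qpos (t : ℝ) : 0 < Qf T δ A w α t := by
  obtain ⟨n, hn⟩ := exists_nat_ge (t / T)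
  have h1 : t - n * T ≤ 0 := by
    rw [div_le_iff₀ S.T_pos] at hn
    linarith
  have h0 : 0 < Qf T δ A w α 0 := by
    unfold Qf qf
    have := S.kpos
    simpa using mul_pos (by linarith : 0 < 1 + kap T δ A) S.wt_pos
  have h2 := h0.trans_le (S.Qanti h1)
  have h3 := shift_nat S.Q_shift n (t - n * T)
  rw [sub_add_cancel] at h3
  rw [h3]
  exact mul_pos (pow_pos (Real.exp_pos _) n) h2

/-- `g = BQ` -/
noncomputable abbrev gf (T δ A : ℝ) (c w α : ℝ → ℝ) (t : ℝ) : ℝ :=
  Bf T δ A c α t * Qf T δ A w α t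

theorem gcont : Continuous (gf T δ A c w α) := S.Bcont.mul S.Qcont

theorem gper : Function.Periodic (gf T δ A c w α) T := by
  intro t
  show Bf T δ A c α (t + T) * Qf T δ A w α (t + T) = _
  rw [S.B_shift, S.Q_shift]
  have h6 : Real.exp (-(A + δ * T)) * Real.exp (A + δ * T) = 1 := by
    rw [← Real.exp_add]; simp
  calc Real.exp (A + δ * T) * Bf T δ A c α t * (Real.exp (-(A + δ * T)) * Qf T δ A w α t)
      = (Real.exp (-(A + δ * T)) * Real.exp (A + δ * T)) * (Bf T δ A c α t * Qf T δ A w α t) := by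
        ring
    _ = _ := by rw [h6, one_mul]

theorem uI : LI (uf T δ A c w α) :=
  (S.ctI.mul (LB.of_continuous S.Qcont)).sub (S.wtI.mul (LB.of_continuous S.Bcont))

theorem g_sub (a b : ℝ) :
    ∫ t in a..b, uf T δ A c w α t = gf T δ A c w α b - gf T δ A c w α a := by
  have h := product_rule S.ctI S.wtI.neg (kap T δ A * (∫ r in (0 : ℝ)..T, ct δ c α r))
    ((1 + kap T δ A) * (∫ r in (0 : ℝ)..T, wt δ w α r)) a b
  have e : ∫ t in a..b, uf T δ A c w α t = ∫ t in a..b, (ct δ c α t *
      ((1 + kap T δ A) * (∫ r in (0 : ℝ)..T, wt δ w α r) + ∫ r in (0 : ℝ)..t, -wt δ w α r) +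
      (kap T δ A * (∫ r in (0 : ℝ)..T, ct δ c α r) + ∫ r in (0 : ℝ)..t, ct δ c α r) *
        -wt δ w α t) := by
    apply intervalIntegral.integral_congr
    intro t _
    simp only [uf, Qf, Bf, qf, bf]
    ring
  rw [e, h]
  rfl

theorem uper : Function.Periodic (uf T δ A c w α) T := by
  intro t
  unfold uf
  rw [S.B_shift, S.Q_shift, S.ct_shift, S.wt_shift]
  have h6 : Real.exp (-(A + δ * T)) * Real.exp (A + δ * T) = 1 := by
    rw [← Real.exp_add]; simp
  calc _ = (Real.exp (-(A + δ * T)) * Real.exp (A + δ * T)) *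
        (ct δ c α t * Qf T δ A w α t - wt δ w α t * Bf T δ A c α t) := by ring
    _ = _ := by rw [h6, one_mul]

theorem fo {β : ℝ → ℝ} (hβ : GE T A β) (a : ℝ) :
    0 ≤ ∫ t in a..(a + T), (β t - α t) * uf T δ A c w α t := by
  have h := first_order S.T_pos S.kpos.le S.cI S.wI S.c0 S.w0 S.ge hβ S.minimal
  have hper : Function.Periodic (fun t => (β t - α t) * uf T δ A c w α t) T := by
    intro t
    simp only [S.uper t, hβ.quasi, S.ge.quasi]
    ring
  rw [hper.intervalIntegral_add_eq a 0, zero_add]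
  exact h

omit S in
/-- The competitor: mass of `[t', s']` moved to `x₁`. -/
theorem competitor (hT : 0 < T) (hα : GE T A α) {x₁ t' s' : ℝ}
    (h1 : x₁ ≤ t') (h2 : t' ≤ s') (h3 : s' ≤ x₁ + T) :
    GE T A (fun t => α t + (α s' - max (α t') (min (α t - ⌊(t - x₁) / T⌋ * A) (α s')))) where
  quasi := by
    intro t
    have e : ⌊(t + T - x₁) / T⌋ = ⌊(t - x₁) / T⌋ + 1 := by
      rw [← Int.floor_add_one]
      congr 1
      field_simp
      ring
    simp only [hα.quasi, e]
    push_cast
    have : α t + A - ((⌊(t - x₁) / T⌋ : ℝ) + 1) * A = α t - (⌊(t - x₁) / T⌋ : ℝ) * A := by ring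
    rw [this]
    ring
  mono := by
    intro t u htu
    simp only
    set p := α t' with hp
    set q := α s' with hq
    set m := ⌊(t - x₁) / T⌋ with hm
    set n := ⌊(u - x₁) / T⌋ with hn
    have hpq : p ≤ q := hα.mono h2
    have hmn : m ≤ n := Int.floor_le_floor (by gcongr)
    -- y, z
    have hy1 : α t - m * A ≤ α x₁ + A := by
      have h5 : t ≤ (x₁ + T) + m * T := by
        have := Int.lt_floor_add_one ((t - x₁) / T)
        rw [div_lt_iff₀ hT, ← hm] at this
        linarith
      have h6 := hα.mono h5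
      rw [hα.quasi_int, hα.quasi] at h6
      linarith
    have hz1 : α x₁ ≤ α u - n * A := by
      have h5 : x₁ + n * T ≤ u := by
        have := Int.floor_le ((u - x₁) / T)
        rw [le_div_iff₀ hT, ← hn] at this
        linarith
      have h6 := hα.mono h5
      rw [hα.quasi_int] at h6
      linarith
    have hx1p : α x₁ ≤ p := hα.mono h1
    have hqx1 : q ≤ α x₁ + A := by
      have := hα.mono h3
      rwa [hα.quasi] at this
    have htu' := hα.mono htu
    rcases hmn.eq_or_lt with heq | hlt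
    · rw [heq]
      have : max p (min (α u - n * A) q) ≤ max p (min (α t - n * A) q) + (α u - α t) := by
        apply max_le
        · have := le_max_left p (min (α t - n * A) q)
          linarith
        · have h7 := le_max_right p (min (α t - n * A) q)
          rcases le_total (α t - n * A) q with h8 | h8
          · rw [min_eq_left h8] at h7 ⊢
            have := min_le_left (α u - n * A) q
            linarith
          · rw [min_eq_right h8] at h7 ⊢
            have := min_le_right (α u - n * A) q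
            linarith
      linarith
    · have hlt' : (m : ℝ) + 1 ≤ n := by exact_mod_cast hlt
      have b1 : α t + (q - max p (min (α t - m * A) q)) ≤ (m + 1) * A + α x₁ := by
        have h7 := le_max_right p (min (α t - m * A) q)
        rcases le_total (α t - m * A) q with h8 | h8
        · rw [min_eq_left h8] at h7 ⊢
          linarith
        · rw [min_eq_right h8] at h7 ⊢
          linarith
      have b2 : n * A + α x₁ ≤ α u + (q - max p (min (α u - n * A) q)) := by
        have h7 : max p (min (α u - n * A) q) ≤ q := max_le hpq (min_le_right _ _)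
        linarith
      have hA : 0 ≤ A := by
        have := hα.mono (show (0 : ℝ) ≤ 0 + T by linarith)
        rw [hα.quasi] at this
        linarith
      have b3 : (m + 1) * A + α x₁ ≤ n * A + α x₁ := by
        have := mul_le_mul_of_nonneg_right hlt' hA
        linarith
      linarith

/-- Local KKT. -/
theorem kkt_local {lam x₀ : ℝ} (hle : ∀ t, gf T δ A c w α t ≤ lam)
    (hx₀ : gf T δ A c w α x₀ = lam) {z : ℝ} (hz : gf T δ A c w α z < lam) :
    ∃ η > 0, α (z + η) ≤ α (z - η) := by
  set n := ⌊(z - x₀) / T⌋ with hn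
  set x₁ := x₀ + n * T with hx₁
  have hT := S.T_pos
  have hgx₁ : gf T δ A c w α x₁ = lam := by
    rw [hx₁, S.gper.int_mul n]; exact hx₀
  have hz1 : x₁ ≤ z := by
    have := Int.floor_le ((z - x₀) / T)
    rw [le_div_iff₀ hT, ← hn] at this
    rw [hx₁]; linarith
  have hz1' : x₁ < z := lt_of_le_of_ne hz1 (by intro h; rw [← h, hgx₁] at hz; exact lt_irrefl _ hz)
  have hz2 : z < x₁ + T := by
    have := Int.lt_floor_add_one ((z - x₀) / T)
    rw [div_lt_iff₀ hT, ← hn] at this
    rw [hx₁]; linarith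
  have habsI : LI (fun t => |uf T δ A c w α t|) := fun a b => (S.uI a b).abs
  have hcont : Continuous (fun η : ℝ => lam - gf T δ A c w α (z - η) -
      ((∫ r in z..(z + η), |uf T δ A c w α r|) - ∫ r in z..(z - η), |uf T δ A c w α r|)) := by
    have h1 : Continuous fun x : ℝ => ∫ r in z..x, |uf T δ A c w α r| :=
      intervalIntegral.continuous_primitive habsI z
    exact (continuous_const.sub (S.gcont.comp (by fun_prop))).sub
      ((h1.comp (by fun_prop)).sub (h1.comp (by fun_prop)))
  have h0 : 0 < (fun η : ℝ => lam - gf T δ A c w α (z - η) -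
      ((∫ r in z..(z + η), |uf T δ A c w α r|) - ∫ r in z..(z - η), |uf T δ A c w α r|)) 0 := by
    simp only [sub_zero, add_zero, intervalIntegral.integral_same]
    linarith
  have ev := (hcont.tendsto 0).eventually_const_lt h0
  have ev' : ∀ᶠ η in 𝓝[>] (0 : ℝ), 0 < lam - gf T δ A c w α (z - η) -
      ((∫ r in z..(z + η), |uf T δ A c w α r|) - ∫ r in z..(z - η), |uf T δ A c w α r|) :=
    ev.filter_mono nhdsWithin_le_nhds
  have ev2 : ∀ᶠ η in 𝓝[>] (0 : ℝ), η ∈ Ioo 0 (min (z - x₁) (x₁ + T - z)) :=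
    Ioo_mem_nhdsGT (lt_min (by linarith) (by linarith))
  obtain ⟨η, hη1, hη2⟩ := (ev'.and ev2).exists
  refine ⟨η, hη2.1, ?_⟩
  by_contra hcon
  rw [not_le] at hcon
  set t' := z - η with ht'
  set s' := z + η with hs'
  have hη3 : η < z - x₁ := hη2.2.trans_le (min_le_left _ _)
  have hη4 : η < x₁ + T - z := hη2.2.trans_le (min_le_right _ _)
  have a1 : x₁ < t' := by rw [ht']; linarith
  have a2 : t' < s' := by rw [ht', hs']; linarith [hη2.1]
  have a3 : s' < x₁ + T := by rw [hs']; linarith
  have hcomp := competitor hT S.ge a1.le a2.le a3.le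
  have hfo := S.fo hcomp x₁
  set h : ℝ → ℝ := fun t => (α s' - max (α t') (min (α t - ⌊(t - x₁) / T⌋ * A) (α s'))) with hh
  set m := α s' - α t' with hm
  have hmpos : 0 < m := by rw [hm]; linarith
  have hfo' : 0 ≤ ∫ t in x₁..(x₁ + T), h t * uf T δ A c w α t := by
    refine hfo.trans (le_of_eq ?_)
    apply intervalIntegral.integral_congr
    intro t _
    simp only [hh]
    ring
  have hfl : ∀ t ∈ Ico x₁ (x₁ + T), (⌊(t - x₁) / T⌋ : ℝ) = 0 := by
    intro t ht
    have : ⌊(t - x₁) / T⌋ = 0 := by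
      rw [Int.floor_eq_zero_iff]
      constructor
      · exact div_nonneg (by linarith [ht.1]) hT.le
      · rw [div_lt_one hT]; linarith [ht.2]
    rw [this]; simp
  have hval : ∀ t ∈ Ico x₁ (x₁ + T), h t = α s' - max (α t') (min (α t) (α s')) := by
    intro t ht
    simp only [hh, hfl t ht]
    simp
  have hhI : LI (fun t => h t * uf T δ A c w α t) := by
    have : LB h := by
      have h1 := hcomp.lb.sub S.ge.lb
      simpa [hh] using h1
    have h2 := S.uI.mul this
    intro a b
    simpa [mul_comm] using h2 a b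
  have i1 : ∫ t in x₁..t', h t * uf T δ A c w α t = m * (gf T δ A c w α t' - lam) := by
    rw [← hgx₁, ← S.g_sub x₁ t', ← intervalIntegral.integral_const_mul]
    apply intervalIntegral.integral_congr
    intro t ht
    rw [uIcc_of_le a1.le] at ht
    simp only
    rw [hval t ⟨ht.1, by linarith [ht.2]⟩]
    have : α t ≤ α t' := S.ge.mono ht.2
    rw [min_eq_left (this.trans hcon.le), max_eq_left this]
  have i3 : ∫ t in s'..(x₁ + T), h t * uf T δ A c w α t = 0 := by
    rw [← intervalIntegral.integral_zero (a := s') (b := x₁ + T) (μ := volume) (E := ℝ)]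
    apply intervalIntegral.integral_congr_ae
    have : ∀ᵐ t : ℝ, t ≠ x₁ + T := by simp [ae_iff, measure_singleton]
    filter_upwards [this] with t htne ht
    rw [uIoc_of_le a3.le] at ht
    rw [hval t ⟨by linarith [ht.1], lt_of_le_of_ne ht.2 htne⟩]
    have h5 : α s' ≤ α t := S.ge.mono ht.1.le
    rw [min_eq_right h5, max_eq_right hcon.le, sub_self, zero_mul]
  have i2 : ∫ t in t'..s', h t * uf T δ A c w α t ≤ m * ∫ t in t'..s', |uf T δ A c w α t| := by
    rw [← intervalIntegral.integral_const_mul]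
    apply intervalIntegral.integral_mono_on a2.le (hhI _ _) ((habsI _ _).const_mul _)
    intro t ht
    rw [hval t ⟨by linarith [ht.1], by linarith [ht.2]⟩]
    have b1 : α t' ≤ max (α t') (min (α t) (α s')) := le_max_left _ _
    have b2 : max (α t') (min (α t) (α s')) ≤ α s' := max_le hcon.le (min_le_right _ _)
    calc (α s' - max (α t') (min (α t) (α s'))) * uf T δ A c w α t
        ≤ |(α s' - max (α t') (min (α t) (α s'))) * uf T δ A c w α t| := le_abs_self _
      _ = (α s' - max (α t') (min (α t) (α s'))) * |uf T δ A c w α t| := by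
          rw [abs_mul, abs_of_nonneg (by linarith)]
      _ ≤ m * |uf T δ A c w α t| := by
          apply mul_le_mul_of_nonneg_right _ (abs_nonneg _)
          rw [hm]; linarith
  have hsplit : ∫ t in x₁..(x₁ + T), h t * uf T δ A c w α t =
      (∫ t in x₁..t', h t * uf T δ A c w α t) + (∫ t in t'..s', h t * uf T δ A c w α t) +
        ∫ t in s'..(x₁ + T), h t * uf T δ A c w α t := by
    rw [intervalIntegral.integral_add_adjacent_intervals (hhI _ _) (hhI _ _),
      intervalIntegral.integral_add_adjacent_intervals (hhI _ _) (hhI _ _)]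
  have habs : (∫ r in z..s', |uf T δ A c w α r|) - ∫ r in z..t', |uf T δ A c w α r| =
      ∫ t in t'..s', |uf T δ A c w α t| :=
    intervalIntegral.integral_interval_sub_left (habsI _ _) (habsI _ _)
  rw [habs] at hη1
  rw [hsplit, i1, i3] at hfo'
  have hfin : m * (gf T δ A c w α t' - lam) + m * ∫ t in t'..s', |uf T δ A c w α t| < 0 := by
    have := mul_pos hmpos hη1
    nlinarith
  linarith

/-- Global KKT: `α` does not move across an interval free of maximisers of `g`. -/
theorem kkt {lam x₀ : ℝ} (hle : ∀ t, gf T δ A c w α t ≤ lam)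
    (hx₀ : gf T δ A c w α x₀ = lam) {a x : ℝ} (hax : a ≤ x)
    (h : ∀ z ∈ Icc a x, gf T δ A c w α z < lam) :
    Function.rightLim α x ≤ Function.leftLim α a := by
  have hder : ∀ z ∈ Icc a x, HasDerivAt α 0 z := by
    intro z hz
    obtain ⟨η, hη, hη2⟩ := S.kkt_local hle hx₀ (h z hz)
    have : α =ᶠ[𝓝 z] fun _ => α z := by
      filter_upwards [Ioo_mem_nhds (show z - η < z by linarith) (show z < z + η by linarith)]
        with y hy
      have h1 := S.ge.mono hy.1.le
      have h2 := S.ge.mono hy.2.le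
      have h3 := S.ge.mono (show z - η ≤ z by linarith)
      have h4 := S.ge.mono (show z ≤ z + η by linarith)
      linarith
    exact (hasDerivAt_const z (α z)).congr_of_eventuallyEq this
  have hconst := constant_of_has_deriv_right_zero (f := α) (a := a) (b := x)
    (fun z hz => (hder z hz).continuousAt.continuousWithinAt)
    (fun z hz => (hder z ⟨hz.1, hz.2.le⟩).hasDerivWithinAt) x ⟨hax, le_rfl⟩
  obtain ⟨η, hη, hη2⟩ := S.kkt_local hle hx₀ (h x ⟨hax, le_rfl⟩)
  obtain ⟨ζ, hζ, hζ2⟩ := S.kkt_local hle hx₀ (h a ⟨le_rfl, hax⟩)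
  have h1 : Function.rightLim α x ≤ α (x + η) := S.ge.mono.rightLim_le (by linarith)
  have h2 : α (x - η) ≤ α x := S.ge.mono (by linarith)
  have h3 : α (a - ζ) ≤ Function.leftLim α a := S.ge.mono.le_leftLim (by linarith)
  have h4 : α a ≤ α (a + ζ) := S.ge.mono (by linarith)
  linarith

end Opt

end Pool.PeriodicEffort
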