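import Mathlib
import Pool.Agent.Helper20.PeriodicEffortKKT

/-!
# From an optimal generalised effort to the abstract system
-/

open MeasureTheory Set Filter Topology

namespace Pool.PeriodicEffort

/-- primitive of `c e^{δ r}` -/
noncomputable def Cf (δ : ℝ) (c : ℝ → ℝ) (t : ℝ) : ℝ := ∫ r in (0 : ℝ)..t, c r * Real.exp (δ * r)

/-- primitive of `w e^{-δ r}` -/
noncomputable def Wf (δ : ℝ) (w : ℝ → ℝ) (t : ℝ) : ℝ := ∫ r in (0 : ℝ)..t, w r * Real.exp (-(δ * r))

theorem exists_of_ae {P : ℝ → Prop} (h : ∀ᵐ t, P t) {x y : ℝ} (hxy : x < y) :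
    ∃ t ∈ Ioo x y, P t := by
  obtain ⟨z, hz, hz2⟩ := (Measure.dense_of_ae h).exists_between hxy
  exact ⟨z, hz2, hz⟩

theorem ae_cont {α : ℝ → ℝ} (h : Monotone α) :
    ∀ᵐ t, Function.rightLim α t = α t ∧ Function.leftLim α t = α t := by
  have h1 : {t | ¬ContinuousAt α t}.Countable := h.countable_not_continuousAt
  have h2 : ∀ᵐ t, ContinuousAt α t := by
    rw [ae_iff]
    exact h1.measure_zero volume
  filter_upwards [h2] with t ht
  exact ⟨h.continuousWithinAt_Ioi_iff_rightLim_eq.mp ht.continuousWithinAt,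
    h.continuousWithinAt_Iio_iff_leftLim_eq.mp ht.continuousWithinAt⟩

theorem GE.left {T A : ℝ} {α : ℝ → ℝ} (h : GE T A α) : GE T A (Function.leftLim α) where
  mono := h.mono.leftLim
  quasi := by
    intro t
    have h1 := h.mono.tendsto_leftLim (t + T)
    have h2 : Tendsto (fun s => s + T) (𝓝[<] t) (𝓝[<] (t + T)) := by
      apply tendsto_nhdsWithin_of_tendsto_nhds_of_eventually_within
      · exact ((continuous_add_const T).tendsto t).mono_left nhdsWithin_le_nhds
      · filter_upwards [self_mem_nhdsWithin] with s hs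
        exact add_lt_add_left hs T
    have h3 := h1.comp h2
    have h4 : (α ∘ fun s => s + T) = fun s => α s + A := by
      funext s
      exact h.quasi s
    rw [h4] at h3
    exact tendsto_nhds_unique h3 ((h.mono.tendsto_leftLim t).add_const A)

theorem GE.right {T A : ℝ} {α : ℝ → ℝ} (h : GE T A α) : GE T A (Function.rightLim α) where
  mono := h.mono.rightLim
  quasi := by
    intro t
    have h1 := h.mono.tendsto_rightLim (t + T)
    have h2 : Tendsto (fun s => s + T) (𝓝[>] t) (𝓝[>] (t + T)) := by
      apply tendsto_nhdsWithin_of_tendsto_nhds_of_eventually_within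
      · exact ((continuous_add_const T).tendsto t).mono_left nhdsWithin_le_nhds
      · filter_upwards [self_mem_nhdsWithin] with s hs
        exact add_lt_add_left hs T
    have h3 := h1.comp h2
    have h4 : (α ∘ fun s => s + T) = fun s => α s + A := by
      funext s
      exact h.quasi s
    rw [h4] at h3
    exact tendsto_nhds_unique h3 ((h.mono.tendsto_rightLim t).add_const A)

theorem GE.comp {T A : ℝ} {α φ : ℝ → ℝ} (h : GE T A α) (h1 : Monotone φ)
    (h2 : ∀ t, φ (t + T) = φ t + T) : GE T A (fun t => α (φ t)) where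
  mono := h.mono.comp h1
  quasi := by
    intro t
    rw [h2, h.quasi]

/-- `pen` depends only on the a.e. classes of `c e^{α}` and `w e^{-α}`. -/
theorem pen_congr {T δ κ k : ℝ} {c w α β : ℝ → ℝ} (hk : k ≠ 0)
    (h1 : ∀ᵐ t, ct δ c β t = k * ct δ c α t) (h2 : ∀ᵐ t, wt δ w β t = k⁻¹ * wt δ w α t) :
    pen T δ κ c w β = pen T δ κ c w α := by
  have hb : ∀ t, bf T κ (ct δ c β) t = k * bf T κ (ct δ c α) t := by
    intro t
    have e : ∀ s, ∫ r in (0 : ℝ)..s, ct δ c β r = k * ∫ r in (0 : ℝ)..s, ct δ c α r := by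
      intro s
      rw [← intervalIntegral.integral_const_mul]
      apply intervalIntegral.integral_congr_ae
      filter_upwards [h1] with r hr _ using hr
    unfold bf
    rw [e, e]
    ring
  unfold pen phi
  apply intervalIntegral.integral_congr_ae
  filter_upwards [h2] with t ht _
  rw [ht, hb]
  field_simp

namespace Opt

variable {T δ A : ℝ} {c w α : ℝ → ℝ} (S : Opt T δ A c w α)

include S

theorem cfI : LI (fun r => c r * Real.exp (δ * r)) := S.cI.mul (lb_lin δ).exp

theorem wfI : LI (fun r => w r * Real.exp (-(δ * r))) := S.wI.mul (lb_lin δ).neg.exp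

theorem cf_sub (a b : ℝ) : Cf δ c b - Cf δ c a = ∫ r in a..b, c r * Real.exp (δ * r) :=
  intervalIntegral.integral_interval_sub_left (S.cfI 0 b) (S.cfI 0 a)

theorem wf_sub (a b : ℝ) : Wf δ w b - Wf δ w a = ∫ r in a..b, w r * Real.exp (-(δ * r)) :=
  intervalIntegral.integral_interval_sub_left (S.wfI 0 b) (S.wfI 0 a)

theorem cf_mono : Monotone (Cf δ c) := by
  intro a b hab
  have h := S.cf_sub a b
  have := intervalIntegral.integral_nonneg hab
    (fun x _ => mul_nonneg (S.c0 x) (Real.exp_pos (δ * x)).le) (μ := volume)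
  linarith

theorem wf_mono : Monotone (Wf δ w) := by
  intro a b hab
  have h := S.wf_sub a b
  have := intervalIntegral.integral_nonneg hab
    (fun x _ => mul_nonneg (S.w0 x) (Real.exp_pos (-(δ * x))).le) (μ := volume)
  linarith

theorem cf_shift (a : ℝ) : Cf δ c a < Cf δ c (a + T) := by
  have h := S.cf_sub a (a + T)
  have h1 : Real.exp (δ * a) * ∫ t in a..(a + T), c t ≤
      ∫ r in a..(a + T), c r * Real.exp (δ * r) := by
    rw [← intervalIntegral.integral_const_mul]
    apply intervalIntegral.integral_mono_on (by linarith [S.T_pos]) ((S.cI _ _).const_mul _)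
      (S.cfI _ _)
    intro x hx
    rw [mul_comm]
    apply mul_le_mul_of_nonneg_left _ (S.c0 x)
    apply Real.exp_le_exp.mpr
    exact mul_le_mul_of_nonneg_left hx.1 S.δ_pos.le
  have h2 : ∫ t in a..(a + T), c t = ∫ t in (0 : ℝ)..T, c t := by
    rw [S.cper.intervalIntegral_add_eq a 0, zero_add]
  rw [h2] at h1
  have := mul_pos (Real.exp_pos (δ * a)) S.cpos
  linarith

omit S in
theorem per_ae {f : ℝ → ℝ} (hf : Function.Periodic f T) {a x : ℝ}
    (h : ∀ᵐ t, t ∈ Icc a x → f t = 0) :
    ∀ᵐ t, ∀ n : ℤ, t - n * T ∈ Icc a x → f t = 0 := by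
  rw [ae_all_iff]
  intro n
  have h1 := (measurePreserving_sub_right (volume : Measure ℝ) (n * T)).quasiMeasurePreserving.ae h
  filter_upwards [h1] with t ht hmem
  have := ht hmem
  rwa [hf.sub_int_mul_eq n] at this

omit S in
theorem ae_zero_of {f : ℝ → ℝ} (hf0 : ∀ t, 0 ≤ f t) (hfI : LI f) {a x : ℝ} (hax : a ≤ x)
    (h : ∫ r in a..x, f r = 0) : ∀ᵐ t, t ∈ Icc a x → f t = 0 := by
  rw [intervalIntegral.integral_eq_zero_iff_of_le_of_nonneg_ae hax
    (Eventually.of_forall hf0) (hfI a x)] at h
  have h1 := (ae_restrict_iff' measurableSet_Ioc).mp h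
  have h2 : ∀ᵐ t : ℝ, t ≠ a := by simp [ae_iff, measure_singleton]
  filter_upwards [h1, h2] with t ht hta hmem
  exact ht ⟨lt_of_le_of_ne hmem.1 (Ne.symm hta), hmem.2⟩

theorem null {a x : ℝ} (hax : a < x) (hC : Cf δ c a = Cf δ c x) (hW : Wf δ w a = Wf δ w x) :
    Function.rightLim α x ≤ Function.leftLim α a := by
  have hT := S.T_pos
  have hlt : x < a + T := by
    by_contra h
    rw [not_lt] at h
    have h1 := S.cf_mono h
    have h2 := S.cf_shift a
    linarith
  have hc0 : ∀ᵐ t, ∀ n : ℤ, t - n * T ∈ Icc a x → c t = 0 := by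
    apply per_ae S.cper
    have h1 := ae_zero_of (f := fun r => c r * Real.exp (δ * r))
      (fun t => mul_nonneg (S.c0 t) (Real.exp_pos _).le) S.cfI hax.le
      (by rw [← S.cf_sub, hC, sub_self])
    filter_upwards [h1] with t ht hmem
    have := ht hmem
    rcases mul_eq_zero.mp this with h | h
    · exact h
    · exact absurd h (Real.exp_pos _).ne'
  have hw0 : ∀ᵐ t, ∀ n : ℤ, t - n * T ∈ Icc a x → w t = 0 := by
    apply per_ae S.wper
    have h1 := ae_zero_of (f := fun r => w r * Real.exp (-(δ * r)))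
      (fun t => mul_nonneg (S.w0 t) (Real.exp_pos _).le) S.wfI hax.le
      (by rw [← S.wf_sub, hW, sub_self])
    filter_upwards [h1] with t ht hmem
    have := ht hmem
    rcases mul_eq_zero.mp this with h | h
    · exact h
    · exact absurd h (Real.exp_pos _).ne'
  -- circle maps
  set φ : ℝ → ℝ := fun t => max t (x + T * ⌊(t - a) / T⌋) with hφ
  set ψ : ℝ → ℝ := fun t => min t (a + T * ⌈(t - x) / T⌉) with hψ
  have φmono : Monotone φ := by
    intro s t hst
    apply max_le_max hst
    have : (⌊(s - a) / T⌋ : ℝ) ≤ ⌊(t - a) / T⌋ := by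
      exact_mod_cast Int.floor_le_floor (show (s - a) / T ≤ (t - a) / T by gcongr)
    have := mul_le_mul_of_nonneg_left this hT.le
    linarith
  have ψmono : Monotone ψ := by
    intro s t hst
    apply min_le_min hst
    have : (⌈(s - x) / T⌉ : ℝ) ≤ ⌈(t - x) / T⌉ := by
      exact_mod_cast Int.ceil_le_ceil (show (s - x) / T ≤ (t - x) / T by gcongr)
    have := mul_le_mul_of_nonneg_left this hT.le
    linarith
  have φq : ∀ t, φ (t + T) = φ t + T := by
    intro t
    have e : ⌊(t + T - a) / T⌋ = ⌊(t - a) / T⌋ + 1 := by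
      rw [← Int.floor_add_one]
      congr 1
      field_simp
      ring
    simp only [hφ, e]
    push_cast
    rw [← max_add_add_right]
    congr 1
    ring
  have ψq : ∀ t, ψ (t + T) = ψ t + T := by
    intro t
    have e : ⌈(t + T - x) / T⌉ = ⌈(t - x) / T⌉ + 1 := by
      rw [← Int.ceil_add_one]
      congr 1
      field_simp
      ring
    simp only [hψ, e]
    push_cast
    rw [← min_add_add_right]
    congr 1
    ring
  have φval : ∀ t, φ t = t ∨ ∃ n : ℤ, t - n * T ∈ Icc a x := by
    intro t
    rcases le_total (x + T * ⌊(t - a) / T⌋) t with h | h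
    · left; exact max_eq_left h
    · right
      refine ⟨⌊(t - a) / T⌋, ?_, by linarith⟩
      have := Int.floor_le ((t - a) / T)
      rw [le_div_iff₀ hT] at this
      linarith
  have ψval : ∀ t, ψ t = t ∨ ∃ n : ℤ, t - n * T ∈ Icc a x := by
    intro t
    rcases le_total t (a + T * ⌈(t - x) / T⌉) with h | h
    · left; exact min_eq_left h
    · right
      refine ⟨⌈(t - x) / T⌉, by linarith, ?_⟩
      have := Int.le_ceil ((t - x) / T)
      rw [div_le_iff₀ hT] at this
      linarith
  have hcont := ae_cont S.ge.mono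
  have g1 : GE T A (fun t => Function.rightLim α (φ t)) := S.ge.right.comp φmono φq
  have g2 : GE T A (fun t => Function.leftLim α (ψ t)) := S.ge.left.comp ψmono ψq
  have e1 : pen T δ (kap T δ A) c w (fun t => Function.rightLim α (φ t)) =
      pen T δ (kap T δ A) c w α := by
    apply pen_congr one_ne_zero
    · filter_upwards [hcont, hc0] with t ht htc
      rcases φval t with h | ⟨n, hn⟩
      · simp only [ct, h, ht.1, one_mul]
      · simp only [ct, htc n hn, zero_mul, mul_zero]
    · filter_upwards [hcont, hw0] with t ht htc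
      rcases φval t with h | ⟨n, hn⟩
      · simp only [wt, h, ht.1, inv_one, one_mul]
      · simp only [wt, htc n hn, zero_mul, mul_zero]
  have e2 : pen T δ (kap T δ A) c w (fun t => Function.leftLim α (ψ t)) =
      pen T δ (kap T δ A) c w α := by
    apply pen_congr one_ne_zero
    · filter_upwards [hcont, hc0] with t ht htc
      rcases ψval t with h | ⟨n, hn⟩
      · simp only [ct, h, ht.2, one_mul]
      · simp only [ct, htc n hn, zero_mul, mul_zero]
    · filter_upwards [hcont, hw0] with t ht htc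
      rcases ψval t with h | ⟨n, hn⟩
      · simp only [wt, h, ht.2, inv_one, one_mul]
      · simp only [wt, htc n hn, zero_mul, mul_zero]
  obtain ⟨k, hk⟩ := S.uniq _ _ g1 g2 e1 e2
  have hk0 : k = 0 := by
    obtain ⟨t, ht, ht1, ht2⟩ := exists_of_ae (hk.and hcont) hlt
    have f1 : ⌊(t - a) / T⌋ = 0 := by
      rw [Int.floor_eq_zero_iff]
      exact ⟨div_nonneg (by linarith [ht.1]) hT.le, by rw [div_lt_one hT]; linarith [ht.2]⟩
    have f2 : ⌈(t - x) / T⌉ = 1 := by
      rw [Int.ceil_eq_iff]
      constructor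
      · have : 0 < (t - x) / T := div_pos (by linarith [ht.1]) hT
        simpa using this
      · have : (t - x) / T ≤ 1 := by rw [div_le_one hT]; linarith [ht.2]
        simpa using this
    have p1 : φ t = t := by
      simp only [hφ, f1]
      push_cast
      rw [mul_zero, add_zero]
      exact max_eq_left ht.1.le
    have p2 : ψ t = t := by
      simp only [hψ, f2]
      push_cast
      rw [mul_one]
      exact min_eq_left ht.2.le
    rw [p1, p2, ht2.1, ht2.2] at ht1
    linarith
  obtain ⟨t, ht, ht1⟩ := exists_of_ae hk hax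
  have f1 : ⌊(t - a) / T⌋ = 0 := by
    rw [Int.floor_eq_zero_iff]
    exact ⟨div_nonneg (by linarith [ht.1]) hT.le, by rw [div_lt_one hT]; linarith [ht.2]⟩
  have f2 : ⌈(t - x) / T⌉ = 0 := by
    rw [Int.ceil_eq_iff]
    constructor
    · have : -1 < (t - x) / T := by rw [lt_div_iff₀ hT]; linarith [ht.1]
      push_cast
      linarith
    · have : (t - x) / T ≤ 0 := by
        rw [div_le_iff₀ hT]; linarith [ht.2]
      simpa using this
  have p1 : φ t = x := by
    simp only [hφ, f1]
    push_cast
    rw [mul_zero, add_zero]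
    exact max_eq_right ht.2.le
  have p2 : ψ t = a := by
    simp only [hψ, f2]
    push_cast
    rw [mul_zero, add_zero]
    exact min_eq_right ht.1.le
  rw [p1, p2, hk0, add_zero] at ht1
  exact ht1.le

/-- The abstract system. -/
theorem sys : ∃ r : ℝ, 0 < r ∧ Sys (Cf δ c) (Wf δ w) (Function.leftLim α) (Function.rightLim α)
    (Bf T δ A c α) (Qf T δ A w α) (r ^ 2) := by
  have hT := S.T_pos
  obtain ⟨x₀, hx₀⟩ : ∃ x₀, ∀ t, gf T δ A c w α t ≤ gf T δ A c w α x₀ := by
    obtain ⟨x₀, _, hx₀⟩ := (isCompact_Icc (a := (0 : ℝ)) (b := T)).exists_isMaxOn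
      ⟨0, le_rfl, hT.le⟩ S.gcont.continuousOn
    refine ⟨x₀, fun t => ?_⟩
    obtain ⟨y, hy, hty⟩ := S.gper.exists_mem_Ico₀ hT t
    rw [hty]
    exact hx₀ ⟨hy.1, hy.2.le⟩
  set lam := gf T δ A c w α x₀ with hlam
  have hlampos : 0 < lam := mul_pos (S.Bpos x₀) (S.Qpos x₀)
  have hsq : (Real.sqrt lam) ^ 2 = lam := Real.sq_sqrt hlampos.le
  refine ⟨Real.sqrt lam, Real.sqrt_pos.mpr hlampos, ?_⟩
  rw [hsq]
  exact
  { contC := intervalIntegral.continuous_primitive S.cfI 0
    contW := intervalIntegral.continuous_primitive S.wfI 0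
    monoC := S.cf_mono
    monoW := S.wf_mono
    unbl := fun x => ⟨x - T, by linarith, Or.inl (by simpa using S.cf_shift (x - T))⟩
    unbr := fun x => ⟨x + T, by linarith, Or.inl (S.cf_shift x)⟩
    LR := fun t => S.ge.mono.leftLim_le_rightLim le_rfl
    RL := fun s t h => S.ge.mono.rightLim_le_leftLim h
    tl := by
      intro x
      have h := S.ge.mono.rightLim.tendsto_leftLim x
      rwa [leftLim_rightLim (S.ge.mono.tendsto_leftLim x)] at h
    tr := by
      intro x
      have h := S.ge.mono.leftLim.tendsto_rightLim x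
      rwa [rightLim_leftLim (S.ge.mono.tendsto_rightLim x)] at h
    Bcont := S.Bcont
    Qcont := S.Qcont
    Bpos := S.Bpos
    Qpos := S.Qpos
    lampos := hlampos
    le := hx₀
    B1 := by
      intro a x hax
      rw [S.B_sub, S.cf_sub, ← intervalIntegral.integral_const_mul]
      apply intervalIntegral.integral_mono_on_of_le_Ioo hax.le ((S.cfI _ _).const_mul _)
        (S.ctI _ _)
      intro r hr
      have h1 : Function.rightLim α a ≤ α r := S.ge.mono.rightLim_le hr.1
      unfold ct
      rw [Real.exp_add]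
      have := Real.exp_le_exp.mpr h1
      have h2 := mul_nonneg (S.c0 r) (Real.exp_pos (δ * r)).le
      nlinarith
    B2 := by
      intro a x hax
      rw [S.B_sub, S.cf_sub, ← intervalIntegral.integral_const_mul]
      apply intervalIntegral.integral_mono_on_of_le_Ioo hax.le (S.ctI _ _)
        ((S.cfI _ _).const_mul _)
      intro r hr
      have h1 : α r ≤ Function.leftLim α x := S.ge.mono.le_leftLim hr.2
      unfold ct
      rw [Real.exp_add]
      have := Real.exp_le_exp.mpr h1
      have h2 := mul_nonneg (S.c0 r) (Real.exp_pos (δ * r)).le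
      nlinarith
    Q1 := by
      intro a x hax
      rw [S.Q_sub, S.wf_sub, ← intervalIntegral.integral_const_mul]
      apply intervalIntegral.integral_mono_on_of_le_Ioo hax.le ((S.wfI _ _).const_mul _)
        (S.wtI _ _)
      intro r hr
      have h1 : α r ≤ Function.leftLim α x := S.ge.mono.le_leftLim hr.2
      unfold wt
      rw [neg_add, Real.exp_add]
      have := Real.exp_le_exp.mpr (neg_le_neg h1)
      have h2 := mul_nonneg (S.w0 r) (Real.exp_pos (-(δ * r))).le
      nlinarith
    Q2 := by
      intro a x hax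
      rw [S.Q_sub, S.wf_sub, ← intervalIntegral.integral_const_mul]
      apply intervalIntegral.integral_mono_on_of_le_Ioo hax.le (S.wtI _ _)
        ((S.wfI _ _).const_mul _)
      intro r hr
      have h1 : Function.rightLim α a ≤ α r := S.ge.mono.rightLim_le hr.1
      unfold wt
      rw [neg_add, Real.exp_add]
      have := Real.exp_le_exp.mpr (neg_le_neg h1)
      have h2 := mul_nonneg (S.w0 r) (Real.exp_pos (-(δ * r))).le
      nlinarith
    kkt := fun a x hax h => S.kkt hx₀ hlam.symm hax h
    null := fun a x hax hC hW => S.null hax hC hW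
    Kl := by
      intro x
      obtain ⟨n, hn⟩ := exists_int_gt ((x₀ - x) / T)
      refine ⟨x₀ - n * T, ?_, ?_⟩
      · rw [div_lt_iff₀ hT] at hn
        linarith
      · exact (S.gper.sub_int_mul_eq n)
    Kr := by
      intro x
      obtain ⟨n, hn⟩ := exists_int_gt ((x - x₀) / T)
      refine ⟨x₀ + n * T, ?_, ?_⟩
      · rw [div_lt_iff₀ hT] at hn
        linarith
      · exact (S.gper.int_mul n x₀) }

end Opt

end Pool.PeriodicEffort
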