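import Mathlib
import Pool.Agent.Helper20.PeriodicEffortSys

/-!
# Monotonicity of the optimal periodic effort in the budget
-/

open MeasureTheory Set Filter Topology

namespace Pool.PeriodicEffort

variable {side : ℝ → Set ℝ} {T δ : ℝ} {c w : ℝ → ℝ}

theorem IsEffort.ge {α : ℝ → ℝ} (h : IsEffort side T α) : GE T (α T) α := ⟨h.mono, h.quasi⟩

/-- Normalisation of a generalised effort. -/
theorem exists_norm (hside : side = Set.Ici ∨ side = Set.Iic) {A : ℝ} {β : ℝ → ℝ}
    (hβ : GE T A β) : ∃ β', IsEffort side T β' ∧ β' T = A ∧ ∃ k : ℝ, ∀ᵐ t, β' t = β t + k := by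
  have hcont := ae_cont hβ.mono
  rcases hside with rfl | rfl
  · refine ⟨fun t => Function.rightLim β t - Function.rightLim β 0, ⟨?_, ?_, ?_, ?_⟩, ?_, ?_⟩
    · exact fun s t h => sub_le_sub_right (hβ.mono.rightLim h) _
    · intro t
      exact (continuousWithinAt_rightLim_Ici (hβ.mono.tendsto_rightLim t)).sub
        continuousWithinAt_const
    · simp
    · intro t
      have h1 := hβ.right.quasi t
      have h2 := hβ.right.quasi 0
      rw [zero_add] at h2
      simp only [h1, h2]
      ring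
    · have h2 := hβ.right.quasi 0
      rw [zero_add] at h2
      simp only [h2]
      ring
    · refine ⟨-Function.rightLim β 0, ?_⟩
      filter_upwards [hcont] with t ht
      rw [ht.1, sub_eq_add_neg]
  · refine ⟨fun t => Function.leftLim β t - Function.leftLim β 0, ⟨?_, ?_, ?_, ?_⟩, ?_, ?_⟩
    · exact fun s t h => sub_le_sub_right (hβ.mono.leftLim h) _
    · intro t
      exact (continuousWithinAt_leftLim_Iic (hβ.mono.tendsto_leftLim t)).sub
        continuousWithinAt_const
    · simp
    · intro t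
      have h1 := hβ.left.quasi t
      have h2 := hβ.left.quasi 0
      rw [zero_add] at h2
      simp only [h1, h2]
      ring
    · have h2 := hβ.left.quasi 0
      rw [zero_add] at h2
      simp only [h2]
      ring
    · refine ⟨-Function.leftLim β 0, ?_⟩
      filter_upwards [hcont] with t ht
      rw [ht.2, sub_eq_add_neg]

theorem pen_shift {A k : ℝ} {α β : ℝ → ℝ} (h : ∀ᵐ t, β t = α t + k) :
    pen T δ (kap T δ A) c w β = pen T δ (kap T δ A) c w α := by
  apply pen_congr (k := Real.exp k) (Real.exp_pos _).ne'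
  · filter_upwards [h] with t ht
    unfold ct
    rw [ht, show α t + k + δ * t = k + (α t + δ * t) by ring, Real.exp_add]
    ring
  · filter_upwards [h] with t ht
    unfold wt
    rw [ht, show -(α t + k + δ * t) = -k + -(α t + δ * t) by ring, Real.exp_add, Real.exp_neg k]
    ring

theorem state_eq (hT : 0 < T) (hδ : 0 < δ) {A : ℝ} (hA : 0 < A) (hc : LI c) {α : ℝ → ℝ}
    (hα : GE T A α) (hαT : α T = A) (t : ℝ) :
    state T δ c α t = Real.exp (-(α t + δ * t)) * bf T (kap T δ A) (ct δ c α) t := by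
  have hq : Real.exp (-(A + δ * T)) < 1 := by
    rw [Real.exp_lt_one_iff]
    have := mul_pos hδ hT
    linarith
  have hq' : 1 - Real.exp (-(A + δ * T)) ≠ 0 := by linarith
  have I1 := hc.ct (δ := δ) hα.lb
  have h1 : ∫ r in t..T, c r * Real.exp (α r + δ * r) =
      (∫ r in (0 : ℝ)..T, ct δ c α r) - ∫ r in (0 : ℝ)..t, ct δ c α r :=
    (intervalIntegral.integral_interval_sub_left (I1 0 T) (I1 0 t)).symm
  unfold state bf kap
  rw [hαT, h1, show -A - δ * T = -(A + δ * T) by ring, show -α t - δ * t = -(α t + δ * t) by ring]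
  have h2 : ∫ r in (0 : ℝ)..t, c r * Real.exp (α r + δ * r) = ∫ r in (0 : ℝ)..t, ct δ c α r := rfl
  rw [h2]
  set q := Real.exp (-(A + δ * T)) with hqd
  field_simp
  ring

theorem cost_eq (hT : 0 < T) (hδ : 0 < δ) {A : ℝ} (hA : 0 < A) (hc : LI c) {α : ℝ → ℝ}
    (hα : GE T A α) (hαT : α T = A) :
    cost T δ c w α = (1 / T) * pen T δ (kap T δ A) c w α := by
  unfold cost pen phi
  congr 1
  apply intervalIntegral.integral_congr
  intro t _
  simp only [state_eq hT hδ hA hc hα hαT, wt]
  ring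

/-- The uniqueness hypothesis excludes the degenerate case in which all costs vanish. -/
theorem nondeg (hT : 0 < T) (hside : side = Set.Ici ∨ side = Set.Iic)
    {η : ℝ} (hη : 0 < η) (huniq : ∃! α : ℝ → ℝ, IsMinimiser side T δ c w η α)
    (hzero : ∀ β, IsEffort side T β → β T / T = η → cost T δ c w β = 0) : False := by
  have hA : 0 < η * T := mul_pos hη hT
  have g1 : GE T (η * T) (fun t => η * t) := by
    refine ⟨fun s t h => mul_le_mul_of_nonneg_left h hη.le, fun t => ?_⟩
    ring
  have g2 : GE T (η * T) (fun t => η * T * ⌊t / T⌋) := by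
    refine ⟨fun s t h => ?_, fun t => ?_⟩
    · apply mul_le_mul_of_nonneg_left _ hA.le
      exact_mod_cast Int.floor_le_floor (show s / T ≤ t / T by gcongr)
    · have : ⌊(t + T) / T⌋ = ⌊t / T⌋ + 1 := by
        rw [← Int.floor_add_one]
        congr 1
        field_simp
      rw [this]
      push_cast
      ring
  obtain ⟨β₁, hb1, hb1T, k1, hk1⟩ := exists_norm hside g1
  obtain ⟨β₂, hb2, hb2T, k2, hk2⟩ := exists_norm hside g2
  have hbud : ∀ β : ℝ → ℝ, β T = η * T → β T / T = η := by
    intro β h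
    rw [h]
    field_simp
  have hm : ∀ β, IsEffort side T β → β T = η * T → IsMinimiser side T δ c w η β := by
    intro β h h'
    refine ⟨h, hbud β h', fun γ hγ hγ' => ?_⟩
    rw [hzero β h (hbud β h'), hzero γ hγ hγ']
  have heq : β₁ = β₂ := huniq.unique (hm β₁ hb1 hb1T) (hm β₂ hb2 hb2T)
  have hae : ∀ᵐ t, η * t + k1 = η * T * ⌊t / T⌋ + k2 := by
    filter_upwards [hk1, hk2] with t h1 h2
    rw [← h1, ← h2, heq]
  have hfl : ∀ t ∈ Ioo 0 T, (⌊t / T⌋ : ℝ) = 0 := by
    intro t ht
    have : ⌊t / T⌋ = 0 := by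
      rw [Int.floor_eq_zero_iff]
      exact ⟨div_nonneg ht.1.le hT.le, by rw [div_lt_one hT]; exact ht.2⟩
    rw [this]; simp
  obtain ⟨t, ht, ht1⟩ := exists_of_ae hae (show (0 : ℝ) < T / 2 by linarith)
  obtain ⟨s, hs, hs1⟩ := exists_of_ae hae (show T / 2 < T by linarith)
  rw [hfl t ⟨ht.1, by linarith [ht.2]⟩] at ht1
  rw [hfl s ⟨by linarith [hs.1], hs.2⟩] at hs1
  have : η * (s - t) = 0 := by linarith
  rcases mul_eq_zero.mp this with h | h
  · linarith
  · linarith [ht.2, hs.1]

theorem int_zero_ae {f : ℝ → ℝ} (hf0 : ∀ t, 0 ≤ f t) (hfI : LI f) (hT : 0 < T)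
    (h : ¬ 0 < ∫ t in (0 : ℝ)..T, f t) : ∀ᵐ t, t ∈ Icc 0 T → f t = 0 := by
  apply Opt.ae_zero_of hf0 hfI hT.le
  have := intervalIntegral.integral_nonneg hT.le (fun x _ => hf0 x) (μ := volume)
  linarith

theorem state_zero {α : ℝ → ℝ} (h : ∀ᵐ t, t ∈ Icc 0 T → c t = 0) {t : ℝ} (ht : t ∈ Icc 0 T) :
    state T δ c α t = 0 := by
  have h1 : ∀ a b, a ∈ Icc 0 T → b ∈ Icc 0 T →
      ∫ r in a..b, c r * Real.exp (α r + δ * r) = 0 := by
    intro a b ha hb
    rw [← intervalIntegral.integral_zero (a := a) (b := b) (μ := volume) (E := ℝ)]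
    apply intervalIntegral.integral_congr_ae
    filter_upwards [h] with r hr hmem
    rw [hr, zero_mul]
    have := uIoc_subset_uIcc hmem
    exact (uIcc_subset_Icc ha hb) this
  unfold state
  have hT : 0 ≤ T := ht.1.trans ht.2
  rw [h1 0 t ⟨le_rfl, hT⟩ ht, h1 t T ht ⟨hT, le_rfl⟩]
  simp

theorem Admissible.cLI (h : Admissible side T δ c w) : LI c :=
  fun a b => h.c_periodic.intervalIntegrable₀ h.T_pos.ne' h.c_integrable a b

/-- `c` is not a.e. zero. -/
theorem Admissible.cpos (h : Admissible side T δ c w) (hside : side = Set.Ici ∨ side = Set.Iic) :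
    0 < ∫ t in (0 : ℝ)..T, c t := by
  by_contra hcon
  have h0 := int_zero_ae h.c_nonneg h.cLI h.T_pos hcon
  apply nondeg h.T_pos hside one_pos (h.unique_minimiser 1 one_pos)
  intro β _ _
  unfold cost
  have : ∫ t in (0 : ℝ)..T, w t * state T δ c β t = ∫ _ in (0 : ℝ)..T, (0 : ℝ) := by
    apply intervalIntegral.integral_congr
    intro t ht
    rw [uIcc_of_le h.T_pos.le] at ht
    simp only
    rw [state_zero h0 ht, mul_zero]
  rw [this, intervalIntegral.integral_zero, mul_zero]

/-- The uniqueness hypothesis forces the weight to be integrable. -/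
theorem Admissible.wLI (h : Admissible side T δ c w) (hside : side = Set.Ici ∨ side = Set.Iic) :
    LI w := by
  suffices hw : IntervalIntegrable w volume 0 T from
    fun a b => h.w_periodic.intervalIntegrable₀ h.T_pos.ne' hw a b
  by_contra hcon
  apply nondeg h.T_pos hside one_pos (h.unique_minimiser 1 one_pos)
  intro β hβ hβT
  have hT := h.T_pos
  have hA : 0 < β T := by
    rw [div_eq_iff hT.ne'] at hβT
    linarith
  have hc := h.cLI
  have hst := fun t => state_eq hT h.δ_pos hA hc hβ.ge rfl t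
  have hctI := hc.ct (δ := δ) hβ.ge.lb
  have hbpos : ∀ t ∈ Icc 0 T, 0 < bf T (kap T δ (β T)) (ct δ c β) t := by
    intro t ht
    have h1 : 0 < ∫ r in (0 : ℝ)..T, ct δ c β r := by
      have h2 : Real.exp (β 0) * ∫ t in (0 : ℝ)..T, c t ≤ ∫ r in (0 : ℝ)..T, ct δ c β r := by
        rw [← intervalIntegral.integral_const_mul]
        apply intervalIntegral.integral_mono_on hT.le ((hc 0 T).const_mul _) (hctI 0 T)
        intro x hx
        unfold ct
        rw [mul_comm]
        apply mul_le_mul_of_nonneg_left _ (h.c_nonneg x)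
        apply Real.exp_le_exp.mpr
        have := hβ.mono hx.1
        have := mul_nonneg h.δ_pos.le hx.1
        linarith
      exact (mul_pos (Real.exp_pos _) (h.cpos hside)).trans_le h2
    have h3 := intervalIntegral.integral_nonneg ht.1 (μ := volume) (f := ct δ c β)
      (fun x _ => mul_nonneg (h.c_nonneg x) (Real.exp_pos _).le)
    have h4 := mul_pos (kap_pos hT h.δ_pos hA) h1
    unfold bf
    linarith
  have hni : ¬ IntervalIntegrable (fun t => w t * state T δ c β t) volume 0 T := by
    intro hi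
    apply hcon
    have h1 : IntervalIntegrable (fun t => w t * state T δ c β t * Real.exp (β t + δ * t))
        volume 0 T := by
      obtain ⟨M, hM⟩ := (hβ.ge.lb.add (lb_lin δ)).exp.2 T
      rw [intervalIntegrable_iff] at hi ⊢
      refine Integrable.mul_bdd (c := M) hi
        ((hβ.ge.lb.add (lb_lin δ)).exp.1.aestronglyMeasurable) ?_
      rw [ae_restrict_iff' measurableSet_uIoc]
      refine Eventually.of_forall fun t ht => ?_
      rw [Real.norm_eq_abs]
      rw [uIoc_of_le hT.le] at ht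
      exact hM t (by rw [abs_of_pos ht.1]; exact ht.2)
    have h2 : ContinuousOn (fun t => (bf T (kap T δ (β T)) (ct δ c β) t)⁻¹) (uIcc 0 T) := by
      apply ContinuousOn.inv₀ (hctI.bf_cont _ _).continuousOn
      intro t ht
      rw [uIcc_of_le hT.le] at ht
      exact (hbpos t ht).ne'
    have h3 := h1.mul_continuousOn h2
    refine (h3.congr ?_)
    intro t ht
    rw [uIoc_of_le hT.le] at ht
    have hb := (hbpos t ⟨ht.1.le, ht.2⟩).ne'
    simp only
    rw [hst t, Real.exp_neg]
    have := (Real.exp_pos (β t + δ * t)).ne'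
    field_simp
  unfold cost
  rw [intervalIntegral.integral_undef hni, mul_zero]

theorem Admissible.wpos (h : Admissible side T δ c w) (hside : side = Set.Ici ∨ side = Set.Iic) :
    0 < ∫ t in (0 : ℝ)..T, w t := by
  by_contra hcon
  have h0 := int_zero_ae h.w_nonneg (h.wLI hside) h.T_pos hcon
  apply nondeg h.T_pos hside one_pos (h.unique_minimiser 1 one_pos)
  intro β _ _
  unfold cost
  have : ∫ t in (0 : ℝ)..T, w t * state T δ c β t = ∫ _ in (0 : ℝ)..T, (0 : ℝ) := by
    apply intervalIntegral.integral_congr_ae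
    filter_upwards [h0] with t ht hmem
    rw [uIoc_of_le h.T_pos.le] at hmem
    rw [ht ⟨hmem.1.le, hmem.2⟩, zero_mul]
  rw [this, intervalIntegral.integral_zero, mul_zero]

/-- A minimiser gives an optimal generalised effort. -/
theorem Admissible.opt (h : Admissible side T δ c w) (hside : side = Set.Ici ∨ side = Set.Iic)
    {η : ℝ} (hη : 0 < η) {α : ℝ → ℝ} (hα : IsMinimiser side T δ c w η α) :
    Opt T δ (η * T) c w α := by
  have hT := h.T_pos
  have hA : 0 < η * T := mul_pos hη hT
  have hαT : α T = η * T := by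
    have := hα.budget
    rwa [div_eq_iff hT.ne'] at this
  have hge : GE T (η * T) α := by
    have := hα.effort.ge
    rwa [hαT] at this
  have hc := h.cLI
  -- comparison of penalties of generalised efforts
  have hnorm : ∀ γ, GE T (η * T) γ → ∃ γ', IsEffort side T γ' ∧ γ' T / T = η ∧
      (∃ k : ℝ, ∀ᵐ t, γ' t = γ t + k) ∧
      cost T δ c w γ' = (1 / T) * pen T δ (kap T δ (η * T)) c w γ := by
    intro γ hγ
    obtain ⟨γ', h1, h2, k, hk⟩ := exists_norm hside hγ
    refine ⟨γ', h1, ?_, ⟨k, hk⟩, ?_⟩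
    · rw [h2]; field_simp
    · have h3 : GE T (η * T) γ' := by
        have := h1.ge
        rwa [h2] at this
      rw [cost_eq hT h.δ_pos hA hc h3 h2, pen_shift hk]
  have hcα := cost_eq (w := w) hT h.δ_pos hA hc hge hαT
  have hTi : 0 < 1 / T := by positivity
  exact
  { T_pos := hT
    δ_pos := h.δ_pos
    A_pos := hA
    c0 := h.c_nonneg
    w0 := h.w_nonneg
    cper := h.c_periodic
    wper := h.w_periodic
    cI := hc
    wI := h.wLI hside
    ge := hge
    minimal := by
      intro γ hγ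
      obtain ⟨γ', h1, h2, _, h4⟩ := hnorm γ hγ
      have h5 := hα.min γ' h1 h2
      rw [h4, hcα] at h5
      exact le_of_mul_le_mul_left h5 hTi
    uniq := by
      intro γ γ' hγ hγ' e e'
      obtain ⟨β, h1, h2, ⟨k, hk⟩, h4⟩ := hnorm γ hγ
      obtain ⟨β', h1', h2', ⟨k', hk'⟩, h4'⟩ := hnorm γ' hγ'
      have m1 : IsMinimiser side T δ c w η β := by
        refine ⟨h1, h2, fun ζ hζ hζ' => ?_⟩
        rw [h4, e, ← hcα]
        exact hα.min ζ hζ hζ'
      have m2 : IsMinimiser side T δ c w η β' := by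
        refine ⟨h1', h2', fun ζ hζ hζ' => ?_⟩
        rw [h4', e', ← hcα]
        exact hα.min ζ hζ hζ'
      have heq : β = β' := (h.unique_minimiser η hη).unique m1 m2
      refine ⟨k' - k, ?_⟩
      filter_upwards [hk, hk'] with t ht ht'
      rw [← heq, ht] at ht'
      linarith
    cpos := h.cpos hside
    wpos := h.wpos hside }

/-- **Main theorem**: the optimal effort measure is monotone in the budget. -/
theorem monotone_in_budget (h : Admissible side T δ c w)
    (hside : side = Set.Ici ∨ side = Set.Iic) {η₁ η₂ : ℝ} (hη₁ : 0 < η₁) (hη : η₁ < η₂)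
    {α₁ α₂ : ℝ → ℝ} (h₁ : IsMinimiser side T δ c w η₁ α₁) (h₂ : IsMinimiser side T δ c w η₂ α₂)
    {t s : ℝ} (hts : t < s) : α₁ s - α₁ t ≤ α₂ s - α₂ t := by
  have hη₂ := hη₁.trans hη
  have hT := h.T_pos
  have o₁ := h.opt hside hη₁ h₁
  have o₂ := h.opt hside hη₂ h₂
  obtain ⟨r₁, hr₁, S₁⟩ := o₁.sys
  obtain ⟨r₂, hr₂, S₂⟩ := o₂.sys
  have key : ∀ {t s : ℝ}, t ≤ s → Function.rightLim α₁ s - Function.leftLim α₁ t ≤
      Function.rightLim α₂ s - Function.leftLim α₂ t := by
    rcases le_total r₂ r₁ with hr | hr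
    · intro t s hts
      exact compare S₁ S₂ hr₂ hr hts
    · exfalso
      have hc : ∀ {t s : ℝ}, t ≤ s → Function.rightLim α₂ s - Function.leftLim α₂ t ≤
          Function.rightLim α₁ s - Function.leftLim α₁ t :=
        fun hts => compare S₂ S₁ hr₁ hr hts
      have hpos : 0 < (η₂ - η₁) * T := mul_pos (by linarith) hT
      obtain ⟨n, hn⟩ := exists_nat_gt (2 * (η₁ * T) / ((η₂ - η₁) * T))
      rw [div_lt_iff₀ hpos] at hn
      have h1 := hc (t := 0) (s := n * T) (by positivity)
      have h2 : Function.leftLim α₂ 0 ≤ α₂ 0 := o₂.ge.mono.leftLim_le le_rfl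
      have h3 : α₂ (n * T) ≤ Function.rightLim α₂ (n * T) := o₂.ge.mono.le_rightLim le_rfl
      have h4 : Function.rightLim α₁ (n * T) ≤ α₁ (n * T + T) :=
        o₁.ge.mono.rightLim_le (by linarith)
      have h5 : α₁ (0 - T) ≤ Function.leftLim α₁ 0 := o₁.ge.mono.le_leftLim (by linarith)
      have q1 := o₂.ge.quasi_int n 0
      have q2 := o₁.ge.quasi_int n 0
      have q3 := o₁.ge.quasi (n * T)
      have q4 := o₁.ge.quasi (0 - T)
      rw [sub_add_cancel] at q4
      rw [zero_add] at q1 q2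
      push_cast at q1 q2
      nlinarith
  rcases hside with rfl | rfl
  · have e : ∀ {η : ℝ} {α : ℝ → ℝ}, IsMinimiser Set.Ici T δ c w η α → ∀ x,
        Function.rightLim α x = α x := fun hα x => (hα.effort.cont x).rightLim_eq
    rw [← e h₁ s, ← e h₁ t, ← e h₂ s, ← e h₂ t]
    apply le_of_tendsto_of_tendsto (tendsto_const_nhds.sub (S₁.tr t))
      (tendsto_const_nhds.sub (S₂.tr t))
    filter_upwards [Ioo_mem_nhdsGT hts] with t' ht'
    exact key ht'.2.le
  · have e : ∀ {η : ℝ} {α : ℝ → ℝ}, IsMinimiser Set.Iic T δ c w η α → ∀ x,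
        Function.leftLim α x = α x := fun hα x => (hα.effort.cont x).leftLim_eq
    rw [← e h₁ s, ← e h₁ t, ← e h₂ s, ← e h₂ t]
    apply le_of_tendsto_of_tendsto ((S₁.tl s).sub_const _) ((S₂.tl s).sub_const _)
    filter_upwards [Ioo_mem_nhdsLT hts] with s' hs'
    exact key hs'.1.le

end Pool.PeriodicEffort
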