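import Mathlib

set_option autoImplicit false

namespace Pool.Agent.Helper20.ProjectiveBL

universe u v

/-- A (real) Banach lattice: a complete normed space with a vector lattice structure such that
`|x| ≤ |y|` implies `‖x‖ ≤ ‖y‖`. -/
structure BanachLattice : Type (u + 1) where
  /-- the underlying set -/
  carrier : Type u
  [normed : NormedAddCommGroup carrier]
  [space : NormedSpace ℝ carrier]
  [complete : CompleteSpace carrier]
  [lattice : Lattice carrier]
  [ordered : IsOrderedAddMonoid carrier]
  [posSMul : PosSMulMono ℝ carrier]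
  [solid : HasSolidNorm carrier]

attribute [instance] BanachLattice.normed BanachLattice.space BanachLattice.complete
  BanachLattice.lattice BanachLattice.ordered BanachLattice.posSMul BanachLattice.solid

instance : CoeSort BanachLattice.{u} (Type u) := ⟨BanachLattice.carrier⟩

/-- A closed (order) ideal of a Banach lattice `X`: a closed linear subspace `J` such that
`|x| ≤ |y|` and `y ∈ J` imply `x ∈ J`. -/
def IsClosedIdeal {X : BanachLattice.{u}} (J : Submodule ℝ X) : Prop :=
  IsClosed (J : Set X) ∧ ∀ x y : X, |x| ≤ |y| → y ∈ J → x ∈ J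

/-- The map `f : P → X` preserves finite suprema and infima. -/
def PreservesSupInf {P : BanachLattice.{u}} {X : BanachLattice.{v}} (f : P → X) : Prop :=
  ∀ p q : P, f (p ⊔ q) = f p ⊔ f q ∧ f (p ⊓ q) = f p ⊓ f q

/-- The class `[x] = x + J` of `x` in the quotient space `X/J`, the image of `x` under the quotient
map `Q : X → X/J`. -/
def cls {X : BanachLattice.{v}} (J : Submodule ℝ X) (x : X) : X ⧸ J := Submodule.Quotient.mk x

/-- `c` is the supremum of `a` and `b` in the quotient lattice `X/J`, whose lattice operations are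
`[x] ⊔ [y] = [x ⊔ y]` and `[x] ⊓ [y] = [x ⊓ y]`. -/
def IsQuotSup {X : BanachLattice.{v}} (J : Submodule ℝ X) (a b c : X ⧸ J) : Prop :=
  ∀ x y : X, cls J x = a → cls J y = b → cls J (x ⊔ y) = c

/-- `c` is the infimum of `a` and `b` in the quotient lattice `X/J`. -/
def IsQuotInf {X : BanachLattice.{v}} (J : Submodule ℝ X) (a b c : X ⧸ J) : Prop :=
  ∀ x y : X, cls J x = a → cls J y = b → cls J (x ⊓ y) = c

/-- The map `f : P → X/J` into the quotient lattice preserves finite suprema and infima. -/
def PreservesSupInfQuot {P : BanachLattice.{u}} {X : BanachLattice.{v}} (J : Submodule ℝ X)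
    (f : P → X ⧸ J) : Prop :=
  ∀ p q : P, IsQuotSup J (f p) (f q) (f (p ⊔ q)) ∧ IsQuotInf J (f p) (f q) (f (p ⊓ q))

/-- The map `f : P → X/J` has a lift of norm at most `C`: there is a lattice homomorphism (bounded
linear map preserving finite suprema and infima) `T' : P → X` with `Q ∘ T' = f`, where
`Q : X → X/J` is the quotient map, and `‖T'‖ ≤ C`. -/
def HasLift {P : BanachLattice.{u}} {X : BanachLattice.{v}} (J : Submodule ℝ X)
    (f : P → X ⧸ J) (C : ℝ) : Prop :=
  ∃ T' : P →L[ℝ] X, PreservesSupInf T' ∧ (∀ p, cls J (T' p) = f p) ∧ ‖T'‖ ≤ C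

/-- A Banach lattice `P` is projective: for every Banach lattice `X`, closed ideal `J` of `X`,
lattice homomorphism (that is, bounded linear map preserving finite suprema and infima)
`T : P → X/J` and `ε > 0` there is a lattice homomorphism `T' : P → X` with `Q ∘ T' = T`, where
`Q : X → X/J` is the quotient map, and `‖T'‖ ≤ (1 + ε) ‖T‖`. -/
def Projective (P : BanachLattice.{u}) : Prop :=
  ∀ (X : BanachLattice.{v}) (J : Submodule ℝ X), IsClosedIdeal J →
    ∀ T : P →L[ℝ] X ⧸ J, PreservesSupInfQuot J T → ∀ ε : ℝ, 0 < ε →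
      HasLift J T ((1 + ε) * ‖T‖)

/-- `P` has a topological order unit: some `e ≥ 0` such that the closed ideal generated by `e` is
all of `P`, that is, the only closed ideal containing `e` is `P`. -/
def HasTopologicalOrderUnit (P : BanachLattice.{u}) : Prop :=
  ∃ e : P, 0 ≤ e ∧ ∀ J : Submodule ℝ P, IsClosedIdeal J → e ∈ J → J = ⊤

theorem hasSolidNorm_pi {ι : Type*} [Fintype ι] (E : ι → Type*) [∀ i, NormedAddCommGroup (E i)]
    [∀ i, Lattice (E i)] [∀ i, HasSolidNorm (E i)] : HasSolidNorm (∀ i, E i) where
  solid x y h := by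
    rw [pi_norm_le_iff_of_nonneg (norm_nonneg y)]
    intro i
    exact (norm_le_norm_of_abs_le_abs (h i)).trans (norm_le_pi_norm y i)

/-- The `ℓ_∞`-sum of finitely many Banach lattices `P_1, ..., P_n`: the product with coordinatewise
operations and order and with the norm `‖(x_1, ..., x_n)‖ = max_k ‖x_k‖` (the norm of Mathlib on
finite products). -/
noncomputable def linftySum {n : ℕ} (P : Fin n → BanachLattice.{u}) : BanachLattice.{u} :=
  { carrier := ∀ k, P k
    solid := hasSolidNorm_pi _ }

end Pool.Agent.Helper20.ProjectiveBL
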