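import Pool.Agent.Helper20.ProjectiveBLDefs

/-!
Proofs for the negative answer to Q1 of MP_2139d9_an: `ℓ_1` and `ℝ` are projective Banach lattices
with topological order units, and `ℓ_1 ⊕_∞ ℝ` is not projective.
-/

set_option autoImplicit false

open Filter Topology

namespace Pool.Agent.Helper20.ProjectiveBL

universe u v

/-- auxiliary form of `PreservesSupInf` -/
def IsLatticeHom {P : BanachLattice.{u}} {X : BanachLattice.{v}} (T : P →L[ℝ] X) : Prop :=
  ∀ p q : P, T (p ⊔ q) = T p ⊔ T q ∧ T (p ⊓ q) = T p ⊓ T q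

/-- auxiliary form of `PreservesSupInfQuot` -/
def IsLatticeHomQuot {P : BanachLattice.{u}} {X : BanachLattice.{v}} (J : Submodule ℝ X)
    (T : P →L[ℝ] X ⧸ J) : Prop :=
  ∀ (p q : P) (x y : X), T p = J.mkQ x → T q = J.mkQ y →
    T (p ⊔ q) = J.mkQ (x ⊔ y) ∧ T (p ⊓ q) = J.mkQ (x ⊓ y)

section Prelim

section Group

variable {X : Type*} [AddCommGroup X] [Lattice X] [IsOrderedAddMonoid X]

theorem inf_add_le' {x y z : X} (hx : 0 ≤ x) (hy : 0 ≤ y) (hz : 0 ≤ z) :
    x ⊓ (y + z) ≤ x ⊓ y + x ⊓ z := by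
  rw [inf_add, add_inf, add_inf]
  refine le_inf (le_inf ?_ ?_) (le_inf ?_ ?_)
  · exact inf_le_left.trans (le_add_of_nonneg_left hx)
  · exact inf_le_left.trans (le_add_of_nonneg_right hz)
  · exact inf_le_left.trans (le_add_of_nonneg_left hy)
  · exact inf_le_right

theorem sub_inf_eq_sup (x c : X) : x - x ⊓ c = (x - c) ⊔ 0 := by
  rw [sub_eq_add_neg, neg_inf, add_sup, add_neg_cancel, ← sub_eq_add_neg, sup_comm]

theorem disj_sum {ι : Type*} (s : Finset ι) {a : X} (ha : 0 ≤ a) (f : ι → X)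
    (hf : ∀ i ∈ s, 0 ≤ f i) (hd : ∀ i ∈ s, a ⊓ f i = 0) : a ⊓ ∑ i ∈ s, f i = 0 := by
  classical
  induction s using Finset.induction_on with
  | empty => simpa using ha
  | insert i s his ih =>
    rw [Finset.sum_insert his]
    have h0 : 0 ≤ ∑ j ∈ s, f j :=
      Finset.sum_nonneg fun j hj => hf j (Finset.mem_insert_of_mem hj)
    have hi := hf i (Finset.mem_insert_self _ _)
    apply le_antisymm
    · refine (inf_add_le' ha hi h0).trans ?_
      rw [hd i (Finset.mem_insert_self _ _), ih (fun j hj => hf j (Finset.mem_insert_of_mem hj))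
        (fun j hj => hd j (Finset.mem_insert_of_mem hj)), add_zero]
    · exact le_inf ha (add_nonneg hi h0)

theorem abs_sup_sub_sup_le' (x y x' y' : X) : |x ⊔ y - x' ⊔ y'| ≤ |x - x'| + |y - y'| := by
  calc |x ⊔ y - x' ⊔ y'| = |(x ⊔ y - x' ⊔ y) + (x' ⊔ y - x' ⊔ y')| := by
        rw [sub_add_sub_cancel]
    _ ≤ |x ⊔ y - x' ⊔ y| + |x' ⊔ y - x' ⊔ y'| := abs_add_le _ _
    _ ≤ |x - x'| + |y - y'| := by
        refine add_le_add (abs_sup_sub_sup_le_abs _ _ _) ?_
        rw [sup_comm x' y, sup_comm x' y']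
        exact abs_sup_sub_sup_le_abs _ _ _

theorem abs_inf_sub_inf_le' (x y x' y' : X) : |x ⊓ y - x' ⊓ y'| ≤ |x - x'| + |y - y'| := by
  calc |x ⊓ y - x' ⊓ y'| = |(x ⊓ y - x' ⊓ y) + (x' ⊓ y - x' ⊓ y')| := by
        rw [sub_add_sub_cancel]
    _ ≤ |x ⊓ y - x' ⊓ y| + |x' ⊓ y - x' ⊓ y'| := abs_add_le _ _
    _ ≤ |x - x'| + |y - y'| := by
        refine add_le_add (abs_inf_sub_inf_le_abs _ _ _) ?_
        rw [inf_comm x' y, inf_comm x' y']
        exact abs_inf_sub_inf_le_abs _ _ _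

end Group

section Module

variable {X : Type*} [AddCommGroup X] [Module ℝ X] [Lattice X] [IsOrderedAddMonoid X]
  [PosSMulMono ℝ X]

omit [IsOrderedAddMonoid X] in
theorem smul_nonneg' {r : ℝ} {x : X} (hr : 0 ≤ r) (hx : 0 ≤ x) : 0 ≤ r • x := by
  have := smul_le_smul_of_nonneg_left hx hr
  rwa [smul_zero] at this

omit [IsOrderedAddMonoid X] in
theorem smul_inf' {r : ℝ} (hr : 0 ≤ r) (x y : X) : r • (x ⊓ y) = r • x ⊓ r • y := by
  rcases hr.eq_or_lt with rfl | hr
  · simp
  apply le_antisymm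
  · exact le_inf (smul_le_smul_of_nonneg_left inf_le_left hr.le)
      (smul_le_smul_of_nonneg_left inf_le_right hr.le)
  · have h : r⁻¹ • (r • x ⊓ r • y) ≤ x ⊓ y := by
      refine le_inf ?_ ?_
      · have := smul_le_smul_of_nonneg_left (inf_le_left (a := r • x) (b := r • y))
          (inv_nonneg.mpr hr.le)
        rwa [inv_smul_smul₀ hr.ne'] at this
      · have := smul_le_smul_of_nonneg_left (inf_le_right (a := r • x) (b := r • y))
          (inv_nonneg.mpr hr.le)
        rwa [inv_smul_smul₀ hr.ne'] at this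
    have := smul_le_smul_of_nonneg_left h hr.le
    rwa [smul_inv_smul₀ hr.ne'] at this

theorem smul_sup' {r : ℝ} (hr : 0 ≤ r) (x y : X) : r • (x ⊔ y) = r • x ⊔ r • y := by
  have h : ∀ a b : X, a ⊔ b = -(-a ⊓ -b) := fun a b => by rw [neg_inf, neg_neg, neg_neg]
  rw [h x y, smul_neg, smul_inf' hr, smul_neg, smul_neg, ← h]

theorem smul_le_smul_right' {r s : ℝ} (h : r ≤ s) {x : X} (hx : 0 ≤ x) : r • x ≤ s • x := by
  have := smul_nonneg' (sub_nonneg.mpr h) hx
  rw [sub_smul] at this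
  exact sub_nonneg.mp this

theorem smul_disj {a b : X} (ha : 0 ≤ a) (hb : 0 ≤ b) (hab : a ⊓ b = 0) {r s : ℝ} (hr : 0 ≤ r)
    (hs : 0 ≤ s) : r • a ⊓ s • b = 0 := by
  apply le_antisymm
  · have h1 : r • a ⊓ s • b ≤ (max r s) • a ⊓ (max r s) • b :=
      inf_le_inf (smul_le_smul_right' (le_max_left _ _) ha)
        (smul_le_smul_right' (le_max_right _ _) hb)
    rw [← smul_inf' (le_max_of_le_left hr), hab, smul_zero] at h1
    exact h1
  · exact le_inf (smul_nonneg' hr ha) (smul_nonneg' hs hb)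

end Module

end Prelim

section Quotient

variable {X : BanachLattice.{u}} {J : Submodule ℝ X}

theorem mem_of_abs_le_add (hJ : IsClosedIdeal J) {x a b : X} (ha : a ∈ J) (hb : b ∈ J)
    (h : |x| ≤ |a| + |b|) : x ∈ J := by
  have ha' : |a| ∈ J := hJ.2 _ _ (by rw [abs_abs]) ha
  have hb' : |b| ∈ J := hJ.2 _ _ (by rw [abs_abs]) hb
  refine hJ.2 x (|a| + |b|) ?_ (J.add_mem ha' hb')
  rwa [abs_of_nonneg (add_nonneg (abs_nonneg a) (abs_nonneg b))]

/-- The supremum in `X/J` is well defined. -/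
theorem mk_sup_congr (hJ : IsClosedIdeal J) {x y x' y' : X} (hx : J.mkQ x = J.mkQ x')
    (hy : J.mkQ y = J.mkQ y') : J.mkQ (x ⊔ y) = J.mkQ (x' ⊔ y') := by
  rw [Submodule.mkQ_apply, Submodule.mkQ_apply, Submodule.Quotient.eq] at *
  exact mem_of_abs_le_add hJ hx hy (abs_sup_sub_sup_le' _ _ _ _)

/-- The infimum in `X/J` is well defined. -/
theorem mk_inf_congr (hJ : IsClosedIdeal J) {x y x' y' : X} (hx : J.mkQ x = J.mkQ x')
    (hy : J.mkQ y = J.mkQ y') : J.mkQ (x ⊓ y) = J.mkQ (x' ⊓ y') := by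
  rw [Submodule.mkQ_apply, Submodule.mkQ_apply, Submodule.Quotient.eq] at *
  exact mem_of_abs_le_add hJ hx hy (abs_inf_sub_inf_le' _ _ _ _)

end Quotient

section L1

/-- `ℓ_1(ι)` -/
abbrev L1 (ι : Type u) : Type u := lp (fun _ : ι => ℝ) 1

variable {ι : Type u}

theorem memℓp_one_iff (f : ι → ℝ) : Memℓp f 1 ↔ Summable fun i => |f i| := by
  rw [memℓp_gen_iff (by simp)]
  simp

instance : LE (L1 ι) := ⟨fun x y => ∀ i, x i ≤ y i⟩

instance : LT (L1 ι) := ⟨fun x y => x ≤ y ∧ ¬ y ≤ x⟩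

instance : Max (L1 ι) := ⟨fun x y => ⟨fun i => x i ⊔ y i, by
  change Memℓp _ _
  have hx := (memℓp_one_iff _).1 (lp.memℓp x)
  have hy := (memℓp_one_iff _).1 (lp.memℓp y)
  rw [memℓp_one_iff]
  exact (hx.add hy).of_nonneg_of_le (fun i => abs_nonneg _) fun i =>
    abs_max_le_max_abs_abs.trans (max_le_add_of_nonneg (abs_nonneg _) (abs_nonneg _))⟩⟩

instance : Min (L1 ι) := ⟨fun x y => ⟨fun i => x i ⊓ y i, by
  change Memℓp _ _
  have hx := (memℓp_one_iff _).1 (lp.memℓp x)
  have hy := (memℓp_one_iff _).1 (lp.memℓp y)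
  rw [memℓp_one_iff]
  exact (hx.add hy).of_nonneg_of_le (fun i => abs_nonneg _) fun i =>
    abs_min_le_max_abs_abs.trans (max_le_add_of_nonneg (abs_nonneg _) (abs_nonneg _))⟩⟩

theorem L1.le_iff {x y : L1 ι} : x ≤ y ↔ ∀ i, x i ≤ y i := Iff.rfl

@[simp] theorem L1.sup_apply (x y : L1 ι) (i : ι) : (x ⊔ y) i = x i ⊔ y i := rfl

@[simp] theorem L1.inf_apply (x y : L1 ι) (i : ι) : (x ⊓ y) i = x i ⊓ y i := rfl

instance : Lattice (L1 ι) :=
  Function.Injective.lattice (fun x : L1 ι => (x : ι → ℝ)) (fun _ _ h => lp.ext h)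
    Iff.rfl Iff.rfl (fun _ _ => rfl) (fun _ _ => rfl)

instance : IsOrderedAddMonoid (L1 ι) where
  add_le_add_left x y h z := by
    intro i
    simpa using h i

instance : PosSMulMono ℝ (L1 ι) where
  smul_le_smul_of_nonneg_left r hr x y h := by
    intro i
    simpa using mul_le_mul_of_nonneg_left (h i) hr

theorem L1.norm_eq (x : L1 ι) : ‖x‖ = ∑' i, |x i| := by
  rw [lp.norm_eq_tsum_rpow (by simp)]
  simp

theorem L1.summable (x : L1 ι) : Summable fun i => |x i| :=
  (memℓp_one_iff _).1 (lp.memℓp x)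

@[simp] theorem L1.abs_apply (x : L1 ι) (i : ι) : |x| i = |x i| := rfl

instance : HasSolidNorm (L1 ι) where
  solid x y h := by
    rw [L1.norm_eq, L1.norm_eq]
    exact (L1.summable x).tsum_le_tsum (fun i => h i) (L1.summable y)

end L1

/-- `ℓ_1(ι)` as a Banach lattice -/
noncomputable abbrev l1 (ι : Type u) : BanachLattice.{u} := ⟨L1 ι⟩

section Lifting

variable {X : BanachLattice.{v}} {J : Submodule ℝ X}

theorem inf_mem_of_le (hJ : IsClosedIdeal J) {z w : X} (hz : 0 ≤ z) (hw : w ∈ J)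
    (hzw : z ≤ w) : z ∈ J := by
  refine hJ.2 z w ?_ hw
  rw [abs_of_nonneg hz]
  exact hzw.trans (le_abs_self w)

theorem inf_smul_mem (hJ : IsClosedIdeal J) {x y : X} (hx : 0 ≤ x) (hy : 0 ≤ y)
    (h : x ⊓ y ∈ J) {c : ℝ} (hc : 0 ≤ c) : x ⊓ c • y ∈ J := by
  refine inf_mem_of_le hJ (le_inf hx (smul_nonneg' hc hy)) (J.smul_mem (max 1 c) h) ?_
  rw [smul_inf' (le_max_of_le_left zero_le_one)]
  refine inf_le_inf ?_ (smul_le_smul_right' (le_max_right _ _) hy)
  have := smul_le_smul_right' (le_max_left 1 c) hx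
  rwa [one_smul] at this

theorem inf_sum_mem (hJ : IsClosedIdeal J) {ι : Type*} (s : Finset ι) {x : X} (hx : 0 ≤ x)
    (f : ι → X) (hf : ∀ i ∈ s, 0 ≤ f i) (h : ∀ i ∈ s, x ⊓ f i ∈ J) :
    x ⊓ ∑ i ∈ s, f i ∈ J := by
  classical
  induction s using Finset.induction_on with
  | empty =>
    rw [Finset.sum_empty, inf_eq_right.2 hx]
    exact J.zero_mem
  | insert i s his ih =>
    rw [Finset.sum_insert his]
    have h0 : 0 ≤ ∑ j ∈ s, f j :=
      Finset.sum_nonneg fun j hj => hf j (Finset.mem_insert_of_mem hj)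
    have hi := hf i (Finset.mem_insert_self _ _)
    refine inf_mem_of_le hJ (le_inf hx (add_nonneg hi h0)) (J.add_mem
      (h i (Finset.mem_insert_self _ _)) (ih (fun j hj => hf j (Finset.mem_insert_of_mem hj))
        (fun j hj => h j (Finset.mem_insert_of_mem hj)))) (inf_add_le' hx hi h0)

/-- Disjoint lifting of sequences which are disjoint in the quotient. -/
theorem lift_disjoint (hJ : IsClosedIdeal J) (x : ℕ → X) (hx : ∀ i, 0 ≤ x i) {C : ℝ}
    (hC : ∀ i, ‖x i‖ ≤ C) (hd : ∀ i j, i ≠ j → x i ⊓ x j ∈ J) :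
    ∃ w : ℕ → X, (∀ i, 0 ≤ w i) ∧ (∀ i, w i ≤ x i) ∧ (∀ i j, i ≠ j → w i ⊓ w j = 0) ∧
      ∀ i, J.mkQ (w i) = J.mkQ (x i) := by
  classical
  have hC0 : 0 ≤ C := (norm_nonneg _).trans (hC 0)
  set c : ℕ → ℕ → ℝ := fun i j => if j = i then 0 else 2 ^ i * (1 / 2) ^ j with hc
  have hc0 : ∀ i j, 0 ≤ c i j := by
    intro i j
    simp only [hc]
    split_ifs
    · exact le_rfl
    · positivity
  have hcle : ∀ i j, c i j ≤ 2 ^ i * (1 / 2) ^ j := by
    intro i j
    simp only [hc]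
    split_ifs
    · positivity
    · exact le_rfl
  have hsum : ∀ i, Summable fun j => c i j • x j := by
    intro i
    refine Summable.of_norm_bounded (g := fun j => 2 ^ i * (1 / 2) ^ j * C)
      ((summable_geometric_two.mul_left _).mul_right _) ?_
    intro j
    rw [norm_smul, Real.norm_of_nonneg (hc0 i j)]
    exact mul_le_mul (hcle i j) (hC j) (norm_nonneg _) (by positivity)
  set y : ℕ → X := fun i => ∑' j, c i j • x j with hy
  have hyle : ∀ i j, c i j • x j ≤ y i := by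
    intro i j
    exact (hsum i).le_tsum j fun k _ => smul_nonneg' (hc0 i k) (hx k)
  have hymem : ∀ i, x i ⊓ y i ∈ J := by
    intro i
    have ht : Tendsto (fun s : Finset ℕ => x i ⊓ ∑ j ∈ s, c i j • x j) atTop
        (𝓝 (x i ⊓ y i)) :=
      Tendsto.inf_nhds tendsto_const_nhds (hsum i).hasSum
    refine hJ.1.mem_of_tendsto ht (Eventually.of_forall fun s => ?_)
    refine inf_sum_mem hJ s (hx i) _ (fun j _ => smul_nonneg' (hc0 i j) (hx j)) ?_
    intro j _
    by_cases hij : j = i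
    · have : c i j = 0 := by simp [hc, hij]
      rw [this, zero_smul, inf_eq_right.2 (hx i)]
      exact J.zero_mem
    · exact inf_smul_mem hJ (hx i) (hx j) (hd i j (Ne.symm hij)) (hc0 i j)
  refine ⟨fun i => x i - x i ⊓ y i, ?_, ?_, ?_, ?_⟩
  · intro i
    exact sub_nonneg.2 inf_le_left
  · intro i
    refine sub_le_self _ (le_inf (hx i) ?_)
    exact tsum_nonneg fun j => smul_nonneg' (hc0 i j) (hx j)
  · intro i j hij
    simp only
    rw [sub_inf_eq_sup, sub_inf_eq_sup]
    have h1 : (x i - y i) ⊔ 0 ≤ (x i - c i j • x j) ⊔ 0 :=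
      sup_le_sup_right (sub_le_sub_left (hyle i j) _) _
    have h2 : (x j - y j) ⊔ 0 ≤ (x j - c j i • x i) ⊔ 0 :=
      sup_le_sup_right (sub_le_sub_left (hyle j i) _) _
    have hcc : c j i * c i j = 1 := by
      simp only [hc, if_neg hij, if_neg (Ne.symm hij)]
      have : (2 : ℝ) ^ j * (1 / 2) ^ i * (2 ^ i * (1 / 2) ^ j) =
        ((2 : ℝ) * (1 / 2)) ^ j * (2 * (1 / 2)) ^ i := by
        rw [mul_pow, mul_pow]; ring
      rw [this]
      norm_num
    have h3 : x j - c j i • x i = c j i • -(x i - c i j • x j) := by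
      rw [smul_neg, smul_sub, smul_smul, hcc, one_smul, neg_sub]
    have h4 : (x j - c j i • x i) ⊔ 0 = c j i • ((-(x i - c i j • x j)) ⊔ 0) := by
      rw [smul_sup' (hc0 j i), smul_zero, h3]
    have h6 : ((x i - c i j • x j) ⊔ 0) ⊓ ((-(x i - c i j • x j)) ⊔ 0) = 0 :=
      posPart_inf_negPart_eq_zero (x i - c i j • x j)
    have h7 : ((x i - c i j • x j) ⊔ 0) ⊓ ((x j - c j i • x i) ⊔ 0) = 0 := by
      rw [h4]
      have := smul_disj (le_sup_right) (le_sup_right) h6 zero_le_one (hc0 j i)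
      rwa [one_smul] at this
    apply le_antisymm
    · exact (inf_le_inf h1 h2).trans h7.le
    · exact le_inf le_sup_right le_sup_right
  · intro i
    rw [map_sub, sub_eq_self, Submodule.mkQ_apply, Submodule.Quotient.mk_eq_zero]
    exact hymem i

/-- A bounded linear map between Banach lattices which commutes with the positive part is a
lattice homomorphism. -/
theorem isLatticeHom_of_posPart {P : BanachLattice.{u}} (T : P →L[ℝ] X)
    (h : ∀ x : P, T (x ⊔ 0) = T x ⊔ 0) : IsLatticeHom T := by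
  have hsup : ∀ p q : P, T (p ⊔ q) = T p ⊔ T q := by
    intro p q
    have h1 : ∀ {Y : BanachLattice.{u}} (a b : Y), a ⊔ b = (a - b) ⊔ 0 + b := by
      intro Y a b
      rw [sup_add, sub_add_cancel, zero_add]
    have h2 : ∀ (a b : X), a ⊔ b = (a - b) ⊔ 0 + b := by
      intro a b
      rw [sup_add, sub_add_cancel, zero_add]
    rw [h1 p q, map_add, h, map_sub, ← h2]
  intro p q
  refine ⟨hsup p q, ?_⟩
  have h1 : p ⊓ q = -(-p ⊔ -q) := by rw [neg_sup, neg_neg, neg_neg]
  have h2 : T p ⊓ T q = -(-T p ⊔ -T q) := by rw [neg_sup, neg_neg, neg_neg]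
  rw [h1, map_neg, hsup, map_neg, map_neg, ← h2]

theorem mkQ_abs {P : BanachLattice.{u}} {T : P →L[ℝ] X ⧸ J} (hT : IsLatticeHomQuot J T) {p : P}
    (hp : 0 ≤ p) {x : X} (hx : T p = J.mkQ x) : J.mkQ |x| = T p := by
  have h := (hT p (-p) x (-x) hx (by rw [map_neg, map_neg, hx])).1
  have hpp : p ⊔ -p = p := abs_of_nonneg hp
  rw [hpp] at h
  exact h.symm

theorem exists_lift {P : BanachLattice.{u}} {T : P →L[ℝ] X ⧸ J} (hT : IsLatticeHomQuot J T)
    {p : P} (hp : 0 ≤ p) (hp1 : ‖p‖ ≤ 1) {C : ℝ} (hC : ‖T‖ < C) :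
    ∃ x : X, 0 ≤ x ∧ ‖x‖ ≤ C ∧ J.mkQ x = T p := by
  obtain ⟨x, hx, hxn⟩ := Submodule.Quotient.norm_mk_lt (T p) (sub_pos.2 hC)
  refine ⟨|x|, abs_nonneg x, ?_, mkQ_abs hT hp hx.symm⟩
  rw [norm_abs_eq_norm]
  have h1 : ‖T p‖ ≤ ‖T‖ := by
    refine (T.le_opNorm p).trans ?_
    exact mul_le_of_le_one_right (norm_nonneg _) hp1
  linarith

theorem projective_of_norm_pos {P : BanachLattice.{u}}
    (h : ∀ (X : BanachLattice.{v}) (J : Submodule ℝ X), IsClosedIdeal J →
    ∀ T : P →L[ℝ] X ⧸ J, IsLatticeHomQuot J T → ∀ C : ℝ, ‖T‖ < C →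
      ∃ T' : P →L[ℝ] X, IsLatticeHom T' ∧ (∀ p, J.mkQ (T' p) = T p) ∧ ‖T'‖ ≤ C) :
    Projective.{u, v} P := by
  intro X J hJ T hT' ε hε
  have hT : IsLatticeHomQuot J T := fun p q x y hx hy =>
    ⟨((hT' p q).1 x y hx.symm hy.symm).symm, ((hT' p q).2 x y hx.symm hy.symm).symm⟩
  rcases (norm_nonneg T).eq_or_lt with h0 | h0
  · refine ⟨0, ?_, ?_, ?_⟩
    · intro p q
      simp
    · intro p
      have h1 : ‖T p‖ ≤ 0 := (T.le_opNorm p).trans (by rw [← h0, zero_mul])
      have : IsClosed (J : Set X) := hJ.1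
      have h2 : T p = 0 := norm_le_zero_iff.1 h1
      rw [h2]
      rfl
    · simp [← h0]
  · exact h X J hJ T hT ((1 + ε) * ‖T‖) (by nlinarith)

variable (w : ℕ → X) (hw0 : ∀ i, 0 ≤ w i) {C : ℝ} (hwC : ∀ i, ‖w i‖ ≤ C)

include hwC in
theorem summable_smul (x : L1 ℕ) : Summable fun i => x i • w i := by
  refine Summable.of_norm_bounded (g := fun i => |x i| * C) ((L1.summable x).mul_right _) ?_
  intro i
  rw [norm_smul, Real.norm_eq_abs]
  exact mul_le_mul_of_nonneg_left (hwC i) (abs_nonneg _)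

/-- the map `ℓ_1 → X` sending the unit vectors to the bounded sequence `w` -/
noncomputable def ofSeq : L1 ℕ →L[ℝ] X :=
  LinearMap.mkContinuous
    { toFun := fun x => ∑' i, x i • w i
      map_add' := by
        intro x y
        rw [← (summable_smul w hwC x).tsum_add (summable_smul w hwC y)]
        refine tsum_congr fun i => ?_
        rw [lp.coeFn_add, Pi.add_apply, add_smul]
      map_smul' := by
        intro r x
        rw [RingHom.id_apply, ← (summable_smul w hwC x).tsum_const_smul r]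
        refine tsum_congr fun i => ?_
        rw [lp.coeFn_smul, Pi.smul_apply, smul_assoc] } C
    (by
      intro x
      simp only [LinearMap.coe_mk, AddHom.coe_mk]
      rw [L1.norm_eq, ← tsum_mul_left]
      refine tsum_of_norm_bounded (((L1.summable x).mul_left C).hasSum) ?_
      intro i
      rw [norm_smul, Real.norm_eq_abs, mul_comm]
      exact mul_le_mul_of_nonneg_right (hwC i) (abs_nonneg _))

theorem ofSeq_apply (x : L1 ℕ) : ofSeq w hwC x = ∑' i, x i • w i := rfl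

include hw0 in
theorem ofSeq_nonneg {x : L1 ℕ} (hx : ∀ i, 0 ≤ x i) : 0 ≤ ofSeq w hwC x := by
  rw [ofSeq_apply]
  exact tsum_nonneg fun i => smul_nonneg' (hx i) (hw0 i)

include hw0 in
theorem ofSeq_disj (hd : ∀ i j, i ≠ j → w i ⊓ w j = 0) {x y : L1 ℕ} (hx : ∀ i, 0 ≤ x i)
    (hy : ∀ i, 0 ≤ y i) (hxy : ∀ i, x i = 0 ∨ y i = 0) :
    ofSeq w hwC x ⊓ ofSeq w hwC y = 0 := by
  have ht : Tendsto (fun s : Finset ℕ => (∑ i ∈ s, x i • w i) ⊓ ∑ j ∈ s, y j • w j) atTop
      (𝓝 (ofSeq w hwC x ⊓ ofSeq w hwC y)) :=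
    Tendsto.inf_nhds (summable_smul w hwC x).hasSum (summable_smul w hwC y).hasSum
  have h0 : (fun s : Finset ℕ => (∑ i ∈ s, x i • w i) ⊓ ∑ j ∈ s, y j • w j) =
      fun _ => (0 : X) := by
    funext s
    refine disj_sum s (Finset.sum_nonneg fun i _ => smul_nonneg' (hx i) (hw0 i)) _
      (fun j _ => smul_nonneg' (hy j) (hw0 j)) ?_
    intro j _
    rw [inf_comm]
    refine disj_sum s (smul_nonneg' (hy j) (hw0 j)) _
      (fun i _ => smul_nonneg' (hx i) (hw0 i)) ?_
    intro i _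
    by_cases hij : i = j
    · subst hij
      rcases hxy i with h | h
      · rw [h, zero_smul, inf_eq_right]
        exact smul_nonneg' (hy i) (hw0 i)
      · rw [h, zero_smul, inf_eq_left]
        exact smul_nonneg' (hx i) (hw0 i)
    · exact smul_disj (hw0 j) (hw0 i) (hd j i (Ne.symm hij)) (hy j) (hx i)
  rw [h0] at ht
  exact (tendsto_nhds_unique ht tendsto_const_nhds)

end Lifting

theorem l1_sub_parts (x : L1 ℕ) : x = x ⊔ 0 - (-x) ⊔ 0 := by
  apply lp.ext
  funext i
  have : (x ⊔ 0 - (-x) ⊔ 0 : L1 ℕ) i = x i ⊔ 0 - (-x i) ⊔ 0 := rfl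
  rw [this]
  rcases le_total 0 (x i) with h | h
  · rw [sup_of_le_left h, sup_of_le_right (neg_nonpos.2 h), sub_zero]
  · rw [sup_of_le_right h, sup_of_le_left (neg_nonneg.2 h), zero_sub, neg_neg]

/-- `ℓ_1` is projective. -/
theorem projective_l1 : Projective.{0, v} (l1 ℕ) := by
  classical
  apply projective_of_norm_pos
  intro X J hJ T hT C hC
  set e : ℕ → L1 ℕ := fun i => (lp.single 1 i (1 : ℝ) : L1 ℕ) with he
  have he_apply : ∀ i j, e i j = if j = i then 1 else 0 := by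
    intro i j
    simp only [he]
    by_cases h : j = i
    · subst h; simp
    · simp [h]
  have he0 : ∀ i, 0 ≤ e i := by
    intro i j
    change (0 : ℝ) ≤ e i j
    rw [he_apply]
    split_ifs <;> norm_num
  have hed : ∀ i j, i ≠ j → e i ⊓ e j = 0 := by
    intro i j hij
    apply lp.ext
    funext m
    change e i m ⊓ e j m = 0
    rw [he_apply, he_apply]
    by_cases h1 : m = i
    · have h2 : m ≠ j := fun h => hij (h1.symm.trans h)
      simp [h1]
      rw [if_neg hij]
      simp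
    · simp [h1]
      split_ifs <;> simp
  have hen : ∀ i, ‖e i‖ ≤ 1 := by
    intro i
    have : ‖(lp.single 1 i (1 : ℝ) : L1 ℕ)‖ = ‖(1 : ℝ)‖ := lp.norm_single (by norm_num) i 1
    change ‖(lp.single 1 i (1 : ℝ) : L1 ℕ)‖ ≤ 1
    rw [this]
    simp
  choose x hx0 hxC hx using fun i => exists_lift hT (he0 i) (hen i) hC
  obtain ⟨w, hw0, hwx, hwd, hw⟩ := lift_disjoint hJ x hx0 hxC (by
    intro i j hij
    have h := (hT (e i) (e j) (x i) (x j) (hx i).symm (hx j).symm).2
    rw [hed i j hij, map_zero] at h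
    rw [← Submodule.Quotient.mk_eq_zero]
    exact h.symm)
  have hwC : ∀ i, ‖w i‖ ≤ C := by
    intro i
    refine (norm_le_norm_of_abs_le_abs ?_).trans (hxC i)
    rw [abs_of_nonneg (hw0 i), abs_of_nonneg (hx0 i)]
    exact hwx i
  have hC0 : 0 ≤ C := (norm_nonneg _).trans (hxC 0)
  refine ⟨ofSeq w hwC, ?_, ?_, LinearMap.mkContinuous_norm_le _ hC0 _⟩
  · apply isLatticeHom_of_posPart
    intro (p : L1 ℕ)
    have h1 : ofSeq w hwC p = ofSeq w hwC (p ⊔ 0) - ofSeq w hwC ((-p) ⊔ 0) := by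
      rw [← map_sub]
      exact congrArg _ (l1_sub_parts p)
    have h2 : ofSeq w hwC (p ⊔ 0) ⊓ ofSeq w hwC ((-p) ⊔ 0) = 0 := by
      apply ofSeq_disj w hw0 hwC hwd
      · intro i
        exact le_sup_right
      · intro i
        exact le_sup_right
      · intro i
        change p i ⊔ 0 = 0 ∨ (-p i) ⊔ 0 = 0
        rcases le_total 0 (p i) with h | h
        · right
          exact sup_of_le_right (neg_nonpos.2 h)
        · left
          exact sup_of_le_right h
    change ofSeq w hwC (p ⊔ 0) = ofSeq w hwC p ⊔ 0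
    rw [h1, ← sub_inf_eq_sup, h2, sub_zero]
  · have : IsClosed (J : Set X) := hJ.1
    have hcomp : (J.mkQL).comp (ofSeq w hwC) = (T : L1 ℕ →L[ℝ] X ⧸ J) := by
      apply lp.ext_continuousLinearMap (by norm_num)
      intro i
      ext
      simp only [ContinuousLinearMap.comp_apply, lp.singleContinuousLinearMap_apply]
      have h1 : ofSeq w hwC (lp.single 1 i (1 : ℝ)) = w i := by
        rw [ofSeq_apply, tsum_eq_single i]
        · simp
        · intro j hj
          simp [hj]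
      rw [h1, Submodule.mkQL_apply, hw]
      exact hx i
    intro p
    exact congrArg (fun F => F p) hcomp

/-- `ℓ_1` has a topological order unit. -/
theorem unit_l1 : HasTopologicalOrderUnit (l1 ℕ) := by
  classical
  have hmem : Memℓp (fun i : ℕ => (1 / 2 : ℝ) ^ i) 1 := by
    rw [memℓp_one_iff]
    refine summable_geometric_two.congr fun i => ?_
    rw [abs_of_nonneg (by positivity)]
  let e : L1 ℕ := ⟨fun i : ℕ => (1 / 2 : ℝ) ^ i, hmem⟩
  have he : ∀ i, e i = (1 / 2 : ℝ) ^ i := fun i => rfl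
  refine ⟨e, fun i => ?_, ?_⟩
  · change (0 : ℝ) ≤ e i
    rw [he]
    positivity
  · intro J hJ heJ
    rw [eq_top_iff]
    intro (x : L1 ℕ) _
    have hs : HasSum (fun i => (lp.single 1 i (x i) : L1 ℕ)) x :=
      lp.hasSum_single (by norm_num) x
    refine hJ.1.mem_of_tendsto hs (Eventually.of_forall fun s => ?_)
    refine J.sum_mem fun i _ => ?_
    refine hJ.2 (lp.single 1 i (x i) : L1 ℕ) ((|x i| * 2 ^ i) • e) ?_ (J.smul_mem _ heJ)
    intro j
    change |(lp.single 1 i (x i) : L1 ℕ) j| ≤ |((|x i| * 2 ^ i) • e : L1 ℕ) j|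
    by_cases h : j = i
    · subst h
      have h1 : ((|x j| * 2 ^ j) • e : L1 ℕ) j = |x j| := by
        change (|x j| * 2 ^ j) * (1 / 2 : ℝ) ^ j = |x j|
        rw [mul_assoc, ← mul_pow]
        norm_num
      rw [h1]
      simp
    · simp only [lp.single_apply_ne 1 i _ h, abs_zero]
      exact abs_nonneg _

/-- `ℝ` as a Banach lattice -/
noncomputable abbrev realBL : BanachLattice.{0} := ⟨ℝ⟩

/-- `ℝ` is projective. -/
theorem projective_real : Projective.{0, v} realBL := by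
  apply projective_of_norm_pos
  intro X J hJ T hT C hC
  obtain ⟨x, hx0, hxC, hx⟩ := exists_lift hT (p := (1 : ℝ)) zero_le_one (by simp) hC
  refine ⟨ContinuousLinearMap.toSpanSingleton ℝ x, ?_, ?_, ?_⟩
  · apply isLatticeHom_of_posPart
    intro (r : ℝ)
    change (r ⊔ 0) • x = r • x ⊔ 0
    rcases le_total 0 r with h | h
    · rw [sup_of_le_left h, sup_of_le_left (smul_nonneg' h hx0)]
    · rw [sup_of_le_right h, zero_smul, sup_of_le_right]
      have := smul_nonneg' (neg_nonneg.2 h) hx0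
      rw [neg_smul] at this
      exact neg_nonneg.1 this
  · intro (r : ℝ)
    change J.mkQ (r • x) = T r
    rw [map_smul, hx, ← map_smul]
    congr 1
    simp
  · rw [ContinuousLinearMap.norm_toSpanSingleton]
    exact hxC

/-- `ℝ` has a topological order unit. -/
theorem unit_real : HasTopologicalOrderUnit realBL := by
  refine ⟨(1 : ℝ), zero_le_one, ?_⟩
  intro J _ h1
  rw [eq_top_iff]
  intro (x : ℝ) _
  have := J.smul_mem x h1
  simpa using this

section Counterexample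

open BoundedContinuousFunction

variable {ι : Type v} [DecidableEq ι] (a b : ι)

/-- the point of `ℓ_1(ι)` with coordinates `s` at `a` and `t` at `b` -/
noncomputable def pt (s t : ℝ) : L1 ι := lp.single 1 a s + lp.single 1 b t

variable {a b} (hab : a ≠ b)

theorem pt_apply (s t : ℝ) (c : ι) :
    pt a b s t c = (if c = a then s else 0) + if c = b then t else 0 := by
  simp only [pt, lp.coeFn_add, Pi.add_apply]
  congr 1
  · by_cases h : c = a
    · subst h; simp
    · simp [h]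
  · by_cases h : c = b
    · subst h; simp
    · simp [h]

include hab in
theorem pt_a (s t : ℝ) : pt a b s t a = s := by
  rw [pt_apply, if_pos rfl, if_neg hab, add_zero]

include hab in
theorem pt_b (s t : ℝ) : pt a b s t b = t := by
  rw [pt_apply, if_pos rfl, if_neg hab.symm, zero_add]

theorem norm_pt_le (s t : ℝ) : ‖pt a b s t‖ ≤ |s| + |t| := by
  refine (norm_add_le _ _).trans ?_
  rw [lp.norm_single (by norm_num), lp.norm_single (by norm_num), Real.norm_eq_abs,
    Real.norm_eq_abs]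

include hab in
theorem pt_sup (s t s' t' : ℝ) : pt a b (s ⊔ s') (t ⊔ t') = pt a b s t ⊔ pt a b s' t' := by
  apply lp.ext
  funext c
  rw [L1.sup_apply, pt_apply, pt_apply, pt_apply]
  by_cases h1 : c = a
  · subst h1
    simp [hab]
  · by_cases h2 : c = b
    · subst h2
      simp [h1]
    · simp [h1, h2]

include hab in
theorem abs_add_abs_le_norm (x : L1 ι) : |x a| + |x b| ≤ ‖x‖ := by
  rw [L1.norm_eq]
  have := (L1.summable x).sum_le_tsum {a, b} (fun i _ => abs_nonneg _)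
  rwa [Finset.sum_pair hab] at this

instance : PosSMulMono ℝ (ℕ →ᵇ L1 ι) where
  smul_le_smul_of_nonneg_left r hr x y h := by
    intro i
    exact smul_le_smul_of_nonneg_left (h i) hr

/-- the Banach lattice `ℓ_∞(ℓ_1(ι))` -/
noncomputable abbrev bigX (ι : Type v) : BanachLattice.{v} := ⟨ℕ →ᵇ L1 ι⟩

omit [DecidableEq ι] in
theorem abs_le_apply {x y : ℕ →ᵇ L1 ι} (h : |x| ≤ |y|) (i : ℕ) (c : ι) : |x i c| ≤ |y i c| :=
  h i c

variable (a b) in
/-- the closed ideal of all sequences whose `a`-coordinate vanishes and whose `b`-coordinate tends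
to `0` -/
noncomputable def idealJ : Submodule ℝ (ℕ →ᵇ L1 ι) where
  carrier := {g | (∀ i, g i a = 0) ∧ Tendsto (fun i => g i b) atTop (𝓝 0)}
  add_mem' := by
    rintro g h ⟨hg1, hg2⟩ ⟨hh1, hh2⟩
    refine ⟨fun i => ?_, ?_⟩
    · change g i a + h i a = 0
      rw [hg1, hh1, add_zero]
    · have := hg2.add hh2
      rw [add_zero] at this
      exact this
  zero_mem' := ⟨fun i => rfl, tendsto_const_nhds⟩
  smul_mem' := by
    rintro r g ⟨hg1, hg2⟩
    refine ⟨fun i => ?_, ?_⟩
    · change r * g i a = 0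
      rw [hg1, mul_zero]
    · have := hg2.const_mul r
      rw [mul_zero] at this
      exact this

omit [DecidableEq ι] in
theorem coord_le_norm (x : ℕ →ᵇ L1 ι) (i : ℕ) (c : ι) : |x i c| ≤ ‖x‖ :=
  (lp.norm_apply_le_norm (by norm_num) (x i) c).trans (x.norm_coe_le_norm i)

omit [DecidableEq ι] in
theorem isClosedIdeal_J : IsClosedIdeal (X := bigX ι) (idealJ a b) := by
  constructor
  · rw [← closure_subset_iff_isClosed]
    intro g hg
    rw [Metric.mem_closure_iff] at hg
    constructor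
    · intro i
      by_contra hne
      obtain ⟨h, hh, hd⟩ := hg (|g i a|) (abs_pos.2 hne)
      rw [dist_eq_norm] at hd
      have h1 := coord_le_norm (g - h) i a
      have h2 : (g - h) i a = g i a - h i a := rfl
      rw [h2, hh.1 i, sub_zero] at h1
      exact absurd hd (not_lt.2 h1)
    · rw [Metric.tendsto_atTop]
      intro ε hε
      obtain ⟨h, hh, hd⟩ := hg (ε / 2) (half_pos hε)
      obtain ⟨N, hN⟩ := (Metric.tendsto_atTop.1 hh.2) (ε / 2) (half_pos hε)
      refine ⟨N, fun n hn => ?_⟩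
      have h1 := hN n hn
      rw [dist_eq_norm] at hd
      rw [Real.dist_eq, sub_zero] at h1 ⊢
      have h2 := coord_le_norm (g - h) n b
      have h3 : (g - h) n b = g n b - h n b := rfl
      rw [h3] at h2
      have h4 : |g n b| ≤ |g n b - h n b| + |h n b| := by
        have := abs_add_le (g n b - h n b) (h n b)
        rwa [sub_add_cancel] at this
      have hd' : ‖g - h‖ < ε / 2 := hd
      linarith
  · rintro x y hxy ⟨hy1, hy2⟩
    constructor
    · intro i
      have := abs_le_apply hxy i a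
      rw [hy1, abs_zero] at this
      exact abs_nonpos_iff.1 this
    · rw [tendsto_zero_iff_abs_tendsto_zero] at hy2 ⊢
      exact squeeze_zero (fun i => abs_nonneg _) (fun i => abs_le_apply hxy i b) hy2

/-- the pair `ℓ_1, ℝ` -/
noncomputable abbrev pair : Fin 2 → BanachLattice.{0} := ![l1 ℕ, realBL]

/-- first coordinate -/
noncomputable def p0 : linftySum pair →L[ℝ] L1 ℕ := ContinuousLinearMap.proj (0 : Fin 2)

/-- second coordinate -/
noncomputable def p1 : linftySum pair →L[ℝ] ℝ := ContinuousLinearMap.proj (1 : Fin 2)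

theorem norm_p0_le (f : linftySum pair) : ‖p0 f‖ ≤ ‖f‖ :=
  norm_le_pi_norm (ι := Fin 2) (G := fun k => (pair k).carrier) f 0

theorem norm_p1_le (f : linftySum pair) : ‖p1 f‖ ≤ ‖f‖ :=
  norm_le_pi_norm (ι := Fin 2) (G := fun k => (pair k).carrier) f 1

theorem p0_sup (f g : linftySum pair) : p0 (f ⊔ g) = p0 f ⊔ p0 g := rfl

theorem p1_sup (f g : linftySum pair) : p1 (f ⊔ g) = p1 f ⊔ p1 g := rfl

theorem p0_inf (f g : linftySum pair) : p0 (f ⊓ g) = p0 f ⊓ p0 g := rfl

theorem p1_inf (f g : linftySum pair) : p1 (f ⊓ g) = p1 f ⊓ p1 g := rfl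

/-- the element of the sum with coordinates `x` and `t` -/
noncomputable def mkPair (x : L1 ℕ) (t : ℝ) : linftySum pair :=
  Fin.cons (α := fun k : Fin 2 => (pair k).carrier) x
    (Fin.cons (α := fun k : Fin 1 => (pair k.succ).carrier) t finZeroElim)

theorem p0_mkPair (x : L1 ℕ) (t : ℝ) : p0 (mkPair x t) = x := rfl

theorem p1_mkPair (x : L1 ℕ) (t : ℝ) : p1 (mkPair x t) = t := rfl

theorem norm_mkPair_le {x : L1 ℕ} {t C : ℝ} (hC : 0 ≤ C) (hx : ‖x‖ ≤ C) (ht : |t| ≤ C) :
    ‖mkPair x t‖ ≤ C := by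
  refine (pi_norm_le_iff_of_nonneg (ι := Fin 2) (G := fun k => (pair k).carrier) hC).2 ?_
  intro k
  fin_cases k
  · exact hx
  · exact ht

/-- a bounded sequence in `ℓ_1(ι)` supported on the coordinates `a` and `b` -/
noncomputable def ptSeq (a b : ι) (s t : ℕ → ℝ) (C : ℝ) (h : ∀ i, |s i| + |t i| ≤ C) :
    ℕ →ᵇ L1 ι :=
  BoundedContinuousFunction.ofNormedAddCommGroupDiscrete (fun i => pt a b (s i) (t i)) C
    fun i => (norm_pt_le _ _).trans (h i)

theorem ptSeq_apply (s t : ℕ → ℝ) (C : ℝ) (h : ∀ i, |s i| + |t i| ≤ C) (i : ℕ) :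
    ptSeq a b s t C h i = pt a b (s i) (t i) := rfl

theorem norm_ptSeq_le (s t : ℕ → ℝ) (C : ℝ) (hC : 0 ≤ C) (h : ∀ i, |s i| + |t i| ≤ C) :
    ‖ptSeq a b s t C h‖ ≤ C :=
  (BoundedContinuousFunction.norm_le hC).2 fun i => (norm_pt_le _ _).trans (h i)

theorem bound_S (f : linftySum pair) (i : ℕ) : |p0 f i| + |p1 f| ≤ 2 * ‖f‖ := by
  have h1 : |p0 f i| ≤ ‖f‖ := (lp.norm_apply_le_norm (by norm_num) (p0 f) i).trans (norm_p0_le f)
  have h2 : |p1 f| ≤ ‖f‖ := norm_p1_le f
  linarith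

theorem pt_add (s t s' t' : ℝ) : pt a b (s + s') (t + t') = pt a b s t + pt a b s' t' := by
  simp only [pt, lp.single_add]
  abel

theorem pt_smul (r s t : ℝ) : pt a b (r * s) (r * t) = r • pt a b s t := by
  simp only [pt, smul_add, ← smul_eq_mul, lp.single_smul]

variable (a b) in
/-- the map `S : ℓ_1 ⊕ ℝ → ℓ_∞(ℓ_1(ι))`, `S(x, t)(i) = x_i δ_a + t δ_b` -/
noncomputable def mapS : linftySum pair →L[ℝ] (ℕ →ᵇ L1 ι) :=
  LinearMap.mkContinuous
    { toFun := fun f => ptSeq a b (fun i => p0 f i) (fun _ => p1 f) (2 * ‖f‖) (bound_S f)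
      map_add' := by
        intro f g
        ext1 i
        change pt a b (p0 (f + g) i) (p1 (f + g)) = pt a b (p0 f i) (p1 f) + pt a b (p0 g i) (p1 g)
        rw [← pt_add, map_add, map_add]
        rfl
      map_smul' := by
        intro r f
        ext1 i
        change pt a b (p0 (r • f) i) (p1 (r • f)) = r • pt a b (p0 f i) (p1 f)
        rw [← pt_smul, map_smul, map_smul]
        rfl } 2
    (fun f => norm_ptSeq_le _ _ _ (by positivity) (bound_S f))

theorem mapS_apply (f : linftySum pair) (i : ℕ) : mapS a b f i = pt a b (p0 f i) (p1 f) := rfl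

include hab in
theorem mapS_sup (f g : linftySum pair) : mapS a b (f ⊔ g) = mapS a b f ⊔ mapS a b g := by
  ext1 i
  change pt a b (p0 f i ⊔ p0 g i) (p1 f ⊔ p1 g) = pt a b (p0 f i) (p1 f) ⊔ pt a b (p0 g i) (p1 g)
  exact pt_sup hab _ _ _ _

include hab in
theorem isLatticeHom_mapS : IsLatticeHom (P := linftySum pair) (X := bigX ι) (mapS a b) := by
  apply isLatticeHom_of_posPart
  intro f
  have := mapS_sup hab f 0
  rwa [map_zero] at this

variable (a b) in
/-- the lattice homomorphism `T : ℓ_1 ⊕ ℝ → X/J` -/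
noncomputable def mapT : linftySum pair →L[ℝ] (ℕ →ᵇ L1 ι) ⧸ idealJ a b :=
  (idealJ a b).mkQL.comp (mapS a b)

include hab in
theorem isLatticeHomQuot_mapT :
    IsLatticeHomQuot (P := linftySum pair) (X := bigX ι) (idealJ a b) (mapT a b) := by
  intro p q x y hx hy
  have h := isLatticeHom_mapS hab p q
  constructor
  · change (idealJ a b).mkQ (mapS a b (p ⊔ q)) = _
    rw [h.1]
    exact mk_sup_congr (X := bigX ι) isClosedIdeal_J hx hy
  · change (idealJ a b).mkQ (mapS a b (p ⊓ q)) = _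
    rw [h.2]
    exact mk_inf_congr (X := bigX ι) isClosedIdeal_J hx hy

/-- truncation -/
noncomputable def clamp (m t : ℝ) : ℝ := max (-m) (min t m)

theorem abs_clamp_le {m t : ℝ} (hm : 0 ≤ m) : |clamp m t| ≤ m := by
  rw [clamp, abs_le]
  exact ⟨le_max_left _ _, max_le (by linarith) (min_le_right _ _)⟩

theorem clamp_of_le {m t : ℝ} (h : |t| ≤ m) : clamp m t = t := by
  rw [abs_le] at h
  rw [clamp, min_eq_left h.2, max_eq_right h.1]

theorem continuous_clamp (t : ℝ) : Continuous fun m => clamp m t := by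
  unfold clamp
  fun_prop

theorem tendsto_p0 (f : linftySum pair) : Tendsto (fun i => |p0 f i|) atTop (𝓝 0) := by
  have := (L1.summable (p0 f)).tendsto_cofinite_zero
  rwa [Nat.cofinite_eq_atTop] at this

include hab in
theorem norm_mapT_le : ‖mapT a b‖ ≤ 1 := by
  refine ContinuousLinearMap.opNorm_le_bound _ zero_le_one fun f => ?_
  rw [one_mul]
  have h0 : ∀ i, |p0 f i| ≤ ‖f‖ := fun i =>
    (lp.norm_apply_le_norm (by norm_num) (p0 f) i).trans (norm_p0_le f)
  have hz : ∀ i, |p0 f i| + |clamp (‖f‖ - |p0 f i|) (p1 f)| ≤ ‖f‖ := by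
    intro i
    have := abs_clamp_le (t := p1 f) (sub_nonneg.2 (h0 i))
    linarith
  set z : ℕ →ᵇ L1 ι := ptSeq a b (fun i => p0 f i) (fun i => clamp (‖f‖ - |p0 f i|) (p1 f)) ‖f‖ hz
    with hzdef
  have hmk : mapT a b f = (idealJ a b).mkQ z := by
    change (idealJ a b).mkQ (mapS a b f) = (idealJ a b).mkQ z
    rw [Submodule.mkQ_apply, Submodule.mkQ_apply, Submodule.Quotient.eq]
    constructor
    · intro i
      change (pt a b (p0 f i) (p1 f)) a - (pt a b (p0 f i) (clamp (‖f‖ - |p0 f i|) (p1 f))) a = 0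
      rw [pt_a hab, pt_a hab, sub_self]
    · have h1 : (fun i => (mapS a b f - z : ℕ →ᵇ L1 ι) i b) =
          fun i => p1 f - clamp (‖f‖ - |p0 f i|) (p1 f) := by
        funext i
        change (pt a b (p0 f i) (p1 f)) b -
          (pt a b (p0 f i) (clamp (‖f‖ - |p0 f i|) (p1 f))) b = _
        rw [pt_b hab, pt_b hab]
      rw [h1]
      have h2 : Tendsto (fun i => ‖f‖ - |p0 f i|) atTop (𝓝 ‖f‖) := by
        have := (tendsto_p0 f).const_sub ‖f‖
        rwa [sub_zero] at this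
      have h3 := (((continuous_clamp (p1 f)).tendsto ‖f‖).comp h2).const_sub (p1 f)
      rw [clamp_of_le (norm_p1_le f), sub_self] at h3
      exact h3
  rw [hmk]
  exact (Submodule.Quotient.norm_mk_le _ _).trans (norm_ptSeq_le _ _ _ (norm_nonneg _) _)

theorem mkPair_add (x y : L1 ℕ) (s t : ℝ) : mkPair (x + y) (s + t) = mkPair x s + mkPair y t := by
  funext k
  fin_cases k <;> rfl

theorem mkPair_nonneg {x : L1 ℕ} {t : ℝ} (hx : 0 ≤ x) (ht : 0 ≤ t) : 0 ≤ mkPair x t := by
  intro k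
  fin_cases k
  · exact hx
  · exact ht

/-- `ℓ_1 ⊕_∞ ℝ` is not projective. -/
theorem not_projective : ¬ Projective.{0, v} (linftySum pair) := by
  classical
  intro hproj
  let a : ULift.{v} ℕ := ⟨0⟩
  let b : ULift.{v} ℕ := ⟨1⟩
  have hab : a ≠ b := fun h => by
    have := congrArg ULift.down h
    exact absurd this (by decide)
  obtain ⟨T', hT', hTT', hn⟩ := hproj (bigX (ULift.{v} ℕ)) (idealJ a b) isClosedIdeal_J
    (mapT a b) (fun p q => ⟨fun x y hx hy => (isLatticeHomQuot_mapT hab p q x y hx.symm hy.symm).1.symm,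
      fun x y hx hy => (isLatticeHomQuot_mapT hab p q x y hx.symm hy.symm).2.symm⟩)
    (1 / 2) (by norm_num)
  have hn' : ‖T'‖ ≤ 3 / 2 := by
    refine hn.trans ?_
    have := norm_mapT_le hab
    linarith
  have hpos : ∀ p : linftySum pair, 0 ≤ p → 0 ≤ T' p := by
    intro p hp
    have h1 := (hT' p 0).1
    rw [map_zero, sup_of_le_left hp] at h1
    rw [h1]
    exact le_sup_right
  have hdiff : ∀ p : linftySum pair, (T' p - mapS a b p : ℕ →ᵇ L1 (ULift.{v} ℕ)) ∈ idealJ a b := by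
    intro p
    have h1 : (idealJ a b).mkQ (T' p) = (idealJ a b).mkQ (mapS a b p) := hTT' p
    rwa [Submodule.mkQ_apply, Submodule.mkQ_apply, Submodule.Quotient.eq] at h1
  set g : ℕ →ᵇ L1 (ULift.{v} ℕ) := T' (mkPair 0 1) with hg
  have hgb : Tendsto (fun i => g i b) atTop (𝓝 1) := by
    have h1 := (hdiff (mkPair 0 1)).2
    have h2 : (fun i => (T' (mkPair 0 1) - mapS a b (mkPair 0 1) : ℕ →ᵇ L1 (ULift.{v} ℕ)) i b) =
        fun i => g i b - 1 := by
      funext i
      change g i b - (pt a b ((0 : L1 ℕ) i) 1) b = g i b - 1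
      rw [pt_b hab]
    rw [h2] at h1
    have h3 := h1.add_const 1
    simpa using h3
  have hga : ∀ i, g i a = 0 := by
    intro i
    have h1 := (hdiff (mkPair 0 1)).1 i
    have h2 : g i a - (pt a b ((0 : L1 ℕ) i) 1) a = 0 := h1
    rw [pt_a hab, sub_eq_zero] at h2
    exact h2
  have hle : ∀ i, g i b ≤ 1 / 2 := by
    intro i
    set e : L1 ℕ := lp.single 1 i (1 : ℝ) with he
    have he0 : 0 ≤ e := by
      intro j
      change (0 : ℝ) ≤ e j
      by_cases h : j = i
      · subst h; simp [he]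
      · simp [he, h]
    have hen : ‖e‖ ≤ 1 := by
      rw [he, lp.norm_single (by norm_num)]
      simp
    set k : ℕ →ᵇ L1 (ULift.{v} ℕ) := T' (mkPair e 0) with hk
    have hka : k i a = 1 := by
      have h1 := (hdiff (mkPair e 0)).1 i
      have h2 : k i a - (pt a b (e i) 0) a = 0 := h1
      rw [pt_a hab, sub_eq_zero] at h2
      rw [h2, he]
      simp
    have hkb : 0 ≤ k i b := hpos (mkPair e 0) (mkPair_nonneg he0 le_rfl) i b
    have hsum : T' (mkPair e 1) = k + g := by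
      have h1 : mkPair e 1 = mkPair e 0 + mkPair 0 1 := by
        rw [← mkPair_add, add_zero, zero_add]
      rw [h1, map_add]
    have h1 : ‖T' (mkPair e 1)‖ ≤ 3 / 2 := by
      refine (T'.le_opNorm _).trans ?_
      have h2 : ‖mkPair e 1‖ ≤ 1 := norm_mkPair_le zero_le_one hen (by simp)
      calc ‖T'‖ * ‖mkPair e 1‖ ≤ (3 / 2) * 1 :=
            mul_le_mul hn' h2 (norm_nonneg _) (by norm_num)
        _ = 3 / 2 := by norm_num
    rw [hsum] at h1
    have h2 : ‖(k + g) i‖ ≤ 3 / 2 := ((k + g).norm_coe_le_norm i).trans h1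
    have h3 := abs_add_abs_le_norm hab ((k + g) i)
    have h4 : (k + g) i a = 1 := by
      change k i a + g i a = 1
      rw [hka, hga, add_zero]
    have h5 : (k + g) i b = k i b + g i b := rfl
    rw [h4, h5, abs_one] at h3
    have h6 := le_abs_self (k i b + g i b)
    linarith
  have := le_of_tendsto' hgb hle
  norm_num at this

end Counterexample

end Pool.Agent.Helper20.ProjectiveBL
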